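import Pool.Agent.W_a862e4_h18.FinC

/-!
MP_a862e4_co (p-schemes), helper90 [LS]: linear order p-schemes in ALL graphs, `χ ≥ 2 ^ 50 p`.
Overview: proofs row 591.  Definitions used by all files of the project.

`Cn`, `Comp`, `exists_comp`, `Cn.exists_adj`, `Cn.union`, `Cn.union_iUnion`, ... are in
`Pool.Agent.W_4929df_h91.Basic` (namespace `Pool.MP_4929df_co.H91`, opened below); `nb`, `mem_nbf`,
`Colb`, `Scheme`, `Sep`, `Linked`, `Knitted`, `knit`, `menger_sep`, `linked_of_fin`, `exists_first`, `SD`,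
`Cut3`, `Ex`, `ind` ... are in `Pool.Agent.W_a862e4_h18` (namespace `Pool.MP_a862e4_co.H18`, opened below).
-/

set_option autoImplicit false
set_option linter.unusedSectionVars false

namespace Pool.MP_a862e4_co.LS

open Pool.MP_4929df_co.H91 Pool.MP_a862e4_co.H18
open scoped Classical

variable {V : Type*} [Fintype V]

/-- `G[U]` is `m`-connected -/
structure Mc (G : SimpleGraph V) (m : ℕ) (U : Finset V) : Prop where
  big : m < U.card
  sep : ∀ A B, Sep G U A B → (A ∩ B).card < m → A ⊆ B ∨ B ⊆ A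

/-- rooted star-scheme in `U` with root set `R` -/
def RS (G : SimpleGraph V) (U R : Finset V) : Prop :=
  ∃ B : V → Set V, (∀ x ∈ R, x ∈ B x ∧ B x ⊆ (U : Set V)) ∧
    (∀ x ∈ R, ∀ y ∈ R, x ≠ y → Disjoint (B x) (B y)) ∧
    ∀ x ∈ R, ∀ y ∈ R, x ≠ y → ∃ C : Set V, Cn G C ∧ C ⊆ B x ∪ B y ∧ x ∈ C ∧ y ∈ C

/-- every set of at most `a` vertices of `U` is the root set of a star-scheme in `U` -/
def Rt (G : SimpleGraph V) (U : Finset V) (a : ℕ) : Prop :=
  ∀ R ⊆ U, R.card ≤ a → RS G U R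

/-! ### facts proved here -/

theorem Mc.mono {G : SimpleGraph V} {m m' : ℕ} {U : Finset V} (h : Mc G m U) (hm : m' ≤ m) :
    Mc G m' U :=
  ⟨lt_of_le_of_lt hm h.big, fun A B hs hc => h.sep A B hs (lt_of_lt_of_le hc hm)⟩

theorem Rt.mono {G : SimpleGraph V} {U : Finset V} {a a' : ℕ} (h : Rt G U a) (ha : a' ≤ a) :
    Rt G U a' := fun R hR hc => h R hR (hc.trans ha)

theorem colb_mono {G : SimpleGraph V} {S S' : Finset V} {k k' : ℕ} (h : Colb G S k) (hS : S' ⊆ S)
    (hk : k ≤ k') : Colb G S' k' := by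
  obtain ⟨c, hc⟩ := h
  refine ⟨fun v => Fin.castLE hk (c v), fun x hx y hy hxy he => ?_⟩
  exact hc x (hS hx) y (hS hy) hxy (Fin.castLE_injective hk he)

/-- `X` is the state of the sets `o_X(u)`: the number of neighbours of `u` in `W \ X` -/
noncomputable def oo (G : SimpleGraph V) (W X : Finset V) (u : V) : ℕ := (nb G (W \ X) u).card

/-- the weight `w(X)` of section 2 -/
noncomputable def wt (G : SimpleGraph V) (m : ℕ) (W X : Finset V) : ℕ :=
  ∑ u ∈ X, min m (oo G W X u)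

end Pool.MP_a862e4_co.LS
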