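import Pool.Agent.W_a862e4_ls.McA

/-!
Section 3.1: the auxiliary graph.
-/

set_option autoImplicit false
set_option linter.unusedSectionVars false

namespace Pool.MP_a862e4_co.LS

open Pool.MP_4929df_co.H91 Pool.MP_a862e4_co.H18
open scoped Classical

variable {V : Type*} [Fintype V]

/-- one piece: inside a connected set `Q` which contains `h ∈ H` and meets `Z` -/
private theorem fanA_piece {G : SimpleGraph V} {U H Z : Finset V} (hd : Disjoint H Z) (Q : Set V)
    (hQU : Q ⊆ (U : Set V)) (hQ : Cn G Q) {h : V} (hh : h ∈ H) (hhQ : h ∈ Q)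
    (hQZ : (Q ∩ (Z : Set V)).Nonempty) :
    ∃ (g y : V) (K : Set V), g ∈ Z ∧ g ∈ Q ∧ K ⊆ Q ∧ K ⊆ ((U \ Z : Finset V) : Set V) ∧
      Cn G K ∧ (K ∩ (H : Set V)).Nonempty ∧ y ∈ K ∧ G.Adj g y := by
  obtain ⟨Q', g, hQ'Q, hQ', hhQ', hgZ, hgQ', huniq⟩ := exists_first G Q Z h hQ hhQ hQZ
  have hhg : h ≠ g := by
    intro he
    rw [he] at hh
    exact Finset.disjoint_left.1 hd hh hgZ
  have hhU : h ∈ Q' \ {g} := ⟨hhQ', by simpa using hhg⟩
  obtain ⟨K, hK, hhK⟩ := exists_comp G hhU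
  have hKQ : K ⊆ Q' := fun z hz => (hK.1 hz).1
  have hne : K ≠ Q' := by
    intro he
    rw [← he] at hgQ'
    exact (hK.1 hgQ').2 rfl
  obtain ⟨b, hb, c, hc, hcK, hbc⟩ := hQ'.exists_adj hKQ ⟨h, hhK⟩ hne
  have hcg : c = g := by
    by_contra hcg
    exact hcK (hK.2.2 b hb c ⟨hc, hcg⟩ hbc)
  rw [hcg] at hbc
  refine ⟨g, b, K, hgZ, hQ'Q hgQ', hKQ.trans hQ'Q, ?_, hK.2.1, ⟨h, hhK, by exact_mod_cast hh⟩, hb,
    hbc.symm⟩
  intro w hw
  have h1 := hK.1 hw
  have h2 : w ∈ U := by exact_mod_cast hQU (hQ'Q h1.1)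
  have h3 : w ∉ Z := fun h4 => h1.2 (huniq w h1.1 h4)
  exact_mod_cast Finset.mem_sdiff.2 ⟨h2, h3⟩

/-- a set with fewer elements than there are disjoint sets misses one of them -/
private theorem fanA_miss {ι : Type*} [Fintype ι] (S : ι → Set V) (X : Set V)
    (hd : ∀ i j, i ≠ j → Disjoint (S i) (S j)) (hX : X.ncard < Fintype.card ι) :
    ∃ i, ¬ (S i ∩ X).Nonempty := by
  by_contra hcon
  push Not at hcon
  choose f hf using hcon
  have hinj : Function.Injective f := by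
    intro i j hij
    by_contra hne
    have h1 := (hf i).1
    have h2 := (hf j).1
    rw [← hij] at h2
    exact Set.disjoint_left.1 (hd i j hne) h1 h2
  have h3 : (Finset.univ.image f).card = Fintype.card ι := by
    rw [Finset.card_image_of_injective _ hinj, Finset.card_univ]
  have h4 : ((Finset.univ.image f : Finset V) : Set V).ncard ≤ X.ncard := by
    refine Set.ncard_le_ncard ?_ (Set.toFinite X)
    intro w hw
    have hw' : w ∈ Finset.univ.image f := by exact_mod_cast hw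
    rw [Finset.mem_image] at hw'
    obtain ⟨i, -, rfl⟩ := hw'
    exact (hf i).2
  rw [Set.ncard_coe_finset] at h4
  omega

/-- `N` disjoint sets `{g j} ∪ K j`, `g j ∈ Z`, `K j` connected in `U \ Z`, meeting `H`, `y j ∈ K j` adjacent to `g j`.  `Mc.linked` from a subset of
`Z` with `N` elements to `H`: disjoint connected `D j` meeting `Z` and `H`; `h ∈ D j ∩ H`, `exists_first` from `h` to `Z` gives a connected
`Q' ⊆ D j` containing `h` which meets `Z` exactly in `g j`; `K j` = the component of `h` in `Q' \ {g j}` (`exists_comp`); it is not `Q'`, so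
(`Cn.exists_adj`) it has a vertex `y j` adjacent to `g j`. -/
theorem fan_pieces {G : SimpleGraph V} {M N : ℕ} {U H Z : Finset V} (hU : Mc G M U) (hH : H ⊆ U)
    (hZ : Z ⊆ U) (hd : Disjoint H Z) (hNM : N ≤ M) (hNH : N ≤ H.card) (hNZ : N ≤ Z.card) :
    ∃ (g y : Fin N → V) (K : Fin N → Set V), (∀ j, g j ∈ Z ∧ K j ⊆ ((U \ Z : Finset V) : Set V) ∧
      Cn G (K j) ∧ (K j ∩ (H : Set V)).Nonempty ∧ y j ∈ K j ∧ G.Adj (g j) (y j)) ∧
      Function.Injective g ∧ ∀ i j, i ≠ j → Disjoint (K i) (K j) := by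
  obtain ⟨Z', hZ'Z, hZ'c⟩ := Finset.exists_subset_card_eq hNZ
  obtain ⟨Q, m, hQ, hQd⟩ := hU.linked (hZ'Z.trans hZ) hH (by omega) (by omega)
  let e : Fin N ≃ {z // z ∈ Z'} := (Finset.equivFinOfCardEq hZ'c).symm
  have h1 : ∀ j : Fin N, ∃ (g y : V) (K : Set V), g ∈ Z ∧ g ∈ Q (e j) ∧ K ⊆ Q (e j) ∧
      K ⊆ ((U \ Z : Finset V) : Set V) ∧ Cn G K ∧ (K ∩ (H : Set V)).Nonempty ∧ y ∈ K ∧
      G.Adj g y := by
    intro j
    obtain ⟨h2, h3, h4, h5, h6, -⟩ := hQ (e j) (e j).2
    exact fanA_piece hd (Q (e j)) h2 h3 h5 h6 ⟨e j, h4, by exact_mod_cast hZ'Z (e j).2⟩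
  choose g y K h2 h3 h4 h5 h6 h7 h8 h9 using h1
  have hdis : ∀ i j, i ≠ j → Disjoint (Q (e i)) (Q (e j)) := by
    intro i j hij
    refine hQd (e i) (e i).2 (e j) (e j).2 fun he => hij ?_
    exact e.injective (Subtype.ext he)
  refine ⟨g, y, K, fun j => ⟨h2 j, h5 j, h6 j, h7 j, h8 j, h9 j⟩, ?_, ?_⟩
  · intro i j hij
    by_contra hne
    have h10 := h3 j
    rw [← hij] at h10
    exact Set.disjoint_left.1 (hdis i j hne) (h3 i) h10
  · intro i j hij
    exact (hdis i j hij).mono (h4 i) (h4 j)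

/-- the auxiliary graph: the edges of `G` outside `Z`, the edges `g j – y j`, the edges `γ i – g j` -/
def fanG (G : SimpleGraph V) (Z : Finset V) {N a : ℕ} (g y : Fin N → V) (γ : Fin a → V) :
    SimpleGraph V where
  Adj u v := u ≠ v ∧ ((G.Adj u v ∧ u ∉ Z ∧ v ∉ Z) ∨ (∃ j, u = g j ∧ v = y j) ∨
    (∃ j, v = g j ∧ u = y j) ∨ (∃ i j, u = γ i ∧ v = g j) ∨ ∃ i j, v = γ i ∧ u = g j)
  symm := ⟨fun _ _ h => ⟨h.1.symm, by
    rcases h.2 with h | h | h | h | h
    · exact Or.inl ⟨h.1.symm, h.2.2, h.2.1⟩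
    · exact Or.inr (Or.inr (Or.inl h))
    · exact Or.inr (Or.inl h)
    · exact Or.inr (Or.inr (Or.inr (Or.inr h)))
    · exact Or.inr (Or.inr (Or.inr (Or.inl h)))⟩⟩
  loopless := ⟨fun _ h => h.1 rfl⟩

/-- (3.1) first half: Menger in the auxiliary graph.  `menger_in (fanG ..) N Us A B` with `Us = (U \ Z) ∪ range g ∪ range γ`,
`A = Y ∪ range γ` (`N` elements), `B = H`.  A set `X` with fewer than `N` elements that misses some `γ i` misses some `{g j} ∪ K j` (they are
disjoint, `N` of them), and `{γ i, g j} ∪ K j` is connected in `fanG`; if `X` contains all `γ i` (`a` elements) it misses one of the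
`Y.card` sets of the linkage `hL` (they are contained in `U \ Z`, connected in `fanG`).  Result: `N` disjoint sets connected in `fanG`,
indexed here by the elements of `Y ∪ range γ`: the set `C v` contains `v` and no other element of `Y ∪ range γ`, and meets `H`
(each of the `N` sets contains at least one of the `N` elements, they are disjoint). -/
theorem fan_menger {G : SimpleGraph V} {N a : ℕ} {U H Z Y : Finset V}
    (hH : H ⊆ U) (hZ : Z ⊆ U) (hd : Disjoint H Z) (hY : Y ⊆ U \ Z) (hN : N = Y.card + a)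
    (g y : Fin N → V) (K : Fin N → Set V) (γ : Fin a → V)
    (hK : ∀ j, g j ∈ Z ∧ K j ⊆ ((U \ Z : Finset V) : Set V) ∧
      Cn G (K j) ∧ (K j ∩ (H : Set V)).Nonempty ∧ y j ∈ K j ∧ G.Adj (g j) (y j))
    (hg : Function.Injective g) (hKd : ∀ i j, i ≠ j → Disjoint (K i) (K j))
    (hγ : Function.Injective γ) (hγZ : ∀ i, γ i ∈ Z) (hγg : ∀ i j, γ i ≠ g j)
    (hL : Linked G (U \ Z) Y H) :
    ∃ C : V → Set V, (∀ v, (v ∈ Y ∨ ∃ i, v = γ i) →
        v ∈ C v ∧ Cn (fanG G Z g y γ) (C v) ∧ (C v ∩ (H : Set V)).Nonempty ∧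
        (∀ w ∈ C v, w ∉ Z ∧ w ∈ U ∨ (∃ j, w = g j) ∨ ∃ i, w = γ i) ∧
        ∀ w ∈ C v, (w ∈ Y ∨ ∃ i, w = γ i) → w = v) ∧
      ∀ u v, (u ∈ Y ∨ ∃ i, u = γ i) → (v ∈ Y ∨ ∃ i, v = γ i) → u ≠ v → Disjoint (C u) (C v) := by
  let A : Finset V := Y ∪ Finset.univ.image γ
  have mA : ∀ v, v ∈ A ↔ (v ∈ Y ∨ ∃ i, v = γ i) := by
    intro v
    simp only [A, Finset.mem_union, Finset.mem_image, Finset.mem_univ, true_and]
    constructor
    · rintro (h | ⟨i, hi⟩)
      · exact Or.inl h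
      · exact Or.inr ⟨i, hi.symm⟩
    · rintro (h | ⟨i, hi⟩)
      · exact Or.inl h
      · exact Or.inr ⟨i, hi.symm⟩
  have cA : A.card = N := by
    have h1 : Disjoint Y (Finset.univ.image γ) := by
      rw [Finset.disjoint_left]
      intro w hw hw2
      rw [Finset.mem_image] at hw2
      obtain ⟨i, -, rfl⟩ := hw2
      exact (Finset.mem_sdiff.1 (hY hw)).2 (hγZ i)
    have h2 : A.card = Y.card + (Finset.univ.image γ).card := Finset.card_union_of_disjoint h1
    rw [h2, Finset.card_image_of_injective _ hγ, Finset.card_univ, Fintype.card_fin, hN]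
  let Us : Set V := {w | w ∉ Z ∧ w ∈ U ∨ (∃ j, w = g j) ∨ ∃ i, w = γ i}
  have mUs : ∀ w, w ∈ Us ↔ (w ∉ Z ∧ w ∈ U ∨ (∃ j, w = g j) ∨ ∃ i, w = γ i) := fun w => Iff.rfl
  have hAU : (A : Set V) ⊆ Us := by
    intro w hw
    have hw' : w ∈ A := by exact_mod_cast hw
    rw [mA] at hw'
    rw [mUs]
    rcases hw' with h | h
    · have h1 := Finset.mem_sdiff.1 (hY h)
      exact Or.inl ⟨h1.2, h1.1⟩
    · exact Or.inr (Or.inr h)
  have hHU : (H : Set V) ⊆ Us := by
    intro w hw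
    have hw' : w ∈ H := by exact_mod_cast hw
    exact Or.inl ⟨Finset.disjoint_left.1 hd hw', hH hw'⟩
  have hcn : ∀ S : Set V, S ⊆ ((U \ Z : Finset V) : Set V) → Cn G S →
      Cn (fanG G Z g y γ) S := by
    intro S hS hc
    refine ⟨hc.1, fun T hT hne hcl => hc.2 T hT hne fun a ha b hb hab => hcl a ha b hb ?_⟩
    have h1 : a ∈ U \ Z := by exact_mod_cast hS (hT ha)
    have h2 : b ∈ U \ Z := by exact_mod_cast hS hb
    exact ⟨hab.ne, Or.inl ⟨hab, (Finset.mem_sdiff.1 h1).2, (Finset.mem_sdiff.1 h2).2⟩⟩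
  have hKZ : ∀ j, ∀ w ∈ K j, w ∉ Z ∧ w ∈ U := by
    intro j w hw
    have h1 : w ∈ U \ Z := by exact_mod_cast (hK j).2.1 hw
    exact ⟨(Finset.mem_sdiff.1 h1).2, (Finset.mem_sdiff.1 h1).1⟩
  obtain ⟨Q, hQ, hQd⟩ := menger_in (fanG G Z g y γ) N Us (A : Set V) (H : Set V) hAU hHU (by
    intro X hX
    by_contra hlt
    push Not at hlt
    by_cases hall : ∀ i, γ i ∈ X
    · obtain ⟨P, m, hP, hPd⟩ := hL
      have h1 : (X \ Set.range γ).ncard < Fintype.card {v // v ∈ Y} := by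
        have h2 : Set.range γ ⊆ X := by
          rintro _ ⟨i, rfl⟩
          exact hall i
        have h3 := Set.ncard_sdiff_add_ncard_of_subset h2 (Set.toFinite X)
        have h4 : (Set.range γ).ncard = a := by
          have h5 : Set.range γ = ((Finset.univ.image γ : Finset V) : Set V) := by
            ext w
            simp
          rw [h5, Set.ncard_coe_finset, Finset.card_image_of_injective _ hγ, Finset.card_univ,
            Fintype.card_fin]
        rw [Fintype.card_coe]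
        omega
      obtain ⟨v, hv⟩ := fanA_miss (fun v : {v // v ∈ Y} => P v) (X \ Set.range γ) (by
        intro u v huv
        exact hPd u u.2 v v.2 fun h => huv (Subtype.ext h)) h1
      apply hv
      obtain ⟨h2, h3, h4, h5, h6, -⟩ := hP v v.2
      obtain ⟨w, hw1, hw2⟩ := hX (P v) (by
        intro w hw
        have h7 : w ∈ U \ Z := by exact_mod_cast h2 hw
        exact Or.inl ⟨(Finset.mem_sdiff.1 h7).2, (Finset.mem_sdiff.1 h7).1⟩) (hcn _ h2 h3)
        ⟨v, h4, by
          have h7 : (v : V) ∈ A := (mA _).2 (Or.inl v.2)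
          exact_mod_cast h7⟩ ⟨m v, h6, by exact_mod_cast h5⟩
      refine ⟨w, hw1, hw2, ?_⟩
      rintro ⟨i, rfl⟩
      have h7 : γ i ∈ U \ Z := by exact_mod_cast h2 hw1
      exact (Finset.mem_sdiff.1 h7).2 (hγZ i)
    · push Not at hall
      obtain ⟨i, hi⟩ := hall
      obtain ⟨j, hj⟩ := fanA_miss (fun j : Fin N => insert (g j) (K j)) X (by
        intro j k hjk
        rw [Set.disjoint_left]
        rintro w (h1 | h1) (h2 | h2)
        · exact hjk (hg (h1.symm.trans h2))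
        · rw [h1] at h2
          exact (hKZ k _ h2).1 (hK j).1
        · rw [h2] at h1
          exact (hKZ j _ h1).1 (hK k).1
        · exact Set.disjoint_left.1 (hKd j k hjk) h1 h2) (by
        rw [Fintype.card_fin]
        exact hlt)
      obtain ⟨h1, h2, h3, h4, h5, h6⟩ := hK j
      have h7 : (fanG G Z g y γ).Adj (y j) (g j) := by
        refine ⟨fun he => (hKZ j _ h5).1 (he ▸ h1), Or.inr (Or.inr (Or.inl ⟨j, rfl, rfl⟩))⟩
      have h8 : (fanG G Z g y γ).Adj (g j) (γ i) :=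
        ⟨(hγg i j).symm, Or.inr (Or.inr (Or.inr (Or.inr ⟨i, j, rfl, rfl⟩)))⟩
      have h9 : Cn (fanG G Z g y γ) (insert (γ i) (insert (g j) (K j))) :=
        ((hcn _ h2 h3).insert h5 h7).insert (Set.mem_insert _ _) h8
      obtain ⟨w, hw1, hw2⟩ := hX _ (by
        rintro w (hw | hw | hw)
        · exact Or.inr (Or.inr ⟨i, hw⟩)
        · exact Or.inr (Or.inl ⟨j, hw⟩)
        · exact Or.inl (hKZ j w hw)) h9
        ⟨γ i, Set.mem_insert _ _, by
          have h10 : γ i ∈ A := (mA _).2 (Or.inr ⟨i, rfl⟩)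
          exact_mod_cast h10⟩ (by
          obtain ⟨w, hw1, hw2⟩ := h4
          exact ⟨w, Set.mem_insert_of_mem _ (Set.mem_insert_of_mem _ hw1), hw2⟩)
      rcases hw1 with hw1 | hw1
      · rw [hw1] at hw2
        exact hi hw2
      · exact hj ⟨w, hw1, hw2⟩)
  choose f hf using fun i => (hQ i).2.2.1
  have finj : Function.Injective f := by
    intro i j hij
    by_contra hne
    have h2 := (hf j).1
    rw [← hij] at h2
    exact Set.disjoint_left.1 (hQd i j hne) (hf i).1 h2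
  have himg : Finset.univ.image f = A := by
    refine Finset.eq_of_subset_of_card_le ?_ ?_
    · intro z hz
      rw [Finset.mem_image] at hz
      obtain ⟨i, -, rfl⟩ := hz
      exact_mod_cast (hf i).2
    · rw [Finset.card_image_of_injective _ finj, Finset.card_univ, Fintype.card_fin, cA]
  have hsurj : ∀ z, (z ∈ Y ∨ ∃ i, z = γ i) → ∃ i, f i = z := by
    intro z hz
    rw [← mA, ← himg, Finset.mem_image] at hz
    obtain ⟨i, -, hi⟩ := hz
    exact ⟨i, hi⟩
  have huniq : ∀ i w, w ∈ Q i → (w ∈ Y ∨ ∃ i, w = γ i) → w = f i := by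
    intro i w hw hw2
    obtain ⟨k, hk⟩ := hsurj w hw2
    by_contra hne
    have hik : i ≠ k := by
      intro h
      rw [h] at hne
      exact hne hk.symm
    have h2 := (hf k).1
    rw [hk] at h2
    exact Set.disjoint_left.1 (hQd i k hik) hw h2
  refine ⟨fun z => if hz : ∃ i, f i = z then Q hz.choose else ∅, ?_, ?_⟩
  · intro v hv
    have hv' := hsurj v hv
    have hc : f hv'.choose = v := hv'.choose_spec
    simp only [dif_pos hv']
    refine ⟨?_, (hQ _).2.1, (hQ _).2.2.2, fun w hw => (hQ _).1 hw, fun w hw hw2 => ?_⟩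
    · have h1 := (hf hv'.choose).1
      rwa [hc] at h1
    · exact (huniq _ w hw hw2).trans hc
  · intro u v hu hv huv
    have hu' := hsurj u hu
    have hv' := hsurj v hv
    have hcu : f hu'.choose = u := hu'.choose_spec
    have hcv : f hv'.choose = v := hv'.choose_spec
    simp only [dif_pos hu', dif_pos hv']
    refine hQd _ _ ?_
    intro h
    apply huv
    rw [← hcu, ← hcv, h]

end Pool.MP_a862e4_co.LS
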