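import Pool.Agent.W_a862e4_ls.FanA

/-!
Section 3.1: the fan lemma.
-/

set_option autoImplicit false
set_option linter.unusedSectionVars false

namespace Pool.MP_a862e4_co.LS

open Pool.MP_4929df_co.H91 Pool.MP_a862e4_co.H18
open scoped Classical

variable {V : Type*} [Fintype V]

/-- the set of a vertex `v ∈ Y`: `C ∩ (U \ Z)` is `G`-connected (`cn_of_base` at `v`: if `A ⊆ C ∩ (U \ Z)` contains `v` and is closed, then
`A ∪ {g j ∈ C | y j ∈ A}` is closed in `C` under `fanG`, as no `γ i` is in `C`). -/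
theorem fan_cut {G : SimpleGraph V} {N a : ℕ} {U Z : Finset V}
    (g y : Fin N → V) (γ : Fin a → V) (hgZ : ∀ j, g j ∈ Z) (hγZ : ∀ i, γ i ∈ Z)
    (hyZ : ∀ j, y j ∉ Z) (hg : Function.Injective g) {C : Set V} (hC : Cn (fanG G Z g y γ) C)
    (hsub : ∀ w ∈ C, w ∉ Z ∧ w ∈ U ∨ (∃ j, w = g j) ∨ ∃ i, w = γ i) {v : V} (hv : v ∈ C)
    (hvZ : v ∉ Z) (hno : ∀ i, γ i ∉ C) :
    Cn G (C ∩ ((U \ Z : Finset V) : Set V)) := by
  have hvU : v ∈ C ∩ ((U \ Z : Finset V) : Set V) := by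
    refine ⟨hv, ?_⟩
    rcases hsub v hv with h | ⟨j, h⟩ | ⟨i, h⟩
    · exact_mod_cast Finset.mem_sdiff.2 ⟨h.2, h.1⟩
    · exact absurd (h ▸ hgZ j) hvZ
    · exact absurd (h ▸ hγZ i) hvZ
  refine cn_of_base hvU fun A hA hvA hcl => ?_
  have hAZ : ∀ w ∈ A, w ∉ Z := by
    intro w hw
    have h1 : w ∈ U \ Z := by exact_mod_cast (hA hw).2
    exact (Finset.mem_sdiff.1 h1).2
  have h1 : A ∪ {w | w ∈ C ∧ ∃ j, w = g j ∧ y j ∈ A} = C := by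
    refine hC.2 _ ?_ ⟨v, Or.inl hvA⟩ ?_
    · rintro w (hw | hw)
      · exact (hA hw).1
      · exact hw.1
    · intro a ha b hb hab
      rcases hab.2 with h | ⟨j, h, h'⟩ | ⟨j, h, h'⟩ | ⟨i, j, h, h'⟩ | ⟨i, j, h, h'⟩
      · rcases ha with ha | ⟨-, j, hj, -⟩
        · refine Or.inl (hcl a ha b ⟨hb, ?_⟩ h.1)
          rcases hsub b hb with h2 | ⟨j, h2⟩ | ⟨i, h2⟩
          · exact_mod_cast Finset.mem_sdiff.2 ⟨h2.2, h2.1⟩
          · exact absurd (h2 ▸ hgZ j) h.2.2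
          · exact absurd (h2 ▸ hγZ i) h.2.2
        · exact absurd (hj ▸ hgZ j) h.2.1
      · rcases ha with ha | ⟨-, k, hk, hk'⟩
        · exact absurd (h ▸ hgZ j) (hAZ a ha)
        · have h2 : j = k := hg (h.symm.trans hk)
          left
          rw [h', h2]
          exact hk'
      · rcases ha with ha | ⟨-, k, hk, -⟩
        · right
          exact ⟨hb, j, h, h' ▸ ha⟩
        · exfalso
          apply hyZ j
          rw [← h', hk]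
          exact hgZ k
      · exfalso
        have h2 : a ∈ C := by
          rcases ha with ha | ha
          · exact (hA ha).1
          · exact ha.1
        exact hno i (h ▸ h2)
      · exact absurd (h ▸ hb) (hno i)
  refine Set.Subset.antisymm hA fun w hw => ?_
  have h2 : w ∈ A ∪ {w | w ∈ C ∧ ∃ j, w = g j ∧ y j ∈ A} := by
    rw [h1]
    exact hw.1
  rcases h2 with h2 | ⟨-, j, h3, -⟩
  · exact h2
  · have h4 : w ∈ U \ Z := by exact_mod_cast hw.2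
    exact absurd (h3 ▸ hgZ j) (Finset.mem_sdiff.1 h4).2

/-- the set of a vertex `γ i`: `h ∈ C ∩ H`, `K` the component of `h` in `C ∩ (U \ Z)`; some `g j ∈ C` has `y j ∈ K`, otherwise `K` is closed
in `C` under `fanG`, so `K = C`, but `γ i ∉ K`.  Take `insert (g j) K`. -/
theorem fan_tail {G : SimpleGraph V} {N a : ℕ} {U H Z : Finset V} (hHU : H ⊆ U)
    (hd : Disjoint H Z) (g y : Fin N → V) (γ : Fin a → V) (hgZ : ∀ j, g j ∈ Z)
    (hγZ : ∀ i, γ i ∈ Z) (hgy : ∀ j, G.Adj (g j) (y j)) (hyZ : ∀ j, y j ∉ Z)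
    {C : Set V} (hC : Cn (fanG G Z g y γ) C)
    (hsub : ∀ w ∈ C, w ∉ Z ∧ w ∈ U ∨ (∃ j, w = g j) ∨ ∃ i, w = γ i) (i : Fin a) (hi : γ i ∈ C)
    (hH : (C ∩ (H : Set V)).Nonempty) :
    ∃ (D : Set V) (e : V), D ⊆ C ∧ Cn G D ∧ e ∈ D ∧ e ∈ Z ∧ (∀ w ∈ D, w ∈ Z → w = e) ∧
      (D ∩ (H : Set V)).Nonempty := by
  obtain ⟨h, hhC, hhH⟩ := hH
  have hhH' : h ∈ H := by exact_mod_cast hhH
  have hhZ : h ∉ Z := Finset.disjoint_left.1 hd hhH'
  have hhU : h ∈ C ∩ ((U \ Z : Finset V) : Set V) :=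
    ⟨hhC, by exact_mod_cast Finset.mem_sdiff.2 ⟨hHU hhH', hhZ⟩⟩
  obtain ⟨K, hK, hhK⟩ := exists_comp G hhU
  have hKZ : ∀ w ∈ K, w ∉ Z := by
    intro w hw
    have h1 : w ∈ U \ Z := by exact_mod_cast (hK.1 hw).2
    exact (Finset.mem_sdiff.1 h1).2
  have hKC : K ⊆ C := fun w hw => (hK.1 hw).1
  have h1 : ∃ j, g j ∈ C ∧ y j ∈ K := by
    by_contra hcon
    push Not at hcon
    have h2 : K = C := by
      refine hC.2 K hKC ⟨h, hhK⟩ ?_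
      intro a ha b hb hab
      rcases hab.2 with h3 | ⟨j, h3, h4⟩ | ⟨j, h3, h4⟩ | ⟨i', j, h3, h4⟩ | ⟨i', j, h3, h4⟩
      · refine hK.2.2 a ha b ⟨hb, ?_⟩ h3.1
        rcases hsub b hb with h5 | ⟨j, h5⟩ | ⟨i', h5⟩
        · exact_mod_cast Finset.mem_sdiff.2 ⟨h5.2, h5.1⟩
        · exact absurd (h5 ▸ hgZ j) h3.2.2
        · exact absurd (h5 ▸ hγZ i') h3.2.2
      · exact absurd (h3 ▸ hgZ j) (hKZ a ha)
      · exact absurd (h4 ▸ ha) (hcon j (h3 ▸ hb))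
      · exact absurd (h3 ▸ hγZ i') (hKZ a ha)
      · exact absurd (h4 ▸ hgZ j) (hKZ a ha)
    rw [← h2] at hi
    exact hKZ _ hi (hγZ i)
  obtain ⟨j, hj, hj'⟩ := h1
  refine ⟨insert (g j) K, g j, ?_, hK.2.1.insert hj' (hgy j).symm, Set.mem_insert _ _, hgZ j, ?_,
    ⟨h, Set.mem_insert_of_mem _ hhK, hhH⟩⟩
  · rintro w (hw | hw)
    · rw [hw]
      exact hj
    · exact hKC hw
  · rintro w (hw | hw) hwZ
    · exact hw
    · exact absurd hwZ (hKZ w hw)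

/-- **(3.1) FAN.**  `fan_pieces` with `N = Y.card + a`, `γ` an enumeration of `a` elements of `Z` outside `range g` (`N + a ≤ |Z|`),
`fan_menger`, `fan_cut` and then `exists_first` from `v` to `H`, `fan_tail` and then `exists_first` from `e` to `H` (with `M = H`).
The sets lie in `U` because `C ⊆ (U \ Z) ∪ Z`. -/
theorem fan {G : SimpleGraph V} {M a : ℕ} {U H Z Y : Finset V} (hU : Mc G M U) (hH : H ⊆ U)
    (hZ : Z ⊆ U) (hd : Disjoint H Z) (hY : Y ⊆ U \ Z) (hM : Y.card + a ≤ M)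
    (hHc : Y.card + a ≤ H.card) (hZc : Y.card + a + a ≤ Z.card) (hL : Linked G (U \ Z) Y H) :
    ∃ (Q : V → Set V) (m : V → V) (D : ℕ → Set V) (e h : ℕ → V),
      (∀ y ∈ Y, Q y ⊆ ((U \ Z : Finset V) : Set V) ∧ Cn G (Q y) ∧ y ∈ Q y ∧ m y ∈ H ∧ m y ∈ Q y ∧
        ∀ w ∈ Q y, w ∈ H → w = m y) ∧
      (∀ i < a, D i ⊆ (U : Set V) ∧ Cn G (D i) ∧ e i ∈ Z ∧ e i ∈ D i ∧ (∀ w ∈ D i, w ∈ Z → w = e i) ∧
        h i ∈ H ∧ h i ∈ D i ∧ ∀ w ∈ D i, w ∈ H → w = h i) ∧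
      (∀ y ∈ Y, ∀ z ∈ Y, y ≠ z → Disjoint (Q y) (Q z)) ∧
      (∀ i < a, ∀ j < a, i ≠ j → Disjoint (D i) (D j)) ∧
      ∀ y ∈ Y, ∀ i < a, Disjoint (Q y) (D i) := by
  obtain ⟨g, y, K, hK, hg, hKd⟩ := fan_pieces (N := Y.card + a) hU hH hZ hd hM hHc (by omega)
  have hc : a ≤ (Z \ Finset.univ.image g).card := by
    have h1 := Finset.card_sdiff_add_card_inter Z (Finset.univ.image g)
    have h2 : (Z ∩ Finset.univ.image g).card ≤ Y.card + a := by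
      refine (Finset.card_le_card Finset.inter_subset_right).trans ?_
      refine Finset.card_image_le.trans ?_
      rw [Finset.card_univ, Fintype.card_fin]
    omega
  obtain ⟨Γ, hΓ, hΓc⟩ := Finset.exists_subset_card_eq hc
  let eΓ : Fin a ≃ {z // z ∈ Γ} := (Finset.equivFinOfCardEq hΓc).symm
  let γ : Fin a → V := fun i => eΓ i
  have hγ : Function.Injective γ := by
    intro i j hij
    exact eΓ.injective (Subtype.ext hij)
  have hγZ : ∀ i, γ i ∈ Z := fun i => (Finset.mem_sdiff.1 (hΓ (eΓ i).2)).1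
  have hγg : ∀ i j, γ i ≠ g j := by
    intro i j hij
    apply (Finset.mem_sdiff.1 (hΓ (eΓ i).2)).2
    rw [Finset.mem_image]
    exact ⟨j, Finset.mem_univ _, hij.symm⟩
  obtain ⟨C, hC, hCd⟩ := fan_menger hH hZ hd hY rfl g y K γ hK hg hKd hγ hγZ hγg hL
  have hgZ : ∀ j, g j ∈ Z := fun j => (hK j).1
  have hyZ : ∀ j, y j ∉ Z := by
    intro j
    have h1 : y j ∈ U \ Z := by exact_mod_cast (hK j).2.1 (hK j).2.2.2.2.1
    exact (Finset.mem_sdiff.1 h1).2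
  have hYZ : ∀ v ∈ Y, v ∉ Z := fun v hv => (Finset.mem_sdiff.1 (hY hv)).2
  have hY1 : ∀ v : V, ∃ (Q : Set V) (m : V), v ∈ Y →
      (Q ⊆ C v ∧ Q ⊆ ((U \ Z : Finset V) : Set V) ∧ Cn G Q ∧ v ∈ Q ∧ m ∈ H ∧ m ∈ Q ∧
        ∀ w ∈ Q, w ∈ H → w = m) := by
    intro v
    by_cases hv : v ∈ Y
    · obtain ⟨h1, h2, h3, h4, h5⟩ := hC v (Or.inl hv)
      have hno : ∀ i, γ i ∉ C v := by
        intro i hi
        have h6 := h5 (γ i) hi (Or.inr ⟨i, rfl⟩)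
        exact hYZ v hv (h6 ▸ hγZ i)
      have h6 := fan_cut g y γ hgZ hγZ hyZ hg h2 h4 h1 (hYZ v hv) hno
      obtain ⟨w, hw1, hw2⟩ := h3
      have hw2' : w ∈ H := by exact_mod_cast hw2
      obtain ⟨Q, m, h7, h8, h9, h10, h11, h12⟩ := exists_first G _ H v h6
        ⟨h1, by exact_mod_cast hY hv⟩ ⟨w, ⟨hw1, by
          exact_mod_cast Finset.mem_sdiff.2 ⟨hH hw2', Finset.disjoint_left.1 hd hw2'⟩⟩, hw2⟩
      exact ⟨Q, m, fun _ => ⟨fun z hz => (h7 hz).1, fun z hz => (h7 hz).2, h8, h9, h10, h11, h12⟩⟩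
    · exact ⟨∅, v, fun h => absurd h hv⟩
  choose Q m hQ using hY1
  have hne : U.Nonempty := by
    rw [← Finset.card_pos]
    exact lt_of_le_of_lt (Nat.zero_le _) hU.big
  obtain ⟨v0, -⟩ := hne
  have hD1 : ∀ i : ℕ, ∃ (D : Set V) (e h : V), ∀ hi : i < a,
      (D ⊆ C (γ ⟨i, hi⟩) ∧ D ⊆ (U : Set V) ∧ Cn G D ∧ e ∈ Z ∧ e ∈ D ∧ (∀ w ∈ D, w ∈ Z → w = e) ∧
        h ∈ H ∧ h ∈ D ∧ ∀ w ∈ D, w ∈ H → w = h) := by
    intro i
    by_cases hi : i < a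
    · obtain ⟨h1, h2, h3, h4, h5⟩ := hC (γ ⟨i, hi⟩) (Or.inr ⟨_, rfl⟩)
      obtain ⟨D, e, h6, h7, h8, h9, h10, h11⟩ := fan_tail hH hd g y γ hgZ hγZ
        (fun j => (hK j).2.2.2.2.2) hyZ h2 h4 ⟨i, hi⟩ h1 h3
      obtain ⟨D', h, h12, h13, h14, h15, h16, h17⟩ := exists_first G D H e h7 h8 h11
      refine ⟨D', e, h, fun _ => ⟨h12.trans h6, ?_, h13, h9, h14, fun w hw hwZ => h10 w (h12 hw) hwZ,
        h15, h16, h17⟩⟩
      intro w hw
      rcases h4 w (h6 (h12 hw)) with h18 | ⟨j, h18⟩ | ⟨j, h18⟩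
      · exact_mod_cast h18.2
      · exact_mod_cast hZ (h18 ▸ hgZ j)
      · exact_mod_cast hZ (h18 ▸ hγZ j)
    · exact ⟨∅, v0, v0, fun h => absurd h hi⟩
  choose D e h hDh using hD1
  refine ⟨Q, m, D, e, h, ?_, ?_, ?_, ?_, ?_⟩
  · intro v hv
    exact (hQ v hv).2
  · intro i hi
    exact (hDh i hi).2
  · intro v hv z hz hvz
    exact (hCd v z (Or.inl hv) (Or.inl hz) hvz).mono (hQ v hv).1 (hQ z hz).1
  · intro i hi j hj hij
    refine (hCd _ _ (Or.inr ⟨_, rfl⟩) (Or.inr ⟨_, rfl⟩) ?_).mono (hDh i hi).1 (hDh j hj).1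
    intro h1
    exact hij (by simpa using hγ h1)
  · intro v hv i hi
    refine (hCd _ _ (Or.inl hv) (Or.inr ⟨_, rfl⟩) ?_).mono (hQ v hv).1 (hDh i hi).1
    intro h1
    exact hYZ v hv (h1 ▸ hγZ _)

end Pool.MP_a862e4_co.LS
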