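import Pool.Agent.W_a862e4_ls.Defs

/-!
Section 1.1: colouring facts.
-/

set_option autoImplicit false
set_option linter.unusedSectionVars false

namespace Pool.MP_a862e4_co.LS

open Pool.MP_4929df_co.H91 Pool.MP_a862e4_co.H18
open scoped Classical

variable {V : Type*} [Fintype V]

/-- colours of `A` in the first `k`, colours of `B \ A` in the last `l` (`Fin.castAdd`, `Fin.natAdd`). -/
theorem colb_union {G : SimpleGraph V} {A B : Finset V} {k l : ℕ} (hA : Colb G A k)
    (hB : Colb G B l) : Colb G (A ∪ B) (k + l) := by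
  obtain ⟨c, hc⟩ := hA
  obtain ⟨d, hd⟩ := hB
  have hne : ∀ (i : Fin k) (j : Fin l), Fin.castAdd l i ≠ Fin.natAdd k j := by
    intro i j h
    have h1 := congrArg Fin.val h
    simp only [Fin.val_castAdd, Fin.val_natAdd] at h1
    have := i.2
    omega
  refine ⟨fun v => if v ∈ A then Fin.castAdd l (c v) else Fin.natAdd k (d v), ?_⟩
  intro x hx y hy hxy
  by_cases hxA : x ∈ A
  · by_cases hyA : y ∈ A
    · simp only [if_pos hxA, if_pos hyA]
      intro h
      exact hc x hxA y hyA hxy (Fin.castAdd_injective k l h)
    · simp only [if_pos hxA, if_neg hyA]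
      exact hne _ _
  · by_cases hyA : y ∈ A
    · simp only [if_neg hxA, if_pos hyA]
      exact fun h => hne _ _ h.symm
    · simp only [if_neg hxA, if_neg hyA]
      intro h
      have hxB : x ∈ B := (Finset.mem_union.1 hx).resolve_left hxA
      have hyB : y ∈ B := (Finset.mem_union.1 hy).resolve_left hyA
      exact hd x hxB y hyB hxy (Fin.natAdd_injective l k h)

/-- injective colouring (`Finset.equivFin`; the case `k = 0`, `A = ∅`, `V` nonempty does not occur: `Colb` needs
`V → Fin k`, so we ask for `0 < k`). -/
theorem colb_card {G : SimpleGraph V} {A : Finset V} {k : ℕ} (hk : 0 < k) (hA : A.card ≤ k) :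
    Colb G A k := by
  refine ⟨fun v => if h : v ∈ A then Fin.castLE hA (A.equivFin ⟨v, h⟩) else ⟨0, hk⟩, ?_⟩
  intro x hx y hy hxy
  simp only [dif_pos hx, dif_pos hy]
  intro h
  have h1 := A.equivFin.injective (Fin.castLE_injective hA h)
  have h2 : x = y := congrArg Subtype.val h1
  exact hxy.ne h2

/-- induction on `s`, `colb_union` -/
theorem colb_biUnion {G : SimpleGraph V} {s : Finset V} {f : V → Finset V} {k : ℕ} (hk : 0 < k)
    (hf : ∀ x ∈ s, Colb G (f x) k) {n : ℕ} (hs : s.card ≤ n) (hn : 0 < n) :
    Colb G (s.biUnion f) (n * k) := by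
  have key : ∀ t : Finset V, t ⊆ s → t.Nonempty → Colb G (t.biUnion f) (t.card * k) := by
    intro t
    induction t using Finset.induction_on with
    | empty => intro _ h; exact absurd h (by simp)
    | insert a t ha ih =>
      intro hts _
      have hfa : Colb G (f a) k := hf a (hts (Finset.mem_insert_self a t))
      rw [Finset.card_insert_of_notMem ha, Finset.biUnion_insert]
      rcases t.eq_empty_or_nonempty with h0 | h0
      · subst h0
        simpa using hfa
      · have h1 := ih ((Finset.subset_insert a t).trans hts) h0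
        have h2 := colb_union hfa h1
        have h3 : k + t.card * k = (t.card + 1) * k := by ring
        rw [← h3]
        exact h2
  rcases s.eq_empty_or_nonempty with h0 | h0
  · subst h0
    exact colb_card (Nat.mul_pos hn hk) (by simp)
  · exact colb_mono (key s (Finset.Subset.refl s) h0) (Finset.Subset.refl _)
      (Nat.mul_le_mul_right k hs)

/-- adding the vertices of `R` (at most `a`) to a colourable set -/
private theorem colb_add_aux {G : SimpleGraph V} {U R : Finset V} {c a : ℕ}
    (h : Colb G (U \ R) c) (hR : R.card ≤ a) : Colb G U (c + a) := by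
  rcases Nat.eq_zero_or_pos a with h0 | h0
  · subst h0
    have hR0 : R = ∅ := Finset.card_eq_zero.1 (Nat.le_zero.1 hR)
    subst hR0
    simpa using h
  · have h1 : Colb G R a := colb_card h0 hR
    exact colb_mono (colb_union h h1) (by
      intro x hx
      by_cases hxR : x ∈ R
      · exact Finset.mem_union_right _ hxR
      · exact Finset.mem_union_left _ (Finset.mem_sdiff.2 ⟨hx, hxR⟩)) le_rfl

/-- there is a minimal subset which is not `c`-colourable; it is `(c + 1)`-colourable (`colb_union` with one vertex), and
all its vertices have at least `c` neighbours in it (`greedy_step`). -/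
theorem exists_critical {G : SimpleGraph V} {U : Finset V} {c : ℕ} (hc : 0 < c) (h : ¬ Colb G U c) :
    ∃ W ⊆ U, ¬ Colb G W c ∧ (∀ W', W' ⊂ W → Colb G W' c) ∧ Colb G W (c + 1) ∧
      ∀ v ∈ W, c ≤ (nb G W v).card := by
  obtain ⟨W, hWm, hWmin⟩ := (U.powerset.filter (fun W => ¬ Colb G W c)).exists_minimal
    ⟨U, Finset.mem_filter.2 ⟨Finset.mem_powerset_self U, h⟩⟩
  have hW := Finset.mem_filter.1 hWm
  have hWU : W ⊆ U := Finset.mem_powerset.1 hW.1
  have hmin : ∀ W', W' ⊂ W → Colb G W' c := by
    intro W' hW'
    by_contra hcon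
    have h1 : W' ∈ U.powerset.filter (fun W => ¬ Colb G W c) :=
      Finset.mem_filter.2 ⟨Finset.mem_powerset.2 (hW'.1.trans hWU), hcon⟩
    exact hW'.2 (hWmin h1 hW'.1)
  have hne : W.Nonempty := by
    rw [Finset.nonempty_iff_ne_empty]
    intro h0
    apply hW.2
    rw [h0]
    exact colb_card hc (by simp)
  refine ⟨W, hWU, hW.2, hmin, ?_, ?_⟩
  · obtain ⟨v, hv⟩ := hne
    have h1 : Colb G (W \ {v}) c := hmin _ (by
      refine ⟨Finset.sdiff_subset, fun hsub => ?_⟩
      have := hsub hv
      simp at this)
    exact colb_add_aux h1 (by simp)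
  · intro v hv
    by_contra hcon
    push Not at hcon
    have h1 : Colb G (W.erase v) c := hmin _ (Finset.erase_ssubset hv)
    have h2 : (nb G (W.erase v) v).card < c := by
      refine lt_of_le_of_lt (Finset.card_le_card ?_) hcon
      intro w hw
      have hw' := mem_nbf.1 hw
      exact mem_nbf.2 ⟨Finset.mem_of_mem_erase hw'.1, hw'.2⟩
    have h3 := greedy_step G c (W.erase v) v h1 h2
    rw [Finset.insert_erase hv] at h3
    exact hW.2 h3

/-- `not Colb` after removal: from `colb_union` -/
theorem not_colb_sdiff {G : SimpleGraph V} {U A : Finset V} {c k : ℕ} (h : ¬ Colb G U c)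
    (hA : Colb G A k) (hk : k ≤ c) : ¬ Colb G (U \ A) (c - k) := by
  intro h1
  apply h
  have h2 := colb_union h1 hA
  rw [Nat.sub_add_cancel hk] at h2
  exact colb_mono h2 (by
    intro x hx
    by_cases hxA : x ∈ A
    · exact Finset.mem_union_right _ hxA
    · exact Finset.mem_union_left _ (Finset.mem_sdiff.2 ⟨hx, hxA⟩)) le_rfl

/-- a set that is not `c`-colourable has more than `c` elements (`0 < c`) -/
theorem card_of_not_colb {G : SimpleGraph V} {U : Finset V} {c : ℕ} (hc : 0 < c)
    (h : ¬ Colb G U c) : c < U.card := by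
  by_contra hcon
  push Not at hcon
  exact h (colb_card hc hcon)

/-- adding the vertices of `R` (at most `a`) to a colourable set -/
theorem colb_add {G : SimpleGraph V} {U R : Finset V} {c a : ℕ} (h : Colb G (U \ R) c)
    (hc : 0 < c) (hR : R.card ≤ a) : Colb G U (c + a) :=
  colb_add_aux h hR

end Pool.MP_a862e4_co.LS
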