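import Pool.Agent.W_a862e4_ls.Main

/-!
The final theorem in terms of the chromatic number.
-/

set_option autoImplicit false
set_option linter.unusedSectionVars false

namespace Pool.MP_a862e4_co.LS

open Pool.MP_4929df_co.H91 Pool.MP_a862e4_co.H18
open scoped Classical

variable {V : Type*} [Fintype V]

/-- every finite graph with chromatic number at least `2 ^ 50 p` has a `p`-scheme -/
theorem final (G : SimpleGraph V) (p k : ℕ) (hk : G.chromaticNumber = (k : ℕ∞))
    (h : 2 ^ 50 * p ≤ k) : Scheme G p := by
  rcases Nat.eq_zero_or_pos p with h0 | hp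
  · subst h0
    exact ⟨fun i => i.elim0, fun i => i.elim0, fun _ _ => ∅, fun i => i.elim0, fun i => i.elim0,
      fun i => i.elim0⟩
  · refine linear G p hp fun hcol => ?_
    obtain ⟨c, hc⟩ := hcol
    have h1 : G.Colorable (2 ^ 50 * p - 1) :=
      ⟨SimpleGraph.Coloring.mk c fun {a b} hab =>
        hc a (Finset.mem_univ a) b (Finset.mem_univ b) hab⟩
    have h2 := h1.chromaticNumber_le
    rw [hk] at h2
    have h3 : k ≤ 2 ^ 50 * p - 1 := by exact_mod_cast h2
    have h4 : 0 < 2 ^ 50 * p := Nat.mul_pos (by norm_num) hp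
    omega

end Pool.MP_a862e4_co.LS
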