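import Pool.Agent.W_a862e4_ls.Fct

/-!
Section 2 (b): permuting the colours.
-/

set_option autoImplicit false
set_option linter.unusedSectionVars false

namespace Pool.MP_a862e4_co.LS

open Pool.MP_4929df_co.H91 Pool.MP_a862e4_co.H18
open scoped Classical

variable {V : Type*} [Fintype V]

/-- Cyclic shifts.  `n = P.card`, an enumeration `π : Fin n ≃ P`; `σ_t (i) = π ((i + t) mod n)` for `t < n`; for every `j ∈ s` at
most one `t < n` has `σ_t (f j) = g j`; so the sum over `t` of the numbers of bad `j` is at most `s.card < n q` and some `t` has fewer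
than `q`. -/
theorem gn_shift {c k q : ℕ} {ι : Type*} (P : Finset (Fin c)) (hP : k ≤ P.card) (s : Finset ι)
    (f : ι → Fin k) (g : ι → Fin c) (hs : s.card < P.card * q) :
    ∃ σ : Fin k → Fin c, Function.Injective σ ∧ (∀ i, σ i ∈ P) ∧
      (s.filter (fun j => σ (f j) = g j)).card < q := by
  have hn : 0 < P.card := Nat.pos_of_ne_zero fun h => by
    rw [h, Nat.zero_mul] at hs
    exact Nat.not_lt_zero _ hs
  let e : Fin P.card ≃ P := P.equivFin.symm
  let σ : Fin P.card → Fin k → Fin c := fun t i => (e ⟨((i : ℕ) + (t : ℕ)) % P.card, Nat.mod_lt _ hn⟩ : Fin c)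
  have hmod : ∀ a b t : ℕ, a < P.card → b < P.card → (a + t) % P.card = (b + t) % P.card → a = b := by
    intro a b t ha hb h
    have h1 : a ≡ b [MOD P.card] := Nat.ModEq.add_right_cancel' t h
    exact Nat.ModEq.eq_of_lt_of_lt h1 ha hb
  have hσi : ∀ t, Function.Injective (σ t) := by
    intro t i i' h
    have h1 := Subtype.ext h
    have h2 := e.injective h1
    have h3 : ((i : ℕ) + (t : ℕ)) % P.card = ((i' : ℕ) + (t : ℕ)) % P.card := by
      simpa using congrArg Fin.val h2
    exact Fin.ext (hmod _ _ _ (lt_of_lt_of_le i.2 hP) (lt_of_lt_of_le i'.2 hP) h3)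
  have hσP : ∀ t i, σ t i ∈ P := fun t i => (e _).2
  have hone : ∀ j ∈ s, (Finset.univ.filter (fun t : Fin P.card => σ t (f j) = g j)).card ≤ 1 := by
    intro j _
    rw [Finset.card_le_one]
    intro t ht t' ht'
    rw [Finset.mem_filter] at ht ht'
    have h0 : σ t (f j) = σ t' (f j) := ht.2.trans ht'.2.symm
    have h1 := Subtype.ext h0
    have h2 := e.injective h1
    have h3 : (((f j : ℕ)) + (t : ℕ)) % P.card = (((f j : ℕ)) + (t' : ℕ)) % P.card := by
      simpa using congrArg Fin.val h2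
    rw [Nat.add_comm _ (t : ℕ), Nat.add_comm _ (t' : ℕ)] at h3
    exact Fin.ext (hmod _ _ _ t.2 t'.2 h3)
  by_contra hcon
  push Not at hcon
  have h1 : ∀ t : Fin P.card, q ≤ (s.filter (fun j => σ t (f j) = g j)).card :=
    fun t => hcon (σ t) (hσi t) (hσP t)
  have h2 : P.card * q ≤ ∑ t : Fin P.card, (s.filter (fun j => σ t (f j) = g j)).card := by
    have := Finset.card_nsmul_le_sum (Finset.univ : Finset (Fin P.card))
      (fun t => (s.filter (fun j => σ t (f j) = g j)).card) q (fun t _ => h1 t)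
    simpa using this
  have h3 : ∑ t : Fin P.card, (s.filter (fun j => σ t (f j) = g j)).card =
      ∑ j ∈ s, (Finset.univ.filter (fun t : Fin P.card => σ t (f j) = g j)).card := by
    simp only [Finset.card_filter]
    exact Finset.sum_comm
  have h4 : ∑ j ∈ s, (Finset.univ.filter (fun t : Fin P.card => σ t (f j) = g j)).card ≤
      s.card := by
    calc _ ≤ ∑ _j ∈ s, 1 := Finset.sum_le_sum hone
      _ = s.card := by simp
  omega

/-- Section 2 (b).  `I = X \ X'` (`X'` the filter): `|I| ≤ 2 m`.  `φ` a `c`-colouring of `W \ X'` (`hcrit`; `X'` is nonempty), `ψ` a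
`(c - 4 m)`-colouring of `X'`, `P` the colours not used by `φ` on `I`, `|P| ≥ c - 2 m ≥ 6 m`; `gn_shift` with `s` the set of pairs `(u, x)`,
`u ∈ X'`, `x ∈ W \ X` adjacent (at most `2 m ^ 2 < 6 m * m` pairs), `q = m`, `f (u, x) = ψ u`, `g (u, x) = φ x`.  `F` the set of first
entries of the bad pairs, `|F| < m`; there are at least `2 m` colours in `P` outside the image of `σ`; choose greedily an injective
assignment of such colours to the vertices of `F` avoiding the fewer than `m` colours `φ x` of the neighbours `x ∈ W \ X` (induction on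
`F`, or Hall).  The result is a proper `c`-colouring of `W`. -/
theorem gn_colour {G : SimpleGraph V} {W X : Finset V} {m c : ℕ} (hm : 0 < m) (hc : 8 * m ≤ c)
    (hX : X ⊆ W) (hcrit : ∀ W', W' ⊂ W → Colb G W' c) (hW : ¬ Colb G W c)
    (hw : wt G m W X ≤ 2 * m ^ 2)
    (hne : (X.filter (fun u => oo G W X u < m)).Nonempty) :
    ¬ Colb G (X.filter (fun u => oo G W X u < m)) (c - 4 * m) := by
  rintro ⟨ψ, hψ⟩
  set X' := X.filter (fun u => oo G W X u < m) with hX'
  have hX'X : X' ⊆ X := Finset.filter_subset _ _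
  have hX'W : X' ⊆ W := hX'X.trans hX
  obtain ⟨φ, hφ⟩ : Colb G (W \ X') c := by
    apply hcrit
    refine ⟨Finset.sdiff_subset, fun hsub => ?_⟩
    obtain ⟨u, hu⟩ := hne
    exact (Finset.mem_sdiff.1 (hsub (hX'W hu))).2 hu
  apply hW
  -- the set of heavy vertices
  have hwsum : ∑ u ∈ X', min m (oo G W X u) + ∑ u ∈ X \ X', min m (oo G W X u) = wt G m W X := by
    rw [wt, add_comm]
    exact Finset.sum_sdiff hX'X
  have hI : ∀ u ∈ X \ X', min m (oo G W X u) = m := by
    intro u hu
    rw [Finset.mem_sdiff] at hu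
    have h1 : ¬ oo G W X u < m := fun h => hu.2 (Finset.mem_filter.2 ⟨hu.1, h⟩)
    exact min_eq_left (not_lt.1 h1)
  have hIc : (X \ X').card ≤ 2 * m := by
    have h1 : ∑ u ∈ X \ X', min m (oo G W X u) = (X \ X').card * m := by
      rw [Finset.sum_congr rfl hI]
      simp
    have h2 : (X \ X').card * m ≤ 2 * m * m := by
      have : 2 * m * m = 2 * m ^ 2 := by ring
      omega
    exact Nat.le_of_mul_le_mul_right h2 hm
  set P : Finset (Fin c) := Finset.univ \ (X \ X').image φ with hP
  have hPc : c - 2 * m ≤ P.card := by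
    have h1 : Finset.univ.card - ((X \ X').image φ).card ≤ P.card := Finset.le_card_sdiff _ _
    have h2 : ((X \ X').image φ).card ≤ (X \ X').card := Finset.card_image_le
    rw [Finset.card_univ, Fintype.card_fin] at h1
    omega
  -- the pairs
  set s : Finset (V × V) := (X' ×ˢ (W \ X)).filter (fun p => G.Adj p.1 p.2) with hs
  have hsc : s.card = ∑ u ∈ X', oo G W X u := by
    rw [hs, Finset.card_filter, Finset.sum_product]
    refine Finset.sum_congr rfl fun u _ => ?_
    rw [oo, nb, Finset.card_filter]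
  have hsc2 : s.card ≤ 2 * m ^ 2 := by
    have h1 : ∑ u ∈ X', oo G W X u = ∑ u ∈ X', min m (oo G W X u) := by
      refine Finset.sum_congr rfl fun u hu => ?_
      exact (min_eq_right (Finset.mem_filter.1 hu).2.le).symm
    rw [hsc, h1]
    omega
  have hlt : s.card < P.card * m := by
    have h1 : 6 * m * m ≤ P.card * m := Nat.mul_le_mul_right _ (by omega)
    have h2 : 0 < m * m := Nat.mul_pos hm hm
    have h3 : 6 * m * m = 6 * (m * m) := by ring
    have h4 : 2 * m ^ 2 = 2 * (m * m) := by ring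
    omega
  obtain ⟨σ, hσi, hσP, hbad⟩ := gn_shift (k := c - 4 * m) P (by omega) s
    (fun p => ψ p.1) (fun p => φ p.2) hlt
  set F : Finset V := (s.filter (fun p => σ (ψ p.1) = φ p.2)).image Prod.fst with hF
  have hFc : F.card < m := lt_of_le_of_lt Finset.card_image_le hbad
  -- free colours
  set Q : Finset (Fin c) := P \ Finset.univ.image σ with hQ
  have hQc : 2 * m ≤ Q.card := by
    have h1 : P.card - (Finset.univ.image σ).card ≤ Q.card := Finset.le_card_sdiff _ _
    have h2 : (Finset.univ.image σ).card ≤ c - 4 * m := by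
      refine Finset.card_image_le.trans ?_
      simp
    omega
  have hall : ∃ τ : {x // x ∈ F} → Fin c, Function.Injective τ ∧
      ∀ u : {x // x ∈ F}, τ u ∈ Q \ (nb G (W \ X) (u : V)).image φ := by
    rw [← Finset.all_card_le_biUnion_card_iff_exists_injective
      (fun u : {x // x ∈ F} => Q \ (nb G (W \ X) (u : V)).image φ)]
    intro A
    rcases A.eq_empty_or_nonempty with hA | ⟨u, hu⟩
    · simp [hA]
    · have h1 : A.card ≤ F.card := by
        have := Finset.card_le_univ A
        simpa using this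
      have huX : (u : V) ∈ X' := by
        obtain ⟨p, hp, hpu⟩ := Finset.mem_image.1 (show (u : V) ∈
          (s.filter (fun p => σ (ψ p.1) = φ p.2)).image Prod.fst from u.2)
        rw [← hpu]
        rw [Finset.mem_filter, hs, Finset.mem_filter, Finset.mem_product] at hp
        exact hp.1.1.1
      have h3 : (nb G (W \ X) (u : V)).card < m := (Finset.mem_filter.1 huX).2
      have h4 : ((nb G (W \ X) (u : V)).image φ).card ≤ (nb G (W \ X) (u : V)).card :=
        Finset.card_image_le
      have h5 : Q.card - ((nb G (W \ X) (u : V)).image φ).card ≤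
          (Q \ (nb G (W \ X) (u : V)).image φ).card := Finset.le_card_sdiff _ _
      have h6 : (Q \ (nb G (W \ X) (u : V)).image φ).card ≤
          (A.biUnion fun u => Q \ (nb G (W \ X) (u : V)).image φ).card :=
        Finset.card_le_card
          (Finset.subset_biUnion_of_mem (fun u : {x // x ∈ F} =>
            Q \ (nb G (W \ X) (u : V)).image φ) hu)
      omega
  obtain ⟨τ, hτi, hτ⟩ := hall
  have hτP : ∀ u, τ u ∈ P := fun u =>
    (Finset.mem_sdiff.1 (Finset.mem_sdiff.1 (hτ u)).1).1
  have hτσ : ∀ u i, τ u ≠ σ i := fun u i h =>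
    (Finset.mem_sdiff.1 (Finset.mem_sdiff.1 (hτ u)).1).2
      (by rw [h]; exact Finset.mem_image_of_mem _ (Finset.mem_univ _))
  have hτφ : ∀ u : {x // x ∈ F}, ∀ x ∈ nb G (W \ X) (u : V), τ u ≠ φ x := fun u x hx h =>
    (Finset.mem_sdiff.1 (hτ u)).2 (by rw [h]; exact Finset.mem_image_of_mem _ hx)
  -- the colouring
  let χ : V → Fin c := fun u =>
    if u ∈ X' then (if h : u ∈ F then τ ⟨u, h⟩ else σ (ψ u)) else φ u
  have hχF : ∀ u ∈ X', ∀ h : u ∈ F, χ u = τ ⟨u, h⟩ := by
    intro u hu h
    simp only [χ]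
    rw [if_pos hu, dif_pos h]
  have hχn : ∀ u ∈ X', u ∉ F → χ u = σ (ψ u) := by
    intro u hu h
    simp only [χ]
    rw [if_pos hu, dif_neg h]
  have hχo : ∀ u, u ∉ X' → χ u = φ u := by
    intro u hu
    simp only [χ]
    rw [if_neg hu]
  have hχP : ∀ u ∈ X', χ u ∈ P := by
    intro u hu
    by_cases h : u ∈ F
    · rw [hχF u hu h]
      exact hτP _
    · rw [hχn u hu h]
      exact hσP _
  -- mixed pairs
  have hmix : ∀ x ∈ W, ∀ y ∈ W, x ∈ X' → y ∉ X' → G.Adj x y → χ x ≠ χ y := by
    intro x hx y hy hxX hyX hxy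
    rw [hχo y hyX]
    by_cases hyX2 : y ∈ X
    · intro h
      have h1 := hχP x hxX
      rw [h, hP, Finset.mem_sdiff] at h1
      exact h1.2 (Finset.mem_image_of_mem _ (Finset.mem_sdiff.2 ⟨hyX2, hyX⟩))
    · by_cases h : x ∈ F
      · rw [hχF x hxX h]
        exact hτφ ⟨x, h⟩ y (mem_nbf.2 ⟨Finset.mem_sdiff.2 ⟨hy, hyX2⟩, hxy⟩)
      · rw [hχn x hxX h]
        intro h2
        apply h
        rw [hF, Finset.mem_image]
        refine ⟨(x, y), ?_, rfl⟩
        rw [Finset.mem_filter, hs, Finset.mem_filter, Finset.mem_product]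
        exact ⟨⟨⟨hxX, Finset.mem_sdiff.2 ⟨hy, hyX2⟩⟩, hxy⟩, h2⟩
  refine ⟨χ, fun x hx y hy hxy => ?_⟩
  by_cases hxX : x ∈ X'
  · by_cases hyX : y ∈ X'
    · by_cases hxF : x ∈ F
      · by_cases hyF : y ∈ F
        · rw [hχF x hxX hxF, hχF y hyX hyF]
          intro h
          have h1 := congrArg Subtype.val (hτi h)
          exact hxy.ne h1
        · rw [hχF x hxX hxF, hχn y hyX hyF]
          exact hτσ _ _
      · by_cases hyF : y ∈ F
        · rw [hχn x hxX hxF, hχF y hyX hyF]
          exact (hτσ _ _).symm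
        · rw [hχn x hxX hxF, hχn y hyX hyF]
          intro h
          exact hψ x hxX y hyX hxy (hσi h)
    · exact hmix x hx y hy hxX hyX hxy
  · by_cases hyX : y ∈ X'
    · exact (hmix y hy x hx hyX hxX hxy.symm).symm
    · rw [hχo x hxX, hχo y hyX]
      exact hφ x (Finset.mem_sdiff.2 ⟨hx, hxX⟩) y (Finset.mem_sdiff.2 ⟨hy, hyX⟩) hxy

end Pool.MP_a862e4_co.LS
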