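import Pool.Agent.W_a862e4_ls.GnA

/-!
Section 2 (c): the theorem (GN).
-/

set_option autoImplicit false
set_option linter.unusedSectionVars false

namespace Pool.MP_a862e4_co.LS

open Pool.MP_4929df_co.H91 Pool.MP_a862e4_co.H18
open scoped Classical

variable {V : Type*} [Fintype V]

private theorem GnB_oo {G : SimpleGraph V} {W X A B : Finset V} (hX : X ⊆ W) (hs : Sep G X A B)
    (u : V) : oo G W A u = oo G W X u + (nb G (B \ A) u).card := by
  have hAB := hs.1
  unfold oo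
  have hdis : Disjoint (nb G (W \ X) u) (nb G (B \ A) u) := by
    rw [Finset.disjoint_left]
    intro w h1 h2
    rw [mem_nbf, Finset.mem_sdiff] at h1 h2
    exact h1.1.2 (by rw [← hAB]; exact Finset.mem_union_right _ h2.1.1)
  rw [← Finset.card_union_of_disjoint hdis]
  congr 1
  ext w
  simp only [Finset.mem_union, mem_nbf, Finset.mem_sdiff]
  constructor
  · rintro ⟨⟨h1, h2⟩, h3⟩
    by_cases h4 : w ∈ X
    · right
      rw [← hAB, Finset.mem_union] at h4
      exact ⟨⟨h4.resolve_left h2, h2⟩, h3⟩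
    · left
      exact ⟨⟨h1, h4⟩, h3⟩
  · rintro (⟨⟨h1, h2⟩, h3⟩ | ⟨⟨h1, h2⟩, h3⟩)
    · exact ⟨⟨h1, fun h4 => h2 (by rw [← hAB]; exact Finset.mem_union_left _ h4)⟩, h3⟩
    · exact ⟨⟨hX (by rw [← hAB]; exact Finset.mem_union_right _ h1), h2⟩, h3⟩

/-- sides of a separation: for `u ∈ A \ B` the number `oo` is the same for `A` and `X`, for `u ∈ A ∩ B` it grows by the number of neighbours in
`B \ A`. -/
theorem gn_oo {G : SimpleGraph V} {W X A B : Finset V} (hX : X ⊆ W) (hs : Sep G X A B) :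
    (∀ u ∈ A, u ∉ B → oo G W A u = oo G W X u) ∧
      ∀ u ∈ A, u ∈ B → oo G W A u = oo G W X u + (nb G (B \ A) u).card := by
  refine ⟨fun u hu hu' => ?_, fun u _ _ => GnB_oo hX hs u⟩
  rw [GnB_oo hX hs u]
  have h0 : nb G (B \ A) u = ∅ := by
    rw [Finset.eq_empty_iff_forall_notMem]
    intro w hw
    rw [mem_nbf, Finset.mem_sdiff] at hw
    exact hs.2 u hu hu' w hw.1.1 hw.1.2 hw.2
  rw [h0, Finset.card_empty, add_zero]

private theorem GnB_symm {G : SimpleGraph V} {X A B : Finset V} (hs : Sep G X A B) : Sep G X B A :=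
  ⟨by rw [Finset.union_comm]; exact hs.1, fun b hb hb' a ha ha' h => hs.2 a ha ha' b hb hb' h.symm⟩

private theorem GnB_small {G : SimpleGraph V} {W A : Finset V} {m : ℕ} (hm : 0 < m)
    (hw : wt G m W A ≤ 2 * m ^ 2) (h : ∀ u ∈ A, m ≤ oo G W A u) : A.card ≤ 2 * m := by
  have h1 : wt G m W A = A.card * m := by
    unfold wt
    rw [Finset.sum_congr rfl fun u hu => min_eq_left (h u hu), Finset.sum_const, smul_eq_mul]
  rw [h1] at hw
  have h2 : A.card * m ≤ (2 * m) * m := by nlinarith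
  exact Nat.le_of_mul_le_mul_right h2 hm

private theorem GnB_key {G : SimpleGraph V} {W X A B : Finset V} {m : ℕ} (hm : 0 < m) (hX : X ⊆ W)
    (hw : wt G m W X ≤ 2 * m ^ 2)
    (hmin : ∀ Y ⊆ X, Y ≠ X → wt G m W Y ≤ 2 * m ^ 2 → ∀ u ∈ Y, m ≤ oo G W Y u)
    (hs : Sep G X A B) (hc : (A ∩ B).card < m) (hA : ¬ A ⊆ B) (hB : ¬ B ⊆ A)
    (hS : ∑ u ∈ A \ B, min m (oo G W X u) ≤ m ^ 2) : X.card ≤ 4 * m := by
  have hAX : A ⊆ X := by rw [← hs.1]; exact Finset.subset_union_left
  have hBX : B ⊆ X := by rw [← hs.1]; exact Finset.subset_union_right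
  have hAne : A ≠ X := by
    rintro rfl
    exact hB hBX
  have hBne : B ≠ X := by
    rintro rfl
    exact hA hAX
  obtain ⟨o1, o2⟩ := gn_oo hX hs
  obtain ⟨p1, p2⟩ := gn_oo hX (GnB_symm hs)
  -- the side `A`
  have hwA : wt G m W A ≤ 2 * m ^ 2 := by
    unfold wt
    rw [← Finset.sum_sdiff (Finset.inter_subset_left : A ∩ B ⊆ A), Finset.sdiff_inter_self_left]
    have h1 : ∑ u ∈ A \ B, min m (oo G W A u) = ∑ u ∈ A \ B, min m (oo G W X u) :=
      Finset.sum_congr rfl fun u hu => by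
        rw [Finset.mem_sdiff] at hu
        rw [o1 u hu.1 hu.2]
    have h2 : ∑ u ∈ A ∩ B, min m (oo G W A u) ≤ (A ∩ B).card * m := by
      rw [← smul_eq_mul]
      exact Finset.sum_le_card_nsmul _ _ _ fun u _ => min_le_left _ _
    have h3 : (A ∩ B).card * m ≤ m * m := Nat.mul_le_mul_right _ hc.le
    rw [h1]
    nlinarith
  have hA2 := hmin A hAX hAne hwA
  have hAc := GnB_small hm hwA hA2
  -- the side `B`
  have hwX : wt G m W X = ∑ u ∈ A \ B, min m (oo G W X u) + ∑ u ∈ B, min m (oo G W X u) := by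
    unfold wt
    rw [← Finset.sum_sdiff hBX]
    congr 1
    refine Finset.sum_congr ?_ fun _ _ => rfl
    ext u
    rw [Finset.mem_sdiff, Finset.mem_sdiff, ← hs.1, Finset.mem_union]
    tauto
  have hSA : ∑ u ∈ A \ B, min m (oo G W X u) = (A \ B).card * m := by
    rw [Finset.sum_congr rfl fun u hu => ?_, Finset.sum_const, smul_eq_mul]
    rw [Finset.mem_sdiff] at hu
    have := hA2 u hu.1
    rw [o1 u hu.1 hu.2] at this
    exact min_eq_left this
  have hwB : wt G m W B ≤ ∑ u ∈ B, min m (oo G W X u) + (A ∩ B).card * (A \ B).card := by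
    have h1 : ∀ u ∈ B, min m (oo G W B u) ≤
        min m (oo G W X u) + if u ∈ A ∩ B then (A \ B).card else 0 := by
      intro u hu
      by_cases hu' : u ∈ A
      · rw [if_pos (Finset.mem_inter.2 ⟨hu', hu⟩), p2 u hu hu']
        have h2 : (nb G (A \ B) u).card ≤ (A \ B).card :=
          Finset.card_le_card fun w hw => (mem_nbf.1 hw).1
        omega
      · rw [p1 u hu hu']
        exact Nat.le_add_right _ _
    have h3 := Finset.sum_le_sum h1
    rw [Finset.sum_add_distrib, Finset.sum_ite_mem, Finset.sum_const, smul_eq_mul] at h3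
    have h4 : B ∩ (A ∩ B) = A ∩ B := Finset.inter_eq_right.2 Finset.inter_subset_right
    rw [h4] at h3
    exact h3
  have hwB' : wt G m W B ≤ 2 * m ^ 2 := by
    have h1 : (A ∩ B).card * (A \ B).card ≤ m * (A \ B).card := Nat.mul_le_mul_right _ hc.le
    have h2 : m * (A \ B).card = (A \ B).card * m := Nat.mul_comm _ _
    omega
  have hBc := GnB_small hm hwB' (hmin B hBX hBne hwB')
  have h5 : X.card ≤ A.card + B.card := by
    rw [← hs.1]
    exact Finset.card_union_le _ _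
  omega

/-- **(GN)**  Section 2 (c): `W` from `exists_critical`, `X ⊆ W` of minimal cardinality with `wt G m W X ≤ 2 m ^ 2` and
`(X.filter (oo < m)).Nonempty`; `gn_colour`, `colb_mono`; the separation argument of the page with `gn_oo`. -/
theorem gn {G : SimpleGraph V} {U : Finset V} {m c : ℕ} (hm : 0 < m) (hc : 8 * m ≤ c)
    (h : ¬ Colb G U c) : ∃ X ⊆ U, Mc G m X ∧ ¬ Colb G X (c - 4 * m) := by
  have hc0 : 0 < c := by omega
  obtain ⟨W, hWU, hW, hcrit, -, hdeg⟩ := exists_critical hc0 h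
  obtain ⟨S, hS⟩ : ∃ S : Finset (Finset V), S = W.powerset.filter fun X =>
      wt G m W X ≤ 2 * m ^ 2 ∧ (X.filter (fun u => oo G W X u < m)).Nonempty := ⟨_, rfl⟩
  have hmem : ∀ X, X ∈ S ↔ X ⊆ W ∧ wt G m W X ≤ 2 * m ^ 2 ∧
      (X.filter (fun u => oo G W X u < m)).Nonempty := by
    intro X
    rw [hS, Finset.mem_filter, Finset.mem_powerset]
  have h0 : ∀ u, oo G W W u = 0 := by
    intro u
    unfold oo
    rw [Finset.card_eq_zero, Finset.eq_empty_iff_forall_notMem]
    intro w hw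
    rw [mem_nbf, Finset.sdiff_self] at hw
    exact absurd hw.1 (Finset.notMem_empty _)
  have hWS : W ∈ S := by
    rw [hmem]
    refine ⟨Finset.Subset.refl _, ?_, ?_⟩
    · unfold wt
      rw [Finset.sum_eq_zero fun u _ => by rw [h0 u]; exact Nat.min_zero m]
      exact Nat.zero_le _
    · have h1 := card_of_not_colb hc0 hW
      obtain ⟨u, hu⟩ : W.Nonempty := Finset.card_pos.1 (by omega)
      exact ⟨u, Finset.mem_filter.2 ⟨hu, by rw [h0 u]; exact hm⟩⟩
  obtain ⟨X, hXS, hXmin⟩ := Finset.exists_min_image S Finset.card ⟨W, hWS⟩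
  obtain ⟨hXW, hwX, hne⟩ := (hmem X).1 hXS
  have hcol := gn_colour hm hc hXW hcrit hW hwX hne
  refine ⟨X, hXW.trans hWU, ?_, fun h1 => hcol (colb_mono h1 (Finset.filter_subset _ _) le_rfl)⟩
  -- the cardinality of `X`
  have hbig : 7 * m < X.card := by
    obtain ⟨u, hu⟩ := hne
    rw [Finset.mem_filter] at hu
    have h1 := hdeg u (hXW hu.1)
    have h2 : nb G W u ⊆ nb G (W \ X) u ∪ X := by
      intro w hw
      rw [mem_nbf] at hw
      by_cases hwX : w ∈ X
      · exact Finset.mem_union_right _ hwX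
      · exact Finset.mem_union_left _ (mem_nbf.2 ⟨Finset.mem_sdiff.2 ⟨hw.1, hwX⟩, hw.2⟩)
    have h3 := (Finset.card_le_card h2).trans (Finset.card_union_le _ _)
    have h4 : (nb G (W \ X) u).card < m := hu.2
    omega
  have hmin : ∀ Y ⊆ X, Y ≠ X → wt G m W Y ≤ 2 * m ^ 2 → ∀ u ∈ Y, m ≤ oo G W Y u := by
    intro Y hY hYne hwY u hu
    by_contra hlt
    have hYS : Y ∈ S := (hmem Y).2 ⟨hY.trans hXW, hwY, ⟨u, Finset.mem_filter.2 ⟨hu, not_le.1 hlt⟩⟩⟩
    have h1 := hXmin Y hYS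
    exact hYne (Finset.eq_of_subset_of_card_le hY h1)
  refine ⟨by omega, fun A B hs hAB => ?_⟩
  by_contra hcon
  push Not at hcon
  obtain ⟨hA, hB⟩ := hcon
  have hsum : ∑ u ∈ A \ B, min m (oo G W X u) + ∑ u ∈ B \ A, min m (oo G W X u) ≤ 2 * m ^ 2 := by
    refine le_trans ?_ hwX
    have hdis : Disjoint (A \ B) (B \ A) := by
      rw [Finset.disjoint_left]
      intro u h1 h2
      rw [Finset.mem_sdiff] at h1 h2
      exact h1.2 h2.1
    rw [← Finset.sum_union hdis]
    unfold wt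
    refine Finset.sum_le_sum_of_subset ?_
    intro u hu
    rw [← hs.1]
    rw [Finset.mem_union, Finset.mem_sdiff, Finset.mem_sdiff] at hu
    rw [Finset.mem_union]
    tauto
  rcases Nat.lt_or_ge (m ^ 2) (∑ u ∈ A \ B, min m (oo G W X u)) with h1 | h1
  · have h2 : ∑ u ∈ B \ A, min m (oo G W X u) ≤ m ^ 2 := by omega
    have h3 := GnB_key hm hXW hwX hmin (GnB_symm hs) (by rwa [Finset.inter_comm]) hB hA h2
    omega
  · have h3 := GnB_key hm hXW hwX hmin hs hAB hA hB h1
    omega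

end Pool.MP_a862e4_co.LS
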