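import Pool.Agent.W_a862e4_ls.Route

/-!
Section 4 (INS): states, the routing step.
-/

set_option autoImplicit false
set_option linter.unusedSectionVars false

namespace Pool.MP_a862e4_co.LS

open Pool.MP_4929df_co.H91 Pool.MP_a862e4_co.H18
open scoped Classical

variable {V : Type*} [Fintype V]

/-- the state after the pairs `P` have been joined: rails `W x`, marks `T x`, ends `e x` in the current set `D` -/
structure St (G : SimpleGraph V) (U R : Finset V) (P : Finset (V × V)) (D : Finset V)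
    (W T : V → Finset V) (e : V → V) : Prop where
  DU : D ⊆ U
  sub : ∀ x ∈ R, W x ⊆ U
  cn : ∀ x ∈ R, Cn G (W x : Set V)
  dj : ∀ x ∈ R, ∀ y ∈ R, x ≠ y → Disjoint (W x) (W y)
  root : ∀ x ∈ R, x ∈ T x
  TW : ∀ x ∈ R, T x ⊆ W x
  end_ : ∀ x ∈ R, e x ∈ W x ∧ e x ∈ D ∧ ∀ w ∈ W x, w ∈ D → w = e x
  adj : ∀ p ∈ P, p.1 ∈ R → p.2 ∈ R → p.1 ≠ p.2 → ∃ u ∈ T p.1, ∃ w ∈ T p.2, G.Adj u w
  cnt : ∑ x ∈ R, (T x).card ≤ R.card + 2 * P.card

/-- the initial state: `W x = T x = {x}`, `e x = x`, `D = U`, `P = ∅` -/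
theorem St.init {G : SimpleGraph V} {U R : Finset V} (hR : R ⊆ U) :
    St G U R ∅ U (fun x => {x}) (fun x => {x}) (fun x => x) := by
  refine ⟨Finset.Subset.refl _, fun x hx => ?_, fun x _ => ?_, fun x _ y _ hxy => ?_, fun x _ => ?_,
    fun x _ => Finset.Subset.refl _, fun x hx => ⟨?_, hR hx, fun w hw _ => ?_⟩, fun p hp => ?_, ?_⟩
  · exact Finset.singleton_subset_iff.2 (hR hx)
  · rw [Finset.coe_singleton]
    exact cn_singleton G x
  · exact Finset.disjoint_singleton.2 hxy
  · exact Finset.mem_singleton_self x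
  · exact Finset.mem_singleton_self x
  · exact Finset.mem_singleton.1 hw
  · exact absurd hp (Finset.notMem_empty p)
  · simp

/-- when all pairs are joined: `B x = W x`, `C = W x ∪ W y` (`Cn.union_adj`) -/
theorem St.rs {G : SimpleGraph V} {U R : Finset V} {D : Finset V} {W T : V → Finset V} {e : V → V}
    (h : St G U R (R ×ˢ R) D W T e) : RS G U R := by
  refine ⟨fun x => (W x : Set V), fun x hx => ⟨?_, ?_⟩, fun x hx y hy hxy => ?_,
    fun x hx y hy hxy => ?_⟩
  · exact Finset.mem_coe.2 (h.TW x hx (h.root x hx))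
  · exact Finset.coe_subset.2 (h.sub x hx)
  · exact Finset.disjoint_coe.2 (h.dj x hx y hy hxy)
  · obtain ⟨u, hu, w, hw, huw⟩ := h.adj (x, y) (Finset.mem_product.2 ⟨hx, hy⟩) hx hy hxy
    refine ⟨(W x : Set V) ∪ (W y : Set V), ?_, subset_rfl,
      Or.inl (Finset.mem_coe.2 (h.TW x hx (h.root x hx))),
      Or.inr (Finset.mem_coe.2 (h.TW y hy (h.root y hy)))⟩
    exact (h.cn x hx).union_adj (h.cn y hy) (Finset.mem_coe.2 (h.TW x hx hu))
      (Finset.mem_coe.2 (h.TW y hy hw)) huw

/-- the new state -/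
private theorem InsA_gen {G : SimpleGraph V} {U R : Finset V} {P P' : Finset (V × V)} {D Z : Finset V}
    {W T T' K E : V → Finset V} {e e' : V → V} (h : St G U R P D W T e) (hZ : Z ⊆ D)
    (hK : ∀ z ∈ R, K z ⊆ D ∧ Cn G (K z : Set V) ∧ e z ∈ K z ∧ e' z ∈ K z ∧ e' z ∈ Z ∧
      ∀ w ∈ K z, w ∈ Z → w = e' z)
    (hE : ∀ z ∈ R, E z ⊆ D ∧ (E z = ∅ ∨ (Cn G (E z : Set V) ∧ ∃ w ∈ E z, G.Adj (e z) w)) ∧
      ∀ w ∈ E z, w ∉ Z)
    (hKK : ∀ z ∈ R, ∀ z' ∈ R, z ≠ z' → Disjoint (K z) (K z'))
    (hEE : ∀ z ∈ R, ∀ z' ∈ R, z ≠ z' → Disjoint (E z) (E z'))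
    (hKE : ∀ z ∈ R, ∀ z' ∈ R, Disjoint (K z) (E z'))
    (hT : ∀ z ∈ R, T z ⊆ T' z) (hT' : ∀ z ∈ R, T' z ⊆ W z ∪ K z ∪ E z)
    (hadj : ∀ p ∈ P', p.1 ∈ R → p.2 ∈ R → p.1 ≠ p.2 → ∃ u ∈ T' p.1, ∃ w ∈ T' p.2, G.Adj u w)
    (hcnt : ∑ x ∈ R, (T' x).card ≤ R.card + 2 * P'.card) :
    St G U R P' Z (fun z => W z ∪ K z ∪ E z) T' e' := by
  -- `W z` meets a subset of `D` disjoint from `e z` trivially
  have hWD : ∀ z ∈ R, ∀ S : Finset V, S ⊆ D → e z ∉ S → Disjoint (W z) S := by
    intro z hz S hS he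
    rw [Finset.disjoint_left]
    intro w hw hwS
    rw [(h.end_ z hz).2.2 w hw (hS hwS)] at hwS
    exact he hwS
  refine ⟨hZ.trans h.DU, fun z hz => ?_, fun z hz => ?_, fun z hz z' hz' hne => ?_, fun z hz => ?_,
    hT', fun z hz => ?_, hadj, hcnt⟩
  · refine Finset.union_subset (Finset.union_subset (h.sub z hz) ?_) ?_
    · exact (hK z hz).1.trans h.DU
    · exact (hE z hz).1.trans h.DU
  · have h1 : Cn G ((W z ∪ K z : Finset V) : Set V) := by
      rw [Finset.coe_union]
      exact (h.cn z hz).union (hK z hz).2.1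
        ⟨e z, Finset.mem_coe.2 (h.end_ z hz).1, Finset.mem_coe.2 (hK z hz).2.2.1⟩
    rcases (hE z hz).2.1 with h2 | ⟨h2, w, hw, hadj'⟩
    · show Cn G ((W z ∪ K z ∪ E z : Finset V) : Set V)
      rw [h2, Finset.union_empty]
      exact h1
    · show Cn G ((W z ∪ K z ∪ E z : Finset V) : Set V)
      rw [Finset.coe_union]
      exact h1.union_adj h2 (Finset.mem_coe.2 (Finset.mem_union_left _ (h.end_ z hz).1))
        (Finset.mem_coe.2 hw) hadj'
  · have hKz := hK z hz
    have hKz' := hK z' hz'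
    have e1 : e z ∉ K z' := fun h1 => (Finset.disjoint_left.1 (hKK z hz z' hz' hne)) hKz.2.2.1 h1
    have e2 : e z ∉ E z' := fun h1 => (Finset.disjoint_left.1 (hKE z hz z' hz')) hKz.2.2.1 h1
    have e3 : e z' ∉ K z := fun h1 => (Finset.disjoint_left.1 (hKK z hz z' hz' hne)) h1 hKz'.2.2.1
    have e4 : e z' ∉ E z := fun h1 => (Finset.disjoint_left.1 (hKE z' hz' z hz)) hKz'.2.2.1 h1
    have d1 := h.dj z hz z' hz' hne
    have d2 := hWD z hz (K z') hKz'.1 e1
    have d3 := hWD z hz (E z') (hE z' hz').1 e2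
    have d4 := (hWD z' hz' (K z) hKz.1 e3).symm
    have d5 := (hWD z' hz' (E z) (hE z hz).1 e4).symm
    have d6 := hKK z hz z' hz' hne
    have d7 := hKE z hz z' hz'
    have d8 := (hKE z' hz' z hz).symm
    have d9 := hEE z hz z' hz' hne
    show Disjoint (W z ∪ K z ∪ E z) (W z' ∪ K z' ∪ E z')
    refine Finset.disjoint_union_left.2 ⟨Finset.disjoint_union_left.2 ⟨?_, ?_⟩, ?_⟩
    · exact Finset.disjoint_union_right.2 ⟨Finset.disjoint_union_right.2 ⟨d1, d2⟩, d3⟩
    · exact Finset.disjoint_union_right.2 ⟨Finset.disjoint_union_right.2 ⟨d4, d6⟩, d7⟩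
    · exact Finset.disjoint_union_right.2 ⟨Finset.disjoint_union_right.2 ⟨d5, d8⟩, d9⟩
  · exact hT z hz (h.root z hz)
  · obtain ⟨h1, h2, h3, h4, h5, h6⟩ := hK z hz
    refine ⟨Finset.mem_union_left _ (Finset.mem_union_right _ h4), h5, fun w hw hwZ => ?_⟩
    rcases Finset.mem_union.1 hw with hw1 | hw1
    · rcases Finset.mem_union.1 hw1 with hw2 | hw2
      · have h7 := (h.end_ z hz).2.2 w hw2 (hZ hwZ)
        refine h6 w ?_ hwZ
        rw [h7]
        exact h3
      · exact h6 w hw2 hwZ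
    · exact absurd hwZ ((hE z hz).2.2 w hw1)

/-- routing with extra terminals `S` -/
private theorem InsA_route {G : SimpleGraph V} {a M c : ℕ} {U R : Finset V} {P : Finset (V × V)} {D : Finset V}
    {W T : V → Finset V} {e : V → V} (ha : 0 < a) (hRa : R.card ≤ a) (hM : 2000000 * a ≤ M)
    (h : St G U R P D W T e) (hD : Mc G M D) (hc : 15000 * a + 12 * M ≤ c) (hcol : ¬ Colb G D c)
    (S : Finset V) (hS : S ⊆ D) (hSe : ∀ z ∈ R, e z ∉ S) (hSc : S.card ≤ 2) :
    ∃ (Z : Finset V) (K : V → Finset V) (X : Finset V) (e' : V → V), Z ⊆ D ∧ Mc G M Z ∧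
      ¬ Colb G Z (c - (12300 * a + 4 * M)) ∧
      (∀ z ∈ R, K z ⊆ D ∧ Cn G (K z : Set V) ∧ e z ∈ K z ∧ e' z ∈ K z ∧ e' z ∈ Z ∧
        ∀ w ∈ K z, w ∈ Z → w = e' z) ∧
      (∀ z ∈ R, ∀ z' ∈ R, z ≠ z' → Disjoint (K z) (K z')) ∧ (∀ z ∈ R, Disjoint (K z) X) ∧
      X ⊆ D ∧ (X = ∅ ∨ Cn G (X : Set V)) ∧ S ⊆ X ∧ ∀ w ∈ X, w ∉ Z := by
  have hinj : ∀ z ∈ R, ∀ z' ∈ R, e z = e z' → z = z' := by
    intro z hz z' hz' he
    by_contra hne
    have h1 := Finset.disjoint_left.1 (h.dj z hz z' hz' hne) (h.end_ z hz).1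
    rw [he] at h1
    exact h1 (h.end_ z' hz').1
  -- labels
  obtain ⟨f, hf1, hf2⟩ : ∃ f : V → ℕ, (∀ z ∈ R, f z < R.card) ∧
      ∀ z ∈ R, ∀ z' ∈ R, f z = f z' → z = z' := by
    refine ⟨fun z => if hz : z ∈ R then (R.equivFin ⟨z, hz⟩ : ℕ) else 0, fun z hz => ?_,
      fun z hz z' hz' he => ?_⟩
    · simp only [dif_pos hz]
      exact (R.equivFin ⟨z, hz⟩).2
    · simp only [dif_pos hz, dif_pos hz'] at he
      have h1 := R.equivFin.injective (Fin.ext he)
      exact congrArg Subtype.val h1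
  obtain ⟨g, hg⟩ : ∃ g : V → ℕ, g = fun v => if hv : ∃ z ∈ R, e z = v then f hv.choose else R.card :=
    ⟨_, rfl⟩
  have hg1 : ∀ z ∈ R, g (e z) = f z := by
    intro z hz
    have hv : ∃ z' ∈ R, e z' = e z := ⟨z, hz, rfl⟩
    rw [hg]
    simp only [dif_pos hv]
    rw [hinj _ hv.choose_spec.1 z hz hv.choose_spec.2]
  have hg2 : ∀ v ∈ S, g v = R.card := by
    intro v hv
    rw [hg]
    simp only
    rw [dif_neg]
    rintro ⟨z, hz, he⟩
    rw [← he] at hv
    exact hSe z hz hv
  have hYc : (R.image e ∪ S).card ≤ 3 * a := by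
    have h1 := Finset.card_union_le (R.image e) S
    have h2 := Finset.card_image_le (s := R) (f := e)
    omega
  have hYD : R.image e ∪ S ⊆ D := by
    refine Finset.union_subset (fun v hv => ?_) hS
    obtain ⟨z, hz, rfl⟩ := Finset.mem_image.1 hv
    exact (h.end_ z hz).2.1
  obtain ⟨Z, hZ, hZM, hZc, K, e', hK1, hK2, hK3, hK4, hK5, hK6⟩ :=
    route (G := G) (M := M) (M' := M) (a := R.card) (y := 3 * a) (c := c) (U := D)
      (Y := R.image e ∪ S) (by omega) (by omega) (by omega) hD (by omega) hYD hYc (by omega) hcol g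
  have hmem : ∀ i w, w ∈ Finset.univ.filter (fun w => w ∈ K i) ↔ w ∈ K i := by
    intro i w
    simp
  have hcoe : ∀ i, ((Finset.univ.filter (fun w => w ∈ K i) : Finset V) : Set V) = K i := by
    intro i
    ext w
    rw [Finset.mem_coe, hmem]
  have hsub : ∀ i, Finset.univ.filter (fun w => w ∈ K i) ⊆ D := by
    intro i w hw
    exact Finset.mem_coe.1 (hK1 i ((hmem i w).1 hw))
  have hdis : ∀ i j, i ≠ j → Disjoint (Finset.univ.filter (fun w => w ∈ K i))
      (Finset.univ.filter (fun w => w ∈ K j)) := by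
    intro i j hij
    rw [Finset.disjoint_left]
    intro w hw hw'
    exact Set.disjoint_left.1 (hK3 i j hij) ((hmem i w).1 hw) ((hmem j w).1 hw')
  refine ⟨Z, fun z => Finset.univ.filter (fun w => w ∈ K (f z)),
    Finset.univ.filter (fun w => w ∈ K R.card), fun z => e' (f z), hZ, hZM, ?_, fun z hz => ?_,
    fun z hz z' hz' hne => ?_, fun z hz => ?_, hsub _, ?_, fun v hv => ?_, fun w hw => ?_⟩
  · intro h1
    exact hZc (colb_mono h1 (Finset.Subset.refl _) (by omega))
  · obtain ⟨h1, h2, h3⟩ := hK5 (f z) (hf1 z hz)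
    have h4 : e z ∈ K (f z) := by
      have := hK4 (e z) (Finset.mem_union_left _ (Finset.mem_image_of_mem e hz))
      rwa [hg1 z hz] at this
    refine ⟨hsub _, ?_, (hmem _ _).2 h4, (hmem _ _).2 h1, h2, fun w hw hwZ => h3 w ((hmem _ _).1 hw) hwZ⟩
    rw [hcoe]
    rcases hK2 (f z) with h5 | h5
    · rw [h5] at h4
      exact absurd h4 (Set.notMem_empty _)
    · exact h5
  · exact hdis _ _ fun h1 => hne (hf2 z hz z' hz' h1)
  · exact hdis _ _ (hf1 z hz).ne
  · rcases hK2 R.card with h5 | h5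
    · left
      ext w
      rw [hmem, h5]
      simp
    · right
      rw [hcoe]
      exact h5
  · have := hK4 v (Finset.mem_union_right _ hv)
    rw [hg2 v hv] at this
    exact (hmem _ _).2 this
  · exact hK6 R.card le_rfl w ((hmem _ _).1 hw)

/-- **Routing step.**  `(x, y)` a pair of different elements of `R`.  `x' ≠ y'` in `D`, `x' ~ e x`, `y' ~ e y`, different from all `e z`
(`Mc.deg`, `M ≥ a + 2`).  `route` in `D` with `Y = e(R) ∪ {x', y'}` (at most `3 a` elements), `y := 3 a`, `a := R.card`, `M' := M`,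
labels: an injective enumeration `R → {0, …, |R| - 1}` for the `e z` (`Finset.equivFin`; `e` is injective on `R` because the `W z` are
disjoint), `|R|` for `x'` and `y'`.  New rails `W z ∪ K (label z)`, and `W x` also gets `K |R|`; new marks: `y'` in `T x`, `e y` in `T y`.
Everything is in Finset form (`Set.toFinite`/`Finset.univ.filter`).  For `x = y` or `x ∉ R` or `y ∉ R` use `route` in the same way without
the pair `x'`, `y'` (or any such variant: the marks need not change). -/
theorem St.join {G : SimpleGraph V} {a M c : ℕ} {U R : Finset V} {P : Finset (V × V)} {D : Finset V}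
    {W T : V → Finset V} {e : V → V} (ha : 0 < a) (hRa : R.card ≤ a) (hM : 2000000 * a ≤ M)
    (h : St G U R P D W T e) (hD : Mc G M D) (hc : 15000 * a + 12 * M ≤ c) (hcol : ¬ Colb G D c)
    (x y : V) :
    ∃ (D' : Finset V) (W' T' : V → Finset V) (e' : V → V),
      St G U R (insert (x, y) P) D' W' T' e' ∧ Mc G M D' ∧
        ¬ Colb G D' (c - (12300 * a + 4 * M)) := by
  by_cases hact : x ∈ R ∧ y ∈ R ∧ x ≠ y ∧ (x, y) ∉ P
  · obtain ⟨hx, hy, hxy, hP⟩ := hact
    have hcR : (R.image e).card ≤ a := Finset.card_image_le.trans hRa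
    obtain ⟨x', hx'⟩ : ∃ x', x' ∈ nb G D (e x) \ R.image e := by
      refine Finset.Nonempty.exists_mem (Finset.card_pos.1 ?_)
      have h1 := Finset.le_card_sdiff (R.image e) (nb G D (e x))
      have h2 := hD.deg (h.end_ x hx).2.1
      omega
    obtain ⟨y', hy'⟩ : ∃ y', y' ∈ nb G D (e y) \ insert x' (R.image e) := by
      refine Finset.Nonempty.exists_mem (Finset.card_pos.1 ?_)
      have h1 := Finset.le_card_sdiff (insert x' (R.image e)) (nb G D (e y))
      have h2 := hD.deg (h.end_ y hy).2.1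
      have h3 := Finset.card_insert_le x' (R.image e)
      omega
    rw [Finset.mem_sdiff, mem_nbf] at hx' hy'
    obtain ⟨⟨hx1, hx2⟩, hx3⟩ := hx'
    obtain ⟨⟨hy1, hy2⟩, hy3⟩ := hy'
    rw [Finset.mem_insert, not_or] at hy3
    obtain ⟨Z, K, X, e', hZ, hZM, hZc, hK, hKK, hKX, hXD, hXc, hSX, hXZ⟩ :=
      InsA_route ha hRa hM h hD hc hcol {x', y'}
        (by
          intro v hv
          rw [Finset.mem_insert, Finset.mem_singleton] at hv
          rcases hv with rfl | rfl
          · exact hx1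
          · exact hy1)
        (by
          intro z hz hv
          rw [Finset.mem_insert, Finset.mem_singleton] at hv
          rcases hv with hv | hv
          · exact hx3 (by rw [← hv]; exact Finset.mem_image_of_mem e hz)
          · exact hy3.2 (by rw [← hv]; exact Finset.mem_image_of_mem e hz))
        Finset.card_le_two
    have hxX : x' ∈ X := hSX (Finset.mem_insert_self _ _)
    have hyX : y' ∈ X := hSX (Finset.mem_insert_of_mem (Finset.mem_singleton_self _))
    have hXcn : Cn G (X : Set V) := by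
      rcases hXc with h1 | h1
      · rw [h1] at hxX
        exact absurd hxX (Finset.notMem_empty _)
      · exact h1
    obtain ⟨T', hT'⟩ : ∃ T' : V → Finset V, T' = fun z => T z ∪ ((if z = x then {y'} else ∅) ∪
      (if z = y then {e y} else ∅)) := ⟨_, rfl⟩
    refine ⟨Z, _, T', e', InsA_gen (E := fun z => if z = x then X else ∅) h hZ hK (fun z hz => ?_)
      hKK (fun z hz z' hz' hne => ?_) (fun z hz z' hz' => ?_) (fun z hz => ?_) (fun z hz => ?_)
      (fun p hp hp1 hp2 hne => ?_) ?_, hZM, hZc⟩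
    · by_cases hzx : z = x
      · simp only [if_pos hzx]
        refine ⟨hXD, Or.inr ⟨hXcn, x', hxX, ?_⟩, hXZ⟩
        rw [hzx]
        exact hx2
      · have h0 : (if z = x then X else ∅) = (∅ : Finset V) := if_neg hzx
        show (if z = x then X else ∅) ⊆ D ∧ _
        rw [h0]
        exact ⟨Finset.empty_subset _, Or.inl rfl, fun w hw => absurd hw (Finset.notMem_empty _)⟩
    · by_cases hzx : z = x
      · have hzx' : z' ≠ x := fun h1 => hne (hzx.trans h1.symm)
        simp only [if_neg hzx']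
        exact Finset.disjoint_empty_right _
      · simp only [if_neg hzx]
        exact Finset.disjoint_empty_left _
    · by_cases hzx : z' = x
      · simp only [if_pos hzx]
        exact hKX z hz
      · simp only [if_neg hzx]
        exact Finset.disjoint_empty_right _
    · rw [hT']
      exact Finset.subset_union_left
    · rw [hT']
      intro w hw
      simp only [Finset.mem_union] at hw
      rcases hw with hw | hw | hw
      · exact Finset.mem_union_left _ (Finset.mem_union_left _ (h.TW z hz hw))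
      · by_cases hzx : z = x
        · rw [if_pos hzx, Finset.mem_singleton] at hw
          refine Finset.mem_union_right _ ?_
          rw [if_pos hzx, hw]
          exact hyX
        · rw [if_neg hzx] at hw
          exact absurd hw (Finset.notMem_empty _)
      · by_cases hzy : z = y
        · rw [if_pos hzy, Finset.mem_singleton] at hw
          refine Finset.mem_union_left _ (Finset.mem_union_left _ ?_)
          rw [hw, hzy]
          exact (h.end_ y hy).1
        · rw [if_neg hzy] at hw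
          exact absurd hw (Finset.notMem_empty _)
    · rcases Finset.mem_insert.1 hp with rfl | hp
      · refine ⟨y', ?_, e y, ?_, hy2.symm⟩
        · rw [hT']
          simp
        · rw [hT']
          simp
      · obtain ⟨u, hu, w, hw, huw⟩ := h.adj p hp hp1 hp2 hne
        refine ⟨u, ?_, w, ?_, huw⟩
        · rw [hT']
          exact Finset.mem_union_left _ hu
        · rw [hT']
          exact Finset.mem_union_left _ hw
    · have h1 : ∀ z ∈ R, (T' z).card ≤ (T z).card + ((if z = x then 1 else 0) + (if z = y then 1 else 0)) := by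
        intro z _
        rw [hT']
        refine (Finset.card_union_le _ _).trans (Nat.add_le_add_left ((Finset.card_union_le _ _).trans ?_) _)
        split_ifs <;> simp
      refine (Finset.sum_le_sum h1).trans ?_
      rw [Finset.sum_add_distrib, Finset.sum_add_distrib, Finset.sum_ite_eq', Finset.sum_ite_eq',
        if_pos hx, if_pos hy, Finset.card_insert_of_notMem hP]
      have := h.cnt
      omega
  · obtain ⟨Z, K, X, e', hZ, hZM, hZc, hK, hKK, hKX, hXD, hXc, hSX, hXZ⟩ :=
      InsA_route ha hRa hM h hD hc hcol ∅ (Finset.empty_subset _)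
        (fun z _ => Finset.notMem_empty _) (by simp)
    refine ⟨Z, _, T, e', InsA_gen (E := fun z => ∅) h hZ hK (fun z hz => ?_)
      hKK (fun z hz z' hz' hne => ?_) (fun z hz z' hz' => ?_) (fun z hz => ?_) (fun z hz => ?_)
      (fun p hp hp1 hp2 hne => ?_) ?_, hZM, hZc⟩
    · exact ⟨Finset.empty_subset _, Or.inl rfl, fun w hw => absurd hw (Finset.notMem_empty _)⟩
    · exact Finset.disjoint_empty_left _
    · exact Finset.disjoint_empty_right _
    · exact Finset.Subset.refl _
    · exact (h.TW z hz).trans (Finset.subset_union_left.trans Finset.subset_union_left)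
    · have hpP : p ∈ P := by
        rcases Finset.mem_insert.1 hp with rfl | hp
        · by_contra h1
          exact hact ⟨hp1, hp2, hne, h1⟩
        · exact hp
      exact h.adj p hpP hp1 hp2 hne
    · refine h.cnt.trans ?_
      have := Finset.card_le_card (Finset.subset_insert (x, y) P)
      omega

end Pool.MP_a862e4_co.LS
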