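import Pool.Agent.W_a862e4_ls.InsA

/-!
Section 4 (INS): replacement of the rails.
-/

set_option autoImplicit false
set_option linter.unusedSectionVars false

namespace Pool.MP_a862e4_co.LS

open Pool.MP_4929df_co.H91 Pool.MP_a862e4_co.H18
open scoped Classical

variable {V : Type*} [Fintype V]

/-- Cheap rails.  `shrink` for `W x` and the terminals `T x ∪ {e x}`: the new rails `W' x ⊆ W x` are connected, contain `T x` and `e x`
(so the state is kept), `W' x \ E x` is `2`-colourable, `|E x| ≤ |T x| + 1`; the union of the `E x` has at most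
`|R| + 2 |P| + |R| ≤ 4 a ^ 2` vertices, so it is `c0`-colourable by `hsmall`; the union of the rails is `(2 a + c0)`-colourable. -/
theorem St.cheap {G : SimpleGraph V} {a c0 : ℕ} {U R : Finset V} {P : Finset (V × V)} {D : Finset V}
    {W T : V → Finset V} {e : V → V} (ha : 0 < a) (hRa : R.card ≤ a) (hP : P ⊆ R ×ˢ R)
    (hsmall : ∀ E ⊆ U, E.card ≤ 4 * a ^ 2 → Colb G E c0) (h : St G U R P D W T e) :
    ∃ W' : V → Finset V, St G U R P D W' T e ∧ Colb G (R.biUnion W') (2 * a + c0) := by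
  have hex : ∀ x, ∃ W' E : Finset V, x ∈ R → W' ⊆ W x ∧ insert (e x) (T x) ⊆ W' ∧
      Cn G (W' : Set V) ∧ E.card ≤ (T x).card + 1 ∧ Colb G (W' \ E) 2 := by
    intro x
    by_cases hx : x ∈ R
    · have h1 : insert (e x) (T x) ⊆ W x :=
        Finset.insert_subset (h.end_ x hx).1 (h.TW x hx)
      obtain ⟨W', E, g1, g2, g3, g4, g5⟩ := shrink (h.cn x hx) h1 (Finset.insert_nonempty _ _)
      exact ⟨W', E, fun _ => ⟨g1, g2, g3, g4.trans (Finset.card_insert_le _ _), g5⟩⟩
    · exact ⟨∅, ∅, fun h1 => absurd h1 hx⟩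
  choose W' E hW using hex
  have hsub : ∀ x ∈ R, W' x ⊆ W x := fun x hx => (hW x hx).1
  refine ⟨W', ?_, ?_⟩
  · exact {
      DU := h.DU
      sub := fun x hx => (hsub x hx).trans (h.sub x hx)
      cn := fun x hx => (hW x hx).2.2.1
      dj := fun x hx y hy hxy =>
        Finset.disjoint_of_subset_left (hsub x hx)
          (Finset.disjoint_of_subset_right (hsub y hy) (h.dj x hx y hy hxy))
      root := h.root
      TW := fun x hx => (Finset.subset_insert _ _).trans (hW x hx).2.1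
      end_ := fun x hx => ⟨(hW x hx).2.1 (Finset.mem_insert_self _ _), (h.end_ x hx).2.1,
        fun w hw hwD => (h.end_ x hx).2.2 w (hsub x hx hw) hwD⟩
      adj := h.adj
      cnt := h.cnt }
  · have h1 : Colb G (R.biUnion fun x => W' x \ E x) (a * 2) :=
      colb_biUnion two_pos (fun x hx => (hW x hx).2.2.2.2) hRa ha
    have h2 : Colb G (R.biUnion fun x => E x ∩ W' x) c0 := by
      apply hsmall
      · intro w hw
        rw [Finset.mem_biUnion] at hw
        obtain ⟨x, hx, hw⟩ := hw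
        exact h.sub x hx (hsub x hx (Finset.mem_inter.1 hw).2)
      · have g1 : (R.biUnion fun x => E x ∩ W' x).card ≤ ∑ x ∈ R, (E x ∩ W' x).card :=
          Finset.card_biUnion_le
        have g2 : ∑ x ∈ R, (E x ∩ W' x).card ≤ ∑ x ∈ R, ((T x).card + 1) :=
          Finset.sum_le_sum fun x hx =>
            (Finset.card_le_card Finset.inter_subset_left).trans (hW x hx).2.2.2.1
        have g3 : ∑ x ∈ R, ((T x).card + 1) = ∑ x ∈ R, (T x).card + R.card := by
          rw [Finset.sum_add_distrib, Finset.sum_const, smul_eq_mul, mul_one]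
        have g4 := h.cnt
        have g5 : P.card ≤ R.card * R.card := by
          rw [← Finset.card_product]
          exact Finset.card_le_card hP
        have g6 : R.card * R.card ≤ a * a := Nat.mul_le_mul hRa hRa
        have g7 : a ≤ a * a := Nat.le_mul_of_pos_left a ha
        have g8 : a ^ 2 = a * a := sq a
        omega
    have h3 := colb_union h1 h2
    refine colb_mono h3 ?_ (by omega)
    intro w hw
    rw [Finset.mem_biUnion] at hw
    obtain ⟨x, hx, hw⟩ := hw
    rw [Finset.mem_union, Finset.mem_biUnion, Finset.mem_biUnion]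
    by_cases hwE : w ∈ E x
    · exact Or.inr ⟨x, hx, Finset.mem_inter.2 ⟨hwE, hw⟩⟩
    · exact Or.inl ⟨x, hx, Finset.mem_sdiff.2 ⟨hw, hwE⟩⟩

/-- Continuation of the rails to a fresh set `D'` disjoint from them: `Mc.linked` inside `D` from `e(R)` to `D ∩ D'`
(`a ≤ M`, `|R| ≤ |D ∩ D'|`): sets `L z ∋ e z`, meeting `D ∩ D'` exactly in `e' z`; new rails `W z ∪ L z`.  (`W z ∩ D = {e z}`, so everything
stays disjoint; `e` is injective on `R`.) -/
theorem St.move {G : SimpleGraph V} {a M : ℕ} {U R : Finset V} {P : Finset (V × V)} {D D' : Finset V}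
    {W T : V → Finset V} {e : V → V} (hRa : R.card ≤ a) (haM : a ≤ M) (h : St G U R P D W T e)
    (hD : Mc G M D) (hD'U : D' ⊆ U) (hd : Disjoint (R.biUnion W) D') (hc : a ≤ (D ∩ D').card) :
    ∃ (W' : V → Finset V) (e' : V → V), St G U R P D' W' T e' := by
  have hY : R.image e ⊆ D := by
    intro w hw
    obtain ⟨x, hx, rfl⟩ := Finset.mem_image.1 hw
    exact (h.end_ x hx).2.1
  have hYc : (R.image e).card ≤ a := Finset.card_image_le.trans hRa
  obtain ⟨Q, m, hQ, hQd⟩ := hD.linked hY (Finset.inter_subset_left : D ∩ D' ⊆ D) (hYc.trans haM)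
    (hYc.trans hc)
  have heY : ∀ x ∈ R, e x ∈ R.image e := fun x hx => Finset.mem_image_of_mem e hx
  have hne : ∀ x ∈ R, ∀ y ∈ R, x ≠ y → e x ≠ e y := by
    intro x hx y hy hxy heq
    have h1 := (h.end_ x hx).1
    have h2 := (h.end_ y hy).1
    rw [← heq] at h2
    exact Finset.disjoint_left.1 (h.dj x hx y hy hxy) h1 h2
  obtain ⟨L, hL⟩ : ∃ L : V → Finset V, ∀ x w, w ∈ L x ↔ w ∈ Q (e x) :=
    ⟨fun x => Finset.univ.filter fun w => w ∈ Q (e x), fun x w => by simp⟩
  have hLD : ∀ x ∈ R, ∀ w ∈ L x, w ∈ D := fun x hx w hw =>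
    (hQ (e x) (heY x hx)).1 ((hL x w).1 hw)
  have hWL : ∀ x ∈ R, ∀ y ∈ R, x ≠ y → ∀ w ∈ W x, w ∉ L y := by
    intro x hx y hy hxy w hw hwL
    have h1 := (h.end_ x hx).2.2 w hw (hLD y hy w hwL)
    have h2 := (hQ (e x) (heY x hx)).2.2.1
    rw [h1] at hwL
    exact Set.disjoint_left.1 (hQd (e x) (heY x hx) (e y) (heY y hy) (hne x hx y hy hxy)) h2
      ((hL y _).1 hwL)
  refine ⟨fun x => W x ∪ L x, fun x => m (e x), ?_⟩
  exact {
    DU := hD'U
    sub := fun x hx => Finset.union_subset (h.sub x hx) fun w hw => h.DU (hLD x hx w hw)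
    cn := fun x hx => by
      have h1 : ((W x ∪ L x : Finset V) : Set V) = (W x : Set V) ∪ Q (e x) := by
        ext w
        rw [Finset.coe_union, Set.mem_union, Set.mem_union, Finset.mem_coe, Finset.mem_coe, hL]
      rw [h1]
      exact (h.cn x hx).union (hQ (e x) (heY x hx)).2.1
        ⟨e x, (h.end_ x hx).1, (hQ (e x) (heY x hx)).2.2.1⟩
    dj := fun x hx y hy hxy => by
      rw [Finset.disjoint_left]
      intro w hw hw'
      rcases Finset.mem_union.1 hw with h1 | h1 <;> rcases Finset.mem_union.1 hw' with h2 | h2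
      · exact Finset.disjoint_left.1 (h.dj x hx y hy hxy) h1 h2
      · exact hWL x hx y hy hxy w h1 h2
      · exact hWL y hy x hx (Ne.symm hxy) w h2 h1
      · exact Set.disjoint_left.1 (hQd (e x) (heY x hx) (e y) (heY y hy) (hne x hx y hy hxy))
          ((hL x w).1 h1) ((hL y w).1 h2)
    root := h.root
    TW := fun x hx => (h.TW x hx).trans Finset.subset_union_left
    end_ := fun x hx => by
      obtain ⟨-, -, -, g4, g5, g6⟩ := hQ (e x) (heY x hx)
      refine ⟨Finset.mem_union_right _ ((hL x _).2 g5), (Finset.mem_inter.1 g4).2, ?_⟩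
      intro w hw hwD
      rcases Finset.mem_union.1 hw with h1 | h1
      · exact absurd hwD (Finset.disjoint_left.1 hd (Finset.mem_biUnion.2 ⟨x, hx, h1⟩))
      · exact g6 w ((hL x w).1 h1) (Finset.mem_inter.2 ⟨hLD x hx w h1, hwD⟩)
    adj := h.adj
    cnt := h.cnt }

/-- **One stage.**  `St.join` (with `c := k - C1`, `C1 = (2 + c0) a + 4 M`), `St.cheap` (for `c0 := c0 * a`), `gn` in
`U \ R.biUnion W'` (`not_colb_sdiff`), `hins` for `Γ*` and `D' \ Γ*`, so `D' ∩ Γ*` is not `a`-colourable (`colb_union`) and has more than `a`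
elements (`card_of_not_colb`), `St.move`. -/
theorem St.stage {G : SimpleGraph V} {a M k s c0 : ℕ} {U R : Finset V} {P : Finset (V × V)}
    {D : Finset V} {W T : V → Finset V} {e : V → V} (ha : 0 < a) (hRa : R.card ≤ a)
    (hM : M = 2000000 * a) (hc0 : c0 = 2 ^ 43) (hs : s = 2 ^ 44 * a) (hk : 2 ^ 48 * a ≤ k)
    (hcol : ¬ Colb G U k) (hsmall : ∀ E ⊆ U, E.card ≤ 4 * a ^ 2 → Colb G E (c0 * a))
    (hins : ∀ U1 ⊆ U, ∀ U2 ⊆ U, Disjoint U1 U2 → ¬ Colb G U1 (k - s) → Colb G U2 (k - s))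
    (h : St G U R P D W T e) (hD : Mc G M D) (hDcol : ¬ Colb G D (k - ((2 + c0) * a + 4 * M)))
    (x y : V) (hxy : insert (x, y) P ⊆ R ×ˢ R) :
    ∃ (D' : Finset V) (W' T' : V → Finset V) (e' : V → V),
      St G U R (insert (x, y) P) D' W' T' e' ∧ Mc G M D' ∧
        ¬ Colb G D' (k - ((2 + c0) * a + 4 * M)) := by
  subst hM hc0 hs
  norm_num only at hk hsmall hins hDcol ⊢
  obtain ⟨D1, W1, T1, e1, j1, j2, j3⟩ := St.join (c := k - (8796093022210 * a + 4 * (2000000 * a)))
    ha hRa le_rfl h hD (by omega) hDcol x y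
  obtain ⟨W2, c1, c2⟩ := St.cheap ha hRa hxy hsmall j1
  have g1 := not_colb_sdiff hcol c2 (by omega)
  obtain ⟨X, x1, x2, x3⟩ := gn (m := 2000000 * a) (by omega) (by omega) g1
  have hXU : X ⊆ U := x1.trans Finset.sdiff_subset
  have x4 : ¬ Colb G X (k - (8796093022210 * a + 4 * (2000000 * a))) := by
    intro h1
    exact x3 (colb_mono h1 le_rfl (by omega))
  have g2 : Colb G (D1 \ X) (k - 17592186044416 * a) := by
    refine hins X hXU (D1 \ X) (Finset.sdiff_subset.trans j1.DU) Finset.disjoint_sdiff ?_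
    intro h1
    exact x4 (colb_mono h1 le_rfl (by omega))
  have g3 : ¬ Colb G (D1 ∩ X) a := by
    intro h1
    have h2 := colb_union g2 h1
    rw [Finset.sdiff_union_inter] at h2
    exact j3 (colb_mono h2 le_rfl (by omega))
  have g4 := card_of_not_colb ha g3
  obtain ⟨W3, e3, m1⟩ := St.move hRa (M := 2000000 * a) (by omega) c1 j2 hXU (by
    rw [Finset.disjoint_left]
    intro w hw hwX
    exact (Finset.mem_sdiff.1 (x1 hwX)).2 hw) g4.le
  exact ⟨X, W3, T1, e3, m1, x2, x4⟩

/-- **(INS)**  `St.init`, `Finset.induction` over the pairs of `R ×ˢ R` with `St.stage`, `St.rs`. -/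
theorem ins {G : SimpleGraph V} {a M k s c0 : ℕ} {U R : Finset V} (ha : 0 < a) (hRU : R ⊆ U)
    (hRa : R.card ≤ a) (hM : M = 2000000 * a) (hc0 : c0 = 2 ^ 43) (hs : s = 2 ^ 44 * a)
    (hk : 2 ^ 48 * a ≤ k) (hU : Mc G M U) (hcol : ¬ Colb G U k)
    (hsmall : ∀ E ⊆ U, E.card ≤ 4 * a ^ 2 → Colb G E (c0 * a))
    (hins : ∀ U1 ⊆ U, ∀ U2 ⊆ U, Disjoint U1 U2 → ¬ Colb G U1 (k - s) → Colb G U2 (k - s)) :
    RS G U R := by
  have key : ∀ P : Finset (V × V), P ⊆ R ×ˢ R → ∃ (D : Finset V) (W T : V → Finset V) (e : V → V),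
      St G U R P D W T e ∧ Mc G M D ∧ ¬ Colb G D (k - ((2 + c0) * a + 4 * M)) := by
    intro P
    induction P using Finset.induction_on with
    | empty =>
      intro _
      refine ⟨U, fun x => {x}, fun x => {x}, fun x => x, St.init hRU, hU, ?_⟩
      intro h1
      exact hcol (colb_mono h1 le_rfl (Nat.sub_le _ _))
    | insert p P _ ih =>
      intro hP
      obtain ⟨D, W, T, e, h1, h2, h3⟩ := ih ((Finset.subset_insert p P).trans hP)
      exact St.stage ha hRa hM hc0 hs hk hcol hsmall hins h1 h2 h3 p.1 p.2 hP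
  obtain ⟨D, W, T, e, h1, -, -⟩ := key _ le_rfl
  exact h1.rs

end Pool.MP_a862e4_co.LS
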