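import Pool.Agent.W_a862e4_ls.SepA

/-!
Section 5 (SEP): three pieces.
-/

set_option autoImplicit false
set_option linter.unusedSectionVars false

namespace Pool.MP_a862e4_co.LS

open Pool.MP_4929df_co.H91 Pool.MP_a862e4_co.H18
open scoped Classical

variable {V : Type*} [Fintype V]

/-- three groups: enumerate `R` and take the index modulo `3` -/
theorem groups {R : Finset V} {a : ℕ} (hRa : R.card ≤ a) :
    ∃ col : V → Fin 3, ∀ q, (R.filter (fun x => col x ≠ q)).card ≤ a - a / 3 := by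
  obtain ⟨R0, hR0, h0⟩ := Finset.exists_subset_card_eq (s := R) (n := R.card / 3) (by omega)
  obtain ⟨R1, hR1, h1⟩ := Finset.exists_subset_card_eq (s := R \ R0) (n := R.card / 3) (by
    rw [Finset.card_sdiff_of_subset hR0]; omega)
  have key : ∀ (col : V → Fin 3) (q : Fin 3) (S : Finset V), S ⊆ R → (∀ x ∈ S, col x = q) →
      R.card / 3 ≤ S.card → (R.filter (fun x => col x ≠ q)).card ≤ a - a / 3 := by
    intro col q S hS hc hcard
    have h2 : R.filter (fun x => col x ≠ q) ⊆ R \ S := by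
      intro x hx
      rw [Finset.mem_filter] at hx
      exact Finset.mem_sdiff.2 ⟨hx.1, fun h => hx.2 (hc x h)⟩
    have h3 := Finset.card_le_card h2
    rw [Finset.card_sdiff_of_subset hS] at h3
    omega
  refine ⟨fun x => if x ∈ R0 then 0 else if x ∈ R1 then 1 else 2, fun q => ?_⟩
  have hsub1 : R1 ⊆ R := fun x hx => (Finset.mem_sdiff.1 (hR1 hx)).1
  fin_cases q
  · exact key _ 0 R0 hR0 (fun x hx => if_pos hx) h0.ge
  · refine key _ 1 R1 hsub1 (fun x hx => ?_) h1.ge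
    have h2 := (Finset.mem_sdiff.1 (hR1 hx)).2
    simp only [if_neg h2, if_pos hx]
  · refine key _ 2 ((R \ R0) \ R1) (fun x hx => (Finset.mem_sdiff.1 (Finset.mem_sdiff.1 hx).1).1)
      (fun x hx => ?_) ?_
    · have h2 := (Finset.mem_sdiff.1 hx).2
      have h3 := (Finset.mem_sdiff.1 (Finset.mem_sdiff.1 hx).1).2
      simp only [if_neg h2, if_neg h3]
    · rw [Finset.card_sdiff_of_subset hR1, Finset.card_sdiff_of_subset hR0]
      omega

/-- The start: disjoint connected `K x ⊆ U` containing `x` and a vertex `t x q ∈ D q` for `q ≠ col x`; the `t x q` are different and not in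
`R` (choose them in `D q \ R`, `|D q| > 2 a`).  `Mc.knit` for the set of all `x`, `t x q` (at most `3 a` vertices, or `4 a` with a `t x q` for all `q`),
the label of `x` and of `t x q` is the label of `x`. -/
theorem sep_start {G : SimpleGraph V} {a M : ℕ} {U R : Finset V} (ha : 0 < a) (hU : Mc G M U)
    (hM : 2000000 * a ≤ M) (hRU : R ⊆ U) (hRa : R.card ≤ a) (D : Fin 3 → Finset V)
    (hDU : ∀ q, D q ⊆ U) (hDd : ∀ q q', q ≠ q' → Disjoint (D q) (D q'))
    (hDc : ∀ q, 2 * a < (D q).card) :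
    ∃ (K : V → Set V) (t : V → Fin 3 → V), (∀ x ∈ R, Cn G (K x) ∧ K x ⊆ (U : Set V) ∧ x ∈ K x) ∧
      (∀ x ∈ R, ∀ y ∈ R, x ≠ y → Disjoint (K x) (K y)) ∧
      ∀ x ∈ R, ∀ q, t x q ∈ D q ∧ t x q ∈ K x := by
  have hinj : ∀ q : Fin 3, ∃ f : V → V, (∀ x ∈ R, f x ∈ D q ∧ f x ∉ R) ∧
      ∀ x ∈ R, ∀ y ∈ R, f x = f y → x = y := by
    intro q
    have h1 : R.card ≤ (D q \ R).card := by
      have h2 := Finset.le_card_sdiff R (D q)
      have h3 := hDc q
      omega
    obtain ⟨S, hS, hSc⟩ := Finset.exists_subset_card_eq h1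
    obtain ⟨f⟩ : Nonempty (R ≃ S) := ⟨Finset.equivOfCardEq hSc.symm⟩
    refine ⟨fun x => if h : x ∈ R then (f ⟨x, h⟩ : V) else x, fun x hx => ?_, fun x hx y hy hxy => ?_⟩
    · simp only [dif_pos hx]
      have h4 := hS (f ⟨x, hx⟩).2
      exact ⟨(Finset.mem_sdiff.1 h4).1, (Finset.mem_sdiff.1 h4).2⟩
    · simp only [dif_pos hx, dif_pos hy] at hxy
      have h5 := f.injective (Subtype.ext hxy)
      exact congrArg Subtype.val h5
  choose f hf1 hf2 using hinj
  let t : V → Fin 3 → V := fun x q => f q x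
  let ι : V → ℕ := fun v => (Fintype.equivFin V v).1
  have hι : ∀ x y, ι x = ι y → x = y := fun x y h =>
    (Fintype.equivFin V).injective (Fin.ext h)
  have huniq : ∀ x ∈ R, ∀ y ∈ R, ∀ q q', t x q = t y q' → x = y := by
    intro x hx y hy q q' he
    have hq : q = q' := by
      by_contra hne
      exact (Finset.disjoint_left.1 (hDd q q' hne) (hf1 q x hx).1)
        (by rw [show f q x = f q' y from he]; exact (hf1 q' y hy).1)
    subst hq
    exact hf2 q x hx y hy he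
  let g : V → ℕ := fun v => if v ∈ R then ι v else
    if h : ∃ x, x ∈ R ∧ ∃ q, t x q = v then ι h.choose else 0
  have hg1 : ∀ x ∈ R, g x = ι x := fun x hx => if_pos hx
  have hg2 : ∀ x ∈ R, ∀ q, g (t x q) = ι x := by
    intro x hx q
    have hn : t x q ∉ R := (hf1 q x hx).2
    have hex : ∃ y, y ∈ R ∧ ∃ q', t y q' = t x q := ⟨x, hx, q, rfl⟩
    show (if t x q ∈ R then ι (t x q) else
      if h : ∃ y, y ∈ R ∧ ∃ q', t y q' = t x q then ι h.choose else 0) = ι x
    rw [if_neg hn, dif_pos hex]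
    obtain ⟨q', hq'⟩ := hex.choose_spec.2
    rw [huniq _ hex.choose_spec.1 x hx _ _ hq']
  have hYc : (R ∪ (R ×ˢ (Finset.univ : Finset (Fin 3))).image (fun p => t p.1 p.2)).card ≤ 4 * a := by
    refine (Finset.card_union_le _ _).trans ?_
    have h1 := Finset.card_image_le (s := R ×ˢ (Finset.univ : Finset (Fin 3)))
      (f := fun p => t p.1 p.2)
    rw [Finset.card_product, Finset.card_univ, Fintype.card_fin] at h1
    omega
  have hYU : R ∪ (R ×ˢ (Finset.univ : Finset (Fin 3))).image (fun p => t p.1 p.2) ⊆ U := by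
    refine Finset.union_subset hRU fun v hv => ?_
    obtain ⟨p, hp, rfl⟩ := Finset.mem_image.1 hv
    exact hDU p.2 (hf1 p.2 p.1 (Finset.mem_product.1 hp).1).1
  obtain ⟨K, hK1, hK2, hK3, hK4⟩ := hU.knit hYU (by omega) g
  have hxK : ∀ x ∈ R, x ∈ K (ι x) := fun x hx => by
    have h1 := hK4 x (Finset.mem_union_left _ hx)
    rwa [hg1 x hx] at h1
  refine ⟨fun x => K (ι x), t, fun x hx => ⟨?_, hK1 _, hxK x hx⟩, fun x _ y _ hxy =>
    hK3 _ _ fun h => hxy (hι x y h), fun x hx q => ⟨(hf1 q x hx).1, ?_⟩⟩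
  · rcases hK2 (ι x) with h1 | h1
    · exact absurd (hxK x hx) (by rw [h1]; exact Set.notMem_empty x)
    · exact h1
  · have h1 := hK4 (t x q) (Finset.mem_union_right _ (Finset.mem_image.2 ⟨(x, q),
      Finset.mem_product.2 ⟨hx, Finset.mem_univ _⟩, rfl⟩))
    rwa [hg2 x hx q] at h1

/-- the state after processing the pieces `D q`, `q ∈ P` -/
def SepInv (G : SimpleGraph V) (U R : Finset V) (D : Fin 3 → Finset V) (col : V → Fin 3)
    (M' k : ℕ) (P : Finset (Fin 3)) : Prop :=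
  ∃ (K : V → Set V) (s : V → Fin 3 → V) (Z : Fin 3 → Finset V),
    (∀ x ∈ R, Cn G (K x) ∧ K x ⊆ (U : Set V) ∧ x ∈ K x) ∧
    (∀ x ∈ R, ∀ y ∈ R, x ≠ y → Disjoint (K x) (K y)) ∧
    (∀ x ∈ R, ∀ q, s x q ∈ K x) ∧
    (∀ q, q ∉ P → ∀ x ∈ R, s x q ∈ D q) ∧
    (∀ q ∈ P, Z q ⊆ D q ∧ Mc G M' (Z q) ∧ ¬ Colb G (Z q) k ∧
      (∀ x ∈ R, col x ≠ q → s x q ∈ Z q ∧ ∀ w ∈ K x, w ∈ Z q → w = s x q) ∧
      ∀ x ∈ R, col x = q → ∀ w ∈ K x, w ∉ Z q)

theorem fin3_cases : ∀ q q' : Fin 3, q' ≠ q → q' = q + 1 ∨ q' = q + 2 := by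
  decide

theorem sepInv_step {G : SimpleGraph V} {a M M' c : ℕ} {U R : Finset V} (ha : 0 < a)
    (hRa : R.card ≤ a) (D : Fin 3 → Finset V) (hDU : ∀ q, D q ⊆ U)
    (hDd : ∀ q q', q ≠ q' → Disjoint (D q) (D q')) (hDm : ∀ q, Mc G M (D q))
    (hDcol : ∀ q, ¬ Colb G (D q) c) (hM' : 0 < M') (hM : 1500 * a ≤ M)
    (hc : 15000 * a + 12 * M' ≤ c) (col : V → Fin 3) (P : Finset (Fin 3)) (q : Fin 3)
    (hq : q ∉ P) (h : SepInv G U R D col M' (c - (12300 * a + 4 * M')) P) :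
    SepInv G U R D col M' (c - (12300 * a + 4 * M')) (insert q P) := by
  obtain ⟨K, s, Z, hK, hd, hsK, hsD, hP⟩ := h
  obtain ⟨Z', K', e, hZ', hZm, hZc, hK', hd', hKK, heR, heN⟩ := process (R' := R.filter
      (fun x => col x ≠ q)) ha hRa (Finset.filter_subset _ _) hM' (hDm q) hM hc (hDcol q) K
      (fun x => {x, s x (q + 1), s x (q + 2)}) (fun x hx => (hK x hx).1) hd
      (fun x hx => ⟨by
        intro w hw
        simp only [Finset.coe_insert, Finset.coe_singleton, Set.mem_insert_iff,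
          Set.mem_singleton_iff] at hw
        rcases hw with rfl | rfl | rfl
        · exact (hK _ hx).2.2
        · exact hsK x hx _
        · exact hsK x hx _, ⟨x, Finset.mem_insert_self _ _⟩, Finset.card_le_three⟩)
      (fun x hx => ⟨s x q, hsK x (Finset.mem_filter.1 hx).1 q,
        by exact_mod_cast hsD q hq x (Finset.mem_filter.1 hx).1⟩)
  have hx' : ∀ x ∈ R, x ∈ K' x := fun x hx => (hKK x hx).2 (by simp)
  have hs' : ∀ x ∈ R, ∀ q', q' ≠ q → s x q' ∈ K' x := by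
    intro x hx q' hne
    refine (hKK x hx).2 ?_
    rcases fin3_cases q q' hne with rfl | rfl <;> simp
  refine ⟨K', fun x q' => if q' = q then (if col x ≠ q then e x else x) else s x q',
    fun q' => if q' = q then Z' else Z q', fun x hx => ⟨hK' x hx, ?_, hx' x hx⟩, hd', ?_, ?_, ?_⟩
  · refine (hKK x hx).1.trans (Set.union_subset (hK x hx).2.1 ?_)
    exact_mod_cast hDU q
  · intro x hx q'
    by_cases h1 : q' = q
    · simp only [if_pos h1]
      by_cases h2 : col x ≠ q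
      · rw [if_pos h2]
        exact (heR x (Finset.mem_filter.2 ⟨hx, h2⟩)).1
      · rw [if_neg h2]
        exact hx' x hx
    · simp only [if_neg h1]
      exact hs' x hx q' h1
  · intro q' hq' x hx
    have h1 : q' ≠ q := fun h => hq' (h ▸ Finset.mem_insert_self _ _)
    simp only [if_neg h1]
    exact hsD q' (fun h => hq' (Finset.mem_insert_of_mem h)) x hx
  · intro q' hq'
    by_cases h1 : q' = q
    · subst h1
      simp only [if_true]
      refine ⟨hZ', hZm, hZc, fun x hx hcx => ?_, fun x hx hcx => ?_⟩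
      · rw [if_pos hcx]
        have h2 := heR x (Finset.mem_filter.2 ⟨hx, hcx⟩)
        exact ⟨h2.2.1, h2.2.2⟩
      · exact heN x hx (fun h => (Finset.mem_filter.1 h).2 hcx)
    · simp only [if_neg h1]
      have hqP : q' ∈ P := (Finset.mem_insert.1 hq').resolve_left h1
      obtain ⟨a1, a2, a3, a4, a5⟩ := hP q' hqP
      have hKw : ∀ x ∈ R, ∀ w ∈ K' x, w ∈ Z q' → w ∈ K x := by
        intro x hx w hw hwZ
        rcases (hKK x hx).1 hw with h2 | h2
        · exact h2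
        · exact absurd (a1 hwZ) (Finset.disjoint_left.1 (hDd q q' (fun h => h1 h.symm))
            (by exact_mod_cast h2))
      refine ⟨a1, a2, a3, fun x hx hcx => ⟨(a4 x hx hcx).1, fun w hw hwZ => ?_⟩,
        fun x hx hcx w hw hwZ => ?_⟩
      · exact (a4 x hx hcx).2 w (hKw x hx w hw hwZ) hwZ
      · exact a5 x hx hcx w (hKw x hx w hw hwZ) hwZ

/-- **(SEP)**  `groups`, `sep_start`, `process` for `D 0`, `D 1`, `D 2` one after the other with `R' q = R.filter (col x ≠ q)`, `M' = 2000000 (a - a / 3)`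
and `T x = {x} ∪ {t x q | q ≠ col x not yet processed} ∪ {e q x | q ≠ col x processed}` (at most 3 elements; the properties of the processed
pieces `Z q ⊆ D q` are kept because `K' x ⊆ K x ∪ D q'` and the `D`'s are disjoint).  Then `hIH` in `Z q` for the set of the `e q x`
(at most `a - a / 3` elements, injective in `x`): star-schemes `B q`; `B x = K x ∪ ⋃_{q ≠ col x} B q (e q x)`; for `x ≠ y` take `q` different from
`col x` and `col y`: `K x ∪ C q ∪ K y`. -/
theorem sep {G : SimpleGraph V} {a M c : ℕ} {U R : Finset V} (ha : 3 ≤ a) (hU : Mc G M U)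
    (hM : M = 2000000 * a) (hRU : R ⊆ U) (hRa : R.card ≤ a) (D : Fin 3 → Finset V)
    (hDU : ∀ q, D q ⊆ U) (hDd : ∀ q q', q ≠ q' → Disjoint (D q) (D q'))
    (hDm : ∀ q, Mc G M (D q)) (hDcol : ∀ q, ¬ Colb G (D q) c)
    (hc : 2 ^ 49 * (a - a / 3) + 12300 * a + 12 * M ≤ c) (hc' : 15000 * a + 12 * M ≤ c)
    (hIH : ∀ Z ⊆ U, Mc G (2000000 * (a - a / 3)) Z → ¬ Colb G Z (2 ^ 49 * (a - a / 3)) →
      Rt G Z (a - a / 3)) : RS G U R := by
  obtain ⟨col, hcol⟩ := groups hRa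
  have hM' : 2000000 * (a - a / 3) ≤ M := by rw [hM]; exact Nat.mul_le_mul_left _ (Nat.sub_le _ _)
  have hDc : ∀ q, 2 * a < (D q).card := fun q => lt_of_le_of_lt (by omega) (hDm q).big
  obtain ⟨K0, t0, hK0, hd0, ht0⟩ := sep_start (by omega) hU hM.ge hRU hRa D hDU hDd hDc
  have hInv : ∀ P : Finset (Fin 3), SepInv G U R D col (2000000 * (a - a / 3))
      (c - (12300 * a + 4 * (2000000 * (a - a / 3)))) P := by
    intro P
    induction P using Finset.induction_on with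
    | empty =>
      exact ⟨K0, t0, D, hK0, hd0, fun x hx q => (ht0 x hx q).2, fun q _ x hx => (ht0 x hx q).1,
        fun q hq => absurd hq (Finset.notMem_empty q)⟩
    | insert q P hq ih =>
      exact sepInv_step (by omega) hRa D hDU hDd hDm hDcol (by omega) (by omega) (by omega)
        col P q hq ih
  obtain ⟨K, s, Z, hK, hd, hsK, -, hP⟩ := hInv Finset.univ
  have hZD : ∀ q, Z q ⊆ D q := fun q => (hP q (Finset.mem_univ q)).1
  have hZd : ∀ q q', q ≠ q' → ∀ w, w ∈ Z q → w ∈ Z q' → False := fun q q' hne w h1 h2 =>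
    Finset.disjoint_left.1 (hDd q q' hne) (hZD q h1) (hZD q' h2)
  have hin : ∀ q, ∀ x ∈ R, col x ≠ q → s x q ∈ Z q ∧ ∀ w ∈ K x, w ∈ Z q → w = s x q := fun q =>
    (hP q (Finset.mem_univ q)).2.2.2.1
  have hout : ∀ q, ∀ x ∈ R, col x = q → ∀ w ∈ K x, w ∉ Z q := fun q =>
    (hP q (Finset.mem_univ q)).2.2.2.2
  have hRS : ∀ q, RS G (Z q) ((R.filter (fun x => col x ≠ q)).image (fun x => s x q)) := by
    intro q
    obtain ⟨b1, b2, b3, -, -⟩ := hP q (Finset.mem_univ q)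
    refine hIH (Z q) (b1.trans (hDU q)) b2 (fun h => b3 (colb_mono h le_rfl (by omega))) _ ?_
      (Finset.card_image_le.trans (hcol q))
    intro w hw
    obtain ⟨x, hx, rfl⟩ := Finset.mem_image.1 hw
    rw [Finset.mem_filter] at hx
    exact (hin q x hx.1 hx.2).1
  choose B hB1 hB2 hB3 using hRS
  have hmem : ∀ q, ∀ x ∈ R, col x ≠ q →
      s x q ∈ (R.filter (fun x => col x ≠ q)).image (fun x => s x q) := fun q x hx hcx =>
    Finset.mem_image.2 ⟨x, Finset.mem_filter.2 ⟨hx, hcx⟩, rfl⟩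
  have hne : ∀ q, ∀ x ∈ R, ∀ y ∈ R, x ≠ y → s x q ≠ s y q := by
    intro q x hx y hy hxy he
    exact Set.disjoint_left.1 (hd x hx y hy hxy) (hsK x hx q) (by rw [he]; exact hsK y hy q)
  have hBZ : ∀ q, ∀ x ∈ R, col x ≠ q → ∀ w ∈ B q (s x q), w ∈ Z q := fun q x hx hcx w hw => by
    exact_mod_cast (hB1 q _ (hmem q x hx hcx)).2 hw
  have hmB : ∀ (x w : V), w ∈ K x ∪ {w | ∃ q, col x ≠ q ∧ w ∈ B q (s x q)} ↔
      w ∈ K x ∨ ∃ q, col x ≠ q ∧ w ∈ B q (s x q) := fun x w => Iff.rfl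
  have hKB : ∀ x ∈ R, ∀ y ∈ R, x ≠ y → ∀ w ∈ K x, ∀ q, col y ≠ q → w ∈ B q (s y q) → False := by
    intro x hx y hy hxy w hw q hcy hwB
    have hwZ := hBZ q y hy hcy w hwB
    by_cases hcx : col x = q
    · exact hout q x hx hcx w hw hwZ
    · have h1 := (hin q x hx hcx).2 w hw hwZ
      refine Set.disjoint_left.1 (hB2 q _ (hmem q x hx hcx) _ (hmem q y hy hcy)
        (hne q x hx y hy hxy)) ((hB1 q _ (hmem q x hx hcx)).1) ?_
      rw [← h1]
      exact hwB
  refine ⟨fun x => K x ∪ {w | ∃ q, col x ≠ q ∧ w ∈ B q (s x q)}, fun x hx => ⟨?_, ?_⟩,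
    fun x hx y hy hxy => ?_, fun x hx y hy hxy => ?_⟩
  · exact Or.inl (hK x hx).2.2
  · rintro w (hw | ⟨q, hcx, hw⟩)
    · exact (hK x hx).2.1 hw
    · exact_mod_cast hDU q (hZD q (hBZ q x hx hcx w hw))
  · rw [Set.disjoint_left]
    rintro w (hw | ⟨q, hcx, hw⟩) (hw' | ⟨q', hcy, hw'⟩)
    · exact Set.disjoint_left.1 (hd x hx y hy hxy) hw hw'
    · exact hKB x hx y hy hxy w hw q' hcy hw'
    · exact hKB y hy x hx (fun h => hxy h.symm) w hw' q hcx hw
    · by_cases hqq : q = q'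
      · subst hqq
        exact Set.disjoint_left.1 (hB2 q _ (hmem q x hx hcx) _ (hmem q y hy hcy)
          (hne q x hx y hy hxy)) hw hw'
      · exact hZd q q' hqq w (hBZ q x hx hcx w hw) (hBZ q' y hy hcy w hw')
  · obtain ⟨q, hcx, hcy⟩ : ∃ q, col x ≠ q ∧ col y ≠ q := by
      generalize col x = i
      generalize col y = j
      revert i j
      decide
    obtain ⟨C, hC, hCs, hxC, hyC⟩ := hB3 q _ (hmem q x hx hcx) _ (hmem q y hy hcy)
      (hne q x hx y hy hxy)
    have h1 : Cn G (K x ∪ C) := (hK x hx).1.union hC ⟨s x q, hsK x hx q, hxC⟩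
    have h2 : Cn G (K x ∪ C ∪ K y) := h1.union (hK y hy).1 ⟨s y q, Or.inr hyC, hsK y hy q⟩
    refine ⟨K x ∪ C ∪ K y, h2, ?_, Or.inl (Or.inl (hK x hx).2.2), Or.inr (hK y hy).2.2⟩
    rintro w ((hw | hw) | hw)
    · exact Or.inl (Or.inl hw)
    · rcases hCs hw with h3 | h3
      · exact Or.inl (Or.inr ⟨q, hcx, h3⟩)
      · exact Or.inr (Or.inr ⟨q, hcy, h3⟩)
    · exact Or.inr (Or.inl hw)

end Pool.MP_a862e4_co.LS
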