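import Pool.Agent.W_a862e4_ls.SmE

/-!
Section 6.1: probability of good sets.
-/

set_option autoImplicit false
set_option linter.unusedSectionVars false

namespace Pool.MP_a862e4_co.LS

open Pool.MP_4929df_co.H91 Pool.MP_a862e4_co.H18
open scoped Classical

variable {V : Type*} [Fintype V]

private theorem SmG_union {G : SimpleGraph V} {β ρ : ℕ} {W X S S1 : Finset V}
    {N : V → Finset V} (A : Finset V) :
    ind (¬ GoodB G β ρ W X S S1 N A) ≤
      ((∑ z ∈ W, ind (9600 * (2 * β) ≤ (nb G W z).card ∧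
          (nb G W z).card < 76800 * (nb G W z ∩ A).card)) +
        ((∑ x ∈ S1, ind (2 * β < (N x ∩ A).card)) +
          ∑ z : V, ind (β < ((S1.filter (fun x => z ∈ N x)) ∩ A).card))) +
        ind (¬ Cut3 (gam G S) ρ X S A) := by
  have h1 : ind (¬ GoodB G β ρ W X S S1 N A) ≤
      ind (((∃ z ∈ W, 9600 * (2 * β) ≤ (nb G W z).card ∧
          (nb G W z).card < 76800 * (nb G W z ∩ A).card) ∨
        ((∃ x ∈ S1, 2 * β < (N x ∩ A).card) ∨
          ∃ z ∈ (Finset.univ : Finset V), β < ((S1.filter (fun x => z ∈ N x)) ∩ A).card)) ∨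
        ¬ Cut3 (gam G S) ρ X S A) := by
    refine ind_mono fun hG => ?_
    by_contra hne
    push Not at hne
    obtain ⟨⟨k1, k2, k3⟩, k4⟩ := hne
    exact hG ⟨k1, k2, fun z => k3 z (Finset.mem_univ z), k4⟩
  refine h1.trans ((ind_or_le _ _).trans (add_le_add_left ?_ _))
  refine (ind_or_le _ _).trans (add_le_add (ind_exists_le _ _) ?_)
  exact (ind_or_le _ _).trans (add_le_add (ind_exists_le _ _) (ind_exists_le _ _))

/-- As `good_prob` (W_a862e4_h18/FinA.lean) with `b = 2 β`: `e1B_prob`, `e2_prob` for `N x` (`b = 2 β`: `(1 / 2) ^ (20 * (2 β))`), `e2B_prob` for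
`S1.filter (z ∈ N x)` (at most `2 b = 4 β` elements), `cut3_prob` for `gam G S` (`h.e.fr`, `ρ ≥ 2 β`). -/
theorem goodB_prob {G : SimpleGraph V} {β c ρ : ℕ} (hb : 0 < β) {W X S S1 : Finset V}
    {N : V → Finset V} {v : V} (h : SD G (2 * β) c ρ W X S S1 N v) :
    Ex Finset.univ (1 / 2 ^ 22 : ℝ) (fun A => ind (¬ GoodB G β ρ W X S S1 N A)) ≤
      dlB (Fintype.card V) β := by
  have hq0 : (0 : ℝ) ≤ 1 / 2 ^ 22 := by positivity
  have hq1 : (1 / 2 ^ 22 : ℝ) ≤ 1 := by norm_num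
  have hbρ := h.bρ
  have hρ : 0 < ρ := by omega
  have hcard : ∀ T : Finset V, (T.card : ℝ) ≤ Fintype.card V := fun T => by
    exact_mod_cast Finset.card_le_univ T
  refine (Ex_mono hq0 hq1 fun A _ => SmG_union (G := G) (β := β) (ρ := ρ) (W := W)
    (X := X) (S := S) (S1 := S1) (N := N) A).trans ?_
  rw [Ex_add, Ex_add, Ex_add, Ex_sum, Ex_sum, Ex_sum]
  have b1 : ∑ z ∈ W, Ex Finset.univ (1 / 2 ^ 22 : ℝ) (fun A => ind (9600 * (2 * β) ≤
      (nb G W z).card ∧ (nb G W z).card < 76800 * (nb G W z ∩ A).card)) ≤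
      Fintype.card V * (1 / 2) ^ β := by
    refine (Finset.sum_le_card_nsmul W _ ((1 / 2 : ℝ) ^ β) fun z _ => ?_).trans ?_
    · by_cases hz : 9600 * (2 * β) ≤ (nb G W z).card
      · exact (Ex_mono hq0 hq1 fun A _ => ind_mono fun hh => hh.2).trans (e1B_prob _ β hz)
      · refine (Ex_mono (g := fun _ => (0 : ℝ)) hq0 hq1 fun A _ => ?_).trans ?_
        · exact le_of_eq (ind_false fun hh => hz hh.1)
        · rw [Ex_const]; positivity
    · rw [nsmul_eq_mul]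
      exact mul_le_mul_of_nonneg_right (hcard W) (by positivity)
  have b2 : ∑ x ∈ S1, Ex Finset.univ (1 / 2 ^ 22 : ℝ) (fun A => ind (2 * β < (N x ∩ A).card)) ≤
      Fintype.card V * (1 / 2) ^ (40 * β) := by
    have e40 : 40 * β = 20 * (2 * β) := by ring
    rw [e40]
    refine (Finset.sum_le_card_nsmul S1 _ ((1 / 2 : ℝ) ^ (20 * (2 * β))) fun x hx => ?_).trans ?_
    · exact e2_prob _ (2 * β) (h.N2 x hx).le
    · rw [nsmul_eq_mul]
      exact mul_le_mul_of_nonneg_right (hcard S1) (by positivity)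
  have b3 : ∑ z : V, Ex Finset.univ (1 / 2 ^ 22 : ℝ)
      (fun A => ind (β < ((S1.filter (fun x => z ∈ N x)) ∩ A).card)) ≤
      Fintype.card V * (1 / 2) ^ (18 * β) := by
    refine (Finset.sum_le_card_nsmul Finset.univ _ ((1 / 2 : ℝ) ^ (18 * β)) fun z _ => ?_).trans ?_
    · refine e2B_prob _ β ?_
      have := h.N3 z
      omega
    · rw [nsmul_eq_mul]
      exact mul_le_mul_of_nonneg_right (hcard Finset.univ) (by positivity)
  have b4 : Ex Finset.univ (1 / 2 ^ 22 : ℝ) (fun A => ind (¬ Cut3 (gam G S) ρ X S A)) ≤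
      2 * (Fintype.card V : ℝ) * (1 / 2) ^ (14 * β) +
        16 * (Fintype.card V : ℝ) ^ 2 * (1 / 2) ^ (116 * β) := by
    have hE : End G (75 * (128 * ρ)) W X S := by
      have h1 := h.e
      have h2 : 75 * (128 * ρ) = 9600 * ρ := by ring
      rw [h2]
      exact h1
    refine (cut3_prob hρ hE.fr).trans ?_
    have h3 : (1 / 2 : ℝ) ^ (7 * ρ) ≤ (1 / 2) ^ (14 * β) :=
      pow_le_pow_of_le_one (by norm_num) (by norm_num) (by omega)
    have h4 : (1 / 2 : ℝ) ^ (58 * ρ) ≤ (1 / 2) ^ (116 * β) :=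
      pow_le_pow_of_le_one (by norm_num) (by norm_num) (by omega)
    exact add_le_add (mul_le_mul_of_nonneg_left h3 (by positivity))
      (mul_le_mul_of_nonneg_left h4 (by positivity))
  unfold dlB
  exact add_le_add (add_le_add b1 (add_le_add b2 b3)) b4

/-- The global event: `e1B_prob` for the neighbourhoods (`Mc.deg`), and `cut3_prob` for the frame `Fr G (128 * (2 β)) univ ∅` (degrees
`≥ 9600 * (2 β) = 75 * (128 * (2 β))`, separations of order `≤ 3 * (128 * (2 β)) < 9600 * (2 β)` are trivial by `hG.sep`). -/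
theorem globB_prob {G : SimpleGraph V} {β : ℕ} (hb : 0 < β)
    (hG : Mc G (9600 * (2 * β)) Finset.univ) :
    Ex Finset.univ (1 / 2 ^ 22 : ℝ) (fun A => ind (¬ GlobB G β A)) ≤ dlB (Fintype.card V) β := by
  have hq0 : (0 : ℝ) ≤ 1 / 2 ^ 22 := by positivity
  have hq1 : (1 / 2 ^ 22 : ℝ) ≤ 1 := by norm_num
  have hu : ∀ A : Finset V, ind (¬ GlobB G β A) ≤
      (∑ z : V, ind ((nb G Finset.univ z).card < 76800 * (nb G Finset.univ z ∩ A).card)) +
        ind (¬ Cut3 G (2 * β) Finset.univ ∅ A) := by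
    intro A
    have h1 : ind (¬ GlobB G β A) ≤
        ind ((∃ z ∈ (Finset.univ : Finset V), (nb G Finset.univ z).card <
          76800 * (nb G Finset.univ z ∩ A).card) ∨ ¬ Cut3 G (2 * β) Finset.univ ∅ A) := by
      refine ind_mono fun hg => ?_
      by_contra hne
      push Not at hne
      obtain ⟨k1, k2⟩ := hne
      exact hg ⟨fun z => k1 z (Finset.mem_univ z), k2⟩
    refine h1.trans ((ind_or_le _ _).trans (add_le_add_left ?_ _))
    exact ind_exists_le _ _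
  refine (Ex_mono hq0 hq1 fun A _ => hu A).trans ?_
  rw [Ex_add, Ex_sum]
  have b1 : ∑ z : V, Ex Finset.univ (1 / 2 ^ 22 : ℝ) (fun A => ind ((nb G Finset.univ z).card <
      76800 * (nb G Finset.univ z ∩ A).card)) ≤ Fintype.card V * (1 / 2) ^ β := by
    refine (Finset.sum_le_card_nsmul Finset.univ _ ((1 / 2 : ℝ) ^ β) fun z hz => ?_).trans ?_
    · exact e1B_prob _ β (hG.deg hz)
    · rw [nsmul_eq_mul, Finset.card_univ]
  have hfr : Fr G (128 * (2 * β)) Finset.univ ∅ :=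
    { SX := Finset.empty_subset _
      ne := by
        rw [Finset.sdiff_empty, ← Finset.card_pos]
        exact lt_of_le_of_lt (Nat.zero_le _) hG.big
      noS := fun a ha => absurd ha (Finset.notMem_empty a)
      deg := fun z _ => by
        have h1 : 75 * (128 * (2 * β)) = 9600 * (2 * β) := by ring
        rw [h1]
        exact hG.deg (Finset.mem_univ z)
      cS := by simp
      sep := fun P Q hs hc => by
        rcases hG.sep P Q hs (by omega) with h1 | h1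
        · exact Or.inl (by rw [Finset.sdiff_eq_empty_iff_subset.2 h1])
        · exact Or.inr (by rw [Finset.sdiff_eq_empty_iff_subset.2 h1]) }
  have b2 := cut3_prob (show 0 < 2 * β by omega) hfr
  have e1 : 7 * (2 * β) = 14 * β := by ring
  have e2 : 58 * (2 * β) = 116 * β := by ring
  rw [e1, e2] at b2
  have b3 : (0 : ℝ) ≤ (Fintype.card V : ℝ) * (1 / 2) ^ (40 * β) +
      (Fintype.card V : ℝ) * (1 / 2) ^ (18 * β) := by positivity
  unfold dlB
  linarith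

/-- the numbers: `y = (1 / 2) ^ β ≤ (1 / 2) ^ (4 ℓ + 100)`, all the other powers are at most `y`; `n ≤ 2 ^ ℓ`; as `dl_small`. -/
theorem dlB_small {n β ℓ : ℕ} (hn : n ≤ 2 ^ ℓ) (hβ : 4 * ℓ + 100 ≤ β) :
    (2 : ℝ) ^ 22 * ((n + 1) * dlB n β) < 1 := by
  have hn' : (n : ℝ) ≤ 2 ^ ℓ := by exact_mod_cast hn
  have hn0 : (0 : ℝ) ≤ n := Nat.cast_nonneg n
  have hL1 : (1 : ℝ) ≤ 2 ^ ℓ := one_le_pow₀ (by norm_num)
  obtain ⟨L, hL⟩ : ∃ L : ℝ, L = 2 ^ ℓ := ⟨_, rfl⟩
  rw [← hL] at hn' hL1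
  obtain ⟨y, hy⟩ : ∃ y : ℝ, y = (1 / 2) ^ β := ⟨_, rfl⟩
  have hy0 : 0 ≤ y := by rw [hy]; positivity
  have hp : ∀ k : ℕ, 1 ≤ k → (1 / 2 : ℝ) ^ (k * β) ≤ y := by
    intro k hk
    rw [hy]
    exact pow_le_pow_of_le_one (by norm_num) (by norm_num) (Nat.le_mul_of_pos_left β hk)
  have hyL : L ^ 3 * y ≤ (1 / 2) ^ 100 := by
    have h1 : y ≤ (1 / 2) ^ (4 * ℓ + 100) := by
      rw [hy]
      exact pow_le_pow_of_le_one (by norm_num) (by norm_num) hβ
    have h2 : (1 / 2 : ℝ) ^ (4 * ℓ + 100) = ((1 / 2) ^ ℓ) ^ 4 * (1 / 2) ^ 100 := by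
      rw [pow_add, ← pow_mul, mul_comm 4 ℓ]
    have h3 : (1 / 2 : ℝ) ^ ℓ * L = 1 := by
      rw [hL, ← mul_pow]
      norm_num
    have h4 : (1 / 2 : ℝ) ^ ℓ ≤ 1 := pow_le_one₀ (by norm_num) (by norm_num)
    have h5 : L ^ 3 * (((1 / 2 : ℝ) ^ ℓ) ^ 4 * (1 / 2) ^ 100) =
        ((1 / 2 : ℝ) ^ ℓ * L) ^ 3 * ((1 / 2 : ℝ) ^ ℓ * (1 / 2) ^ 100) := by ring
    calc L ^ 3 * y ≤ L ^ 3 * (((1 / 2 : ℝ) ^ ℓ) ^ 4 * (1 / 2) ^ 100) := by
          rw [← h2]
          exact mul_le_mul_of_nonneg_left h1 (by positivity)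
      _ = (1 / 2 : ℝ) ^ ℓ * (1 / 2) ^ 100 := by rw [h5, h3]; ring
      _ ≤ 1 * (1 / 2) ^ 100 := mul_le_mul_of_nonneg_right h4 (by positivity)
      _ = (1 / 2) ^ 100 := one_mul _
  have hL2 : L ≤ L ^ 2 := by nlinarith
  have hnL : (n : ℝ) ^ 2 ≤ L ^ 2 := pow_le_pow_left₀ hn0 hn' 2
  have hd : dlB n β ≤ 21 * L ^ 2 * y := by
    unfold dlB
    have a1 : (n : ℝ) * (1 / 2) ^ β ≤ L ^ 2 * y := by
      rw [← hy]
      exact mul_le_mul_of_nonneg_right (hn'.trans hL2) hy0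
    have a2 : (n : ℝ) * (1 / 2) ^ (40 * β) ≤ L ^ 2 * y :=
      mul_le_mul (hn'.trans hL2) (hp 40 (by norm_num)) (by positivity) (by positivity)
    have a3 : (n : ℝ) * (1 / 2) ^ (18 * β) ≤ L ^ 2 * y :=
      mul_le_mul (hn'.trans hL2) (hp 18 (by norm_num)) (by positivity) (by positivity)
    have a4 : (n : ℝ) * (1 / 2) ^ (14 * β) ≤ L ^ 2 * y :=
      mul_le_mul (hn'.trans hL2) (hp 14 (by norm_num)) (by positivity) (by positivity)
    have a5 : (n : ℝ) ^ 2 * (1 / 2) ^ (116 * β) ≤ L ^ 2 * y :=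
      mul_le_mul hnL (hp 116 (by norm_num)) (by positivity) (by positivity)
    linarith
  have hd0 : 0 ≤ dlB n β := by unfold dlB; positivity
  have hlast : (2 : ℝ) ^ 22 * (42 * (1 / 2) ^ 100) < 1 := by norm_num
  have h6 : ((n : ℝ) + 1) * dlB n β ≤ (2 * L) * (21 * L ^ 2 * y) :=
    mul_le_mul (by linarith) hd hd0 (by positivity)
  have h7 : (2 * L) * (21 * L ^ 2 * y) = 42 * (L ^ 3 * y) := by ring
  have h8 : ((n : ℝ) + 1) * dlB n β ≤ 42 * (1 / 2) ^ 100 := by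
    rw [h7] at h6
    linarith
  exact lt_of_le_of_lt (mul_le_mul_of_nonneg_left h8 (by positivity)) hlast

end Pool.MP_a862e4_co.LS
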