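import Pool.Agent.W_a862e4_ls.McA

/-!
Section 1.4: transfer of rooted star-schemes.
-/

set_option autoImplicit false
set_option linter.unusedSectionVars false

namespace Pool.MP_a862e4_co.LS

open Pool.MP_4929df_co.H91 Pool.MP_a862e4_co.H18
open scoped Classical

variable {V : Type*} [Fintype V]

/-- (1.4) `Mc.linked` from `R` to `H`: sets `Q x`, last vertices `m x ∈ H` (injective on `R`); the star-scheme `B` of `H` with the roots
`m x`; take `Q x ∪ B (m x)` (`Q x ∩ H = {m x}`) and `Q x ∪ C ∪ Q y`. -/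
theorem transfer {G : SimpleGraph V} {m a : ℕ} {U H R : Finset V} (hU : Mc G m U) (hH : H ⊆ U)
    (hRt : Rt G H a) (hR : R ⊆ U) (hRa : R.card ≤ a) (hRm : R.card ≤ m) (hRH : R.card ≤ H.card) :
    RS G U R := by
  obtain ⟨Q, f, hQ, hd⟩ := hU.linked hR hH hRm hRH
  have hM : R.image f ⊆ H := by
    intro w hw
    obtain ⟨x, hx, rfl⟩ := Finset.mem_image.1 hw
    exact (hQ x hx).2.2.2.1
  obtain ⟨B, hB1, hB2, hB3⟩ := hRt (R.image f) hM (Finset.card_image_le.trans hRa)
  have hmem : ∀ x ∈ R, f x ∈ R.image f := fun x hx => Finset.mem_image_of_mem f hx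
  have hne : ∀ x ∈ R, ∀ y ∈ R, x ≠ y → f x ≠ f y := by
    intro x hx y hy hxy he
    have h1 := (hQ x hx).2.2.2.2.1
    have h2 := (hQ y hy).2.2.2.2.1
    rw [← he] at h2
    exact Set.disjoint_left.1 (hd x hx y hy hxy) h1 h2
  have hQB : ∀ x ∈ R, ∀ y ∈ R, x ≠ y → Disjoint (Q x) (B (f y)) := by
    intro x hx y hy hxy
    refine Set.disjoint_left.2 fun w hw hwB => ?_
    have h1 : w ∈ H := by exact_mod_cast (hB1 (f y) (hmem y hy)).2 hwB
    have h2 := (hQ x hx).2.2.2.2.2 w hw h1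
    rw [h2] at hwB
    exact Set.disjoint_left.1 (hB2 (f x) (hmem x hx) (f y) (hmem y hy) (hne x hx y hy hxy))
      (hB1 (f x) (hmem x hx)).1 hwB
  refine ⟨fun x => Q x ∪ B (f x), fun x hx => ⟨Or.inl (hQ x hx).2.2.1, ?_⟩, ?_, ?_⟩
  · rintro w (hw | hw)
    · exact (hQ x hx).1 hw
    · have h1 : w ∈ H := by exact_mod_cast (hB1 (f x) (hmem x hx)).2 hw
      exact_mod_cast hH h1
  · intro x hx y hy hxy
    refine Set.disjoint_left.2 ?_
    rintro w (hw | hw) (hw' | hw')
    · exact Set.disjoint_left.1 (hd x hx y hy hxy) hw hw'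
    · exact Set.disjoint_left.1 (hQB x hx y hy hxy) hw hw'
    · exact Set.disjoint_left.1 (hQB y hy x hx hxy.symm) hw' hw
    · exact Set.disjoint_left.1 (hB2 (f x) (hmem x hx) (f y) (hmem y hy) (hne x hx y hy hxy)) hw hw'
  · intro x hx y hy hxy
    obtain ⟨C, hC, hCs, hxC, hyC⟩ := hB3 (f x) (hmem x hx) (f y) (hmem y hy) (hne x hx y hy hxy)
    refine ⟨Q x ∪ C ∪ Q y, ?_, ?_, Or.inl (Or.inl (hQ x hx).2.2.1), Or.inr (hQ y hy).2.2.1⟩
    · have h1 : Cn G (Q x ∪ C) := (hQ x hx).2.1.union hC ⟨f x, (hQ x hx).2.2.2.2.1, hxC⟩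
      exact h1.union (hQ y hy).2.1 ⟨f y, Or.inr hyC, (hQ y hy).2.2.2.2.1⟩
    · rintro w ((hw | hw) | hw)
      · exact Or.inl (Or.inl hw)
      · rcases hCs hw with h | h
        · exact Or.inl (Or.inr h)
        · exact Or.inr (Or.inr h)
      · exact Or.inr (Or.inl hw)

/-- a rooted star-scheme with `p` roots gives a `p`-scheme: `v` an enumeration of `R`, `C i j = C_xy ∪ C_yx` for `i ≠ j` (both contain
`x`; `connected_of_cn`), `C i i = ∅`. -/
theorem RS.scheme {G : SimpleGraph V} {U R : Finset V} (h : RS G U R) {p : ℕ} (hp : R.card = p) :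
    Scheme G p := by
  obtain ⟨B, hB1, hB2, hB3⟩ := h
  choose! C hC using hB3
  have e : Fin p ≃ {x // x ∈ R} := (Finset.equivFinOfCardEq hp).symm
  have hv : Function.Injective fun i : Fin p => ((e i : {x // x ∈ R}) : V) := fun i j hij =>
    e.injective (Subtype.ext hij)
  have hmem : ∀ i : Fin p, ((e i : {x // x ∈ R}) : V) ∈ R := fun i => (e i).2
  have hne : ∀ i j : Fin p, i ≠ j → ((e i : {x // x ∈ R}) : V) ≠ ((e j : {x // x ∈ R}) : V) :=
    fun i j hij he => hij (hv he)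
  refine ⟨fun i => (e i : V), hv, fun i j => if i = j then ∅ else C (e i) (e j) ∪ C (e j) (e i), ?_, ?_, ?_⟩
  · intro i j
    by_cases hij : i = j
    · simp only [if_pos hij, if_pos hij.symm]
    · simp only [if_neg hij, if_neg (Ne.symm hij)]
      exact Set.union_comm _ _
  · intro i j hij
    beta_reduce
    rw [if_neg hij]
    obtain ⟨h1, -, h3, h4⟩ := hC (e i) (hmem i) (e j) (hmem j) (hne i j hij)
    obtain ⟨h5, -, h7, h8⟩ := hC (e j) (hmem j) (e i) (hmem i) (hne j i (Ne.symm hij))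
    exact ⟨Or.inl h3, Or.inl h4, connected_of_cn (h1.union h5 ⟨(e i : V), h3, h8⟩)⟩
  · intro i j k l hij hik hil hjk hjl hkl
    simp only [if_neg hij, if_neg hkl]
    have hsub : ∀ i j : Fin p, i ≠ j → C (e i) (e j) ∪ C (e j) (e i) ⊆ B (e i) ∪ B (e j) := by
      intro i j hij
      rintro w (hw | hw)
      · exact (hC (e i) (hmem i) (e j) (hmem j) (hne i j hij)).2.1 hw
      · exact ((hC (e j) (hmem j) (e i) (hmem i) (hne j i (Ne.symm hij))).2.1 hw).symm
    refine Set.disjoint_of_subset (hsub i j hij) (hsub k l hkl) ?_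
    have hd : ∀ i j : Fin p, i ≠ j → Disjoint (B (e i)) (B (e j)) := fun i j hij =>
      hB2 (e i) (hmem i) (e j) (hmem j) (hne i j hij)
    exact Set.disjoint_union_left.2 ⟨Set.disjoint_union_right.2 ⟨hd i k hik, hd i l hil⟩,
      Set.disjoint_union_right.2 ⟨hd j k hjk, hd j l hjl⟩⟩

private theorem Tr_cn {W : Type*} {G : SimpleGraph V} {f : W → V} {C : Set W}
    (h : Cn (G.comap f) C) : Cn G (f '' C) := by
  refine ⟨h.1.image f, fun A hA hne hcl => ?_⟩
  have h1 : C ∩ f ⁻¹' A = C := by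
    refine h.2 _ Set.inter_subset_left ?_ ?_
    · obtain ⟨a, ha⟩ := hne
      obtain ⟨c, hc, rfl⟩ := hA ha
      exact ⟨c, hc, ha⟩
    · rintro a ⟨_, haA⟩ b hb hab
      exact ⟨hb, hcl (f a) haA (f b) (Set.mem_image_of_mem f hb) hab⟩
  refine Set.Subset.antisymm hA ?_
  rintro _ ⟨c, hc, rfl⟩
  rw [← h1] at hc
  exact hc.2

/-- star-schemes of the graph induced on the subtype `{x // x ∈ H}` -/
theorem rt_of_subtype {G : SimpleGraph V} {H : Finset V} {a : ℕ}
    (h : Rt (G.comap (fun x : {x // x ∈ H} => (x : V))) Finset.univ a) : Rt G H a := by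
  intro R hR hc
  have hcard : (R.subtype (fun x => x ∈ H)).card ≤ a := by
    rw [Finset.card_subtype]
    exact (Finset.card_filter_le _ _).trans hc
  obtain ⟨B, hB1, hB2, hB3⟩ := h (R.subtype (fun x => x ∈ H)) (Finset.subset_univ _) hcard
  have hmem : ∀ x (hx : x ∈ R), (⟨x, hR hx⟩ : {x // x ∈ H}) ∈ R.subtype (fun x => x ∈ H) := fun x hx =>
    Finset.mem_subtype.2 hx
  have hne : ∀ x (hx : x ∈ R) y (hy : y ∈ R), x ≠ y → (⟨x, hR hx⟩ : {x // x ∈ H}) ≠ ⟨y, hR hy⟩ :=
    fun x hx y hy hxy he => hxy (congrArg Subtype.val he)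
  have hB : ∀ x (hx : x ∈ H), (if hx : x ∈ H then Subtype.val '' (B ⟨x, hx⟩) else (∅ : Set V)) =
      Subtype.val '' (B ⟨x, hx⟩) := fun x hx => dif_pos hx
  refine ⟨fun x => if hx : x ∈ H then Subtype.val '' (B ⟨x, hx⟩) else ∅, ?_, ?_, ?_⟩
  · intro x hx
    simp only [hB x (hR hx)]
    refine ⟨⟨⟨x, hR hx⟩, (hB1 _ (hmem x hx)).1, rfl⟩, ?_⟩
    rintro _ ⟨w, _, rfl⟩
    exact_mod_cast w.2
  · intro x hx y hy hxy
    simp only [hB x (hR hx), hB y (hR hy)]
    exact (Set.disjoint_image_iff Subtype.val_injective).2 (hB2 _ (hmem x hx) _ (hmem y hy) (hne x hx y hy hxy))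
  · intro x hx y hy hxy
    simp only [hB x (hR hx), hB y (hR hy)]
    obtain ⟨C, h1, h2, h3, h4⟩ := hB3 _ (hmem x hx) _ (hmem y hy) (hne x hx y hy hxy)
    refine ⟨Subtype.val '' C, Tr_cn h1, ?_, ⟨_, h3, rfl⟩, ⟨_, h4, rfl⟩⟩
    rw [← Set.image_union]
    exact Set.image_mono h2

private theorem Tr_union {W : Type*} {i : DecidableEq W} {A B : Finset W} {w : W} :
    w ∈ A ∪ B ↔ w ∈ A ∨ w ∈ B := Finset.mem_union

private theorem Tr_inter {W : Type*} {i : DecidableEq W} {A B : Finset W} {w : W} :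
    w ∈ A ∩ B ↔ w ∈ A ∧ w ∈ B := Finset.mem_inter

/-- connectivity of the graph induced on the subtype -/
theorem mc_subtype {G : SimpleGraph V} {H : Finset V} {m : ℕ} (h : Mc G m H) :
    Mc (G.comap (fun x : {x // x ∈ H} => (x : V))) m Finset.univ := by
  refine ⟨?_, fun A B hs hc => ?_⟩
  · rw [Finset.card_univ, Fintype.card_coe]
    exact h.big
  · have hmemA : ∀ (A : Finset {x // x ∈ H}) (w : {x // x ∈ H}),
        (w : V) ∈ A.map (Function.Embedding.subtype _) ↔ w ∈ A := by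
      intro A w
      rw [Finset.mem_map]
      constructor
      · rintro ⟨z, hz, he⟩
        have : z = w := Subtype.ext he
        rwa [this] at hz
      · exact fun hw => ⟨w, hw, rfl⟩
    have hinH : ∀ (A : Finset {x // x ∈ H}) (w : V), w ∈ A.map (Function.Embedding.subtype _) → w ∈ H := by
      intro A w hw
      obtain ⟨z, _, rfl⟩ := Finset.mem_map.1 hw
      exact z.2
    have hsep : Sep G H (A.map (Function.Embedding.subtype _)) (B.map (Function.Embedding.subtype _)) := by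
      constructor
      · ext w
        constructor
        · intro hw
          rcases Finset.mem_union.1 hw with h1 | h1
          · exact hinH A w h1
          · exact hinH B w h1
        · intro hw
          have h1 := Finset.mem_univ (⟨w, hw⟩ : {x // x ∈ H})
          rw [← hs.1] at h1
          rcases Tr_union.1 h1 with h2 | h2
          · exact Finset.mem_union_left _ ((hmemA A ⟨w, hw⟩).2 h2)
          · exact Finset.mem_union_right _ ((hmemA B ⟨w, hw⟩).2 h2)
      · intro a ha haB b hb hbA hab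
        have haH := hinH A a ha
        have hbH := hinH B b hb
        refine hs.2 ⟨a, haH⟩ ((hmemA A ⟨a, haH⟩).1 ha) (fun h1 => haB ((hmemA B ⟨a, haH⟩).2 h1)) ⟨b, hbH⟩
          ((hmemA B ⟨b, hbH⟩).1 hb) (fun h1 => hbA ((hmemA A ⟨b, hbH⟩).2 h1)) hab
    have hcard : (A.map (Function.Embedding.subtype _) ∩ B.map (Function.Embedding.subtype _)).card < m := by
      refine lt_of_le_of_lt ?_ hc
      rw [← Finset.card_map (Function.Embedding.subtype _)]
      refine Finset.card_le_card fun w hw => ?_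
      have h1 := Finset.mem_inter.1 hw
      have h2 := hinH A w h1.1
      exact (hmemA _ ⟨w, h2⟩).2 (Tr_inter.2 ⟨(hmemA A ⟨w, h2⟩).1 h1.1, (hmemA B ⟨w, h2⟩).1 h1.2⟩)
    rcases h.sep _ _ hsep hcard with h1 | h1
    · exact Or.inl (Finset.map_subset_map.1 h1)
    · exact Or.inr (Finset.map_subset_map.1 h1)

/-- colourings of the graph induced on the subtype -/
theorem colb_subtype {G : SimpleGraph V} {H : Finset V} {k : ℕ} (hk : 0 < k)
    (h : Colb (G.comap (fun x : {x // x ∈ H} => (x : V))) Finset.univ k) : Colb G H k := by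
  obtain ⟨c, hc⟩ := h
  refine ⟨fun x => if hx : x ∈ H then c ⟨x, hx⟩ else ⟨0, hk⟩, fun x hx y hy hxy => ?_⟩
  simp only [dif_pos hx, dif_pos hy]
  exact hc ⟨x, hx⟩ (Finset.mem_univ _) ⟨y, hy⟩ (Finset.mem_univ _) hxy

end Pool.MP_a862e4_co.LS
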