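import Pool.Agent.W_a862e4_ls.SmS
import Pool.Agent.W_a862e4_ls.SmG
import Pool.Agent.W_a862e4_ls.Tr

/-!
Section 6: rooted LogLinear.
-/

set_option autoImplicit false
set_option linter.unusedSectionVars false

namespace Pool.MP_a862e4_co.LS

open Pool.MP_4929df_co.H91 Pool.MP_a862e4_co.H18
open scoped Classical

variable {V : Type*} [Fintype V]

private theorem SmX_dlB_nonneg (n β : ℕ) : 0 ≤ dlB n β := by
  unfold dlB
  positivity

/-- As `exists_event` (W_a862e4_h18/FinA.lean): induction on `W.card`, `exists_SD` with `b = 2 β`, `c = 9600 * (2 β) - R.card`, `greedy_step`,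
`goodB_prob`, `stepB`. -/
theorem exists_eventB (G : SimpleGraph V) (β : ℕ) (hb : 0 < β) (R : Finset V)
    (hR : 6 * R.card ≤ β) (hG : Mc G (9600 * (2 * β)) Finset.univ) (W : Finset V) :
    ∃ E : Finset V → Prop,
      Ex Finset.univ (1 / 2 ^ 22 : ℝ) (fun A => ind (¬ E A)) ≤
        W.card * dlB (Fintype.card V) β ∧
      ∀ A, E A → GlobB G β A →
        Colb G ((A \ R) ∩ W) (9600 * (2 * β)) ∨ RS G Finset.univ R := by
  have hq0 : (0 : ℝ) ≤ 1 / 2 ^ 22 := by positivity
  have hq1 : (1 / 2 ^ 22 : ℝ) ≤ 1 := by norm_num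
  have hdl := SmX_dlB_nonneg (Fintype.card V) β
  induction hk : W.card generalizing W with
  | zero =>
    rw [Finset.card_eq_zero] at hk
    subst hk
    refine ⟨fun _ => True, ?_, fun A _ _ => Or.inl ⟨fun _ => ⟨0, by omega⟩, ?_⟩⟩
    · have h1 : Ex Finset.univ (1 / 2 ^ 22 : ℝ) (fun _ : Finset V => ind (¬ True)) = 0 := by
        have h2 : (fun _ : Finset V => ind (¬ True)) = fun _ : Finset V => (0 : ℝ) := by
          funext A
          exact ind_false (fun h => h trivial)
        rw [h2, Ex_const]
      rw [h1]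
      simp
    · intro x hx
      rw [Finset.inter_empty] at hx
      exact absurd hx (Finset.notMem_empty x)
  | succ k ih =>
    have hW : W.Nonempty := by
      rw [← Finset.card_pos]
      omega
    by_cases hlow : ∃ v ∈ W, (nb G W v).card < 9600 * (2 * β)
    · obtain ⟨v, hvW, hv⟩ := hlow
      have hc : (W.erase v).card = k := by
        rw [Finset.card_erase_of_mem hvW, hk]
        rfl
      obtain ⟨E, hE1, hE2⟩ := ih (W.erase v) hc
      refine ⟨E, ?_, ?_⟩
      · refine hE1.trans ?_
        push_cast
        nlinarith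
      · intro A hA hAG
        rcases hE2 A hA hAG with h | h
        · left
          by_cases hvA : v ∈ A \ R
          · have h1 : (A \ R) ∩ W = insert v ((A \ R) ∩ W.erase v) := by
              ext x
              rw [Finset.mem_insert, Finset.mem_inter, Finset.mem_inter, Finset.mem_erase]
              constructor
              · rintro ⟨h1, h2⟩
                by_cases hz : x = v
                · exact Or.inl hz
                · exact Or.inr ⟨h1, hz, h2⟩
              · rintro (rfl | ⟨h1, _, h2⟩)
                · exact ⟨hvA, hvW⟩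
                · exact ⟨h1, h2⟩
            rw [h1]
            refine greedy_step G _ _ v h (lt_of_le_of_lt (Finset.card_le_card
              (FinA_nb_mono ?_ v)) hv)
            exact fun x hx => Finset.mem_of_mem_erase (Finset.mem_inter.1 hx).2
          · have h1 : (A \ R) ∩ W = (A \ R) ∩ W.erase v := by
              ext x
              rw [Finset.mem_inter, Finset.mem_inter, Finset.mem_erase]
              constructor
              · rintro ⟨h1, h2⟩
                exact ⟨h1, fun h3 => hvA (h3 ▸ h1), h2⟩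
              · rintro ⟨h1, _, h2⟩
                exact ⟨h1, h2⟩
            rw [h1]
            exact h
        · exact Or.inr h
    · push Not at hlow
      obtain ⟨ρ, X, S, S1, N, v, hSD⟩ := exists_SD G (2 * β) (9600 * (2 * β) - R.card) (by omega)
        (by omega) W hW hlow
      have hvW : v ∈ W := hSD.e.XW (Finset.mem_sdiff.1 hSD.vZ).1
      have hc : (W.erase v).card = k := by
        rw [Finset.card_erase_of_mem hvW, hk]
        rfl
      obtain ⟨E, hE1, hE2⟩ := ih (W.erase v) hc
      refine ⟨fun A => E A ∧ GoodB G β ρ W X S S1 N A, ?_, ?_⟩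
      · have h1 : ∀ A ⊆ (Finset.univ : Finset V), ind (¬ (E A ∧ GoodB G β ρ W X S S1 N A)) ≤
            ind (¬ E A) + ind (¬ GoodB G β ρ W X S S1 N A) := by
          intro A _
          refine (ind_mono fun hh => ?_).trans (ind_or_le _ _)
          exact not_and_or.1 hh
        refine (Ex_mono hq0 hq1 h1).trans ?_
        rw [Ex_add]
        have h2 := goodB_prob hb hSD
        push_cast
        linarith
      · rintro A ⟨hA1, hA2⟩ hAG
        rcases hE2 A hA1 hAG with h | h
        · exact stepB hb (by omega) hSD hA2 hG hAG hR h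
        · exact Or.inr h

/-- **(SMALL)**  `exists_eventB` for `W = univ`, `globB_prob`, `exists_label` (`r = 2 ^ 22`) for `E A ∧ GlobB G β A`, `dlB_small`; the classes of the
labelling without `R` are `9600 * (2 β)`-colourable (`colb_of_label`-like product colouring of `univ \ R`, see W_a862e4_tw/LayA.lean), `colb_add`. -/
theorem small {G : SimpleGraph V} {β ℓ a : ℕ} (hn : Fintype.card V ≤ 2 ^ ℓ)
    (hβ : 4 * ℓ + 100 ≤ β) (ha : 6 * a ≤ β) (hG : Mc G (9600 * (2 * β)) Finset.univ)
    (hcol : ¬ Colb G Finset.univ (2 ^ 22 * (9600 * (2 * β)) + a)) : Rt G Finset.univ a := by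
  intro R _ hRa
  by_contra hcon
  have hq0 : (0 : ℝ) ≤ 1 / 2 ^ 22 := by positivity
  have hq1 : (1 / 2 ^ 22 : ℝ) ≤ 1 := by norm_num
  have hb : 0 < β := by omega
  obtain ⟨E, hE1, hE2⟩ := exists_eventB G β hb R (by omega) hG Finset.univ
  have hgl := globB_prob hb hG
  have hsmall := dlB_small (n := Fintype.card V) hn hβ
  obtain ⟨c, hc⟩ := exists_label (V := V) (r := 2 ^ 22) (by positivity)
    (fun A => E A ∧ GlobB G β A) (by
      refine lt_of_le_of_lt ?_ hsmall
      have e : (((2 ^ 22 : ℕ)) : ℝ) = (2 : ℝ) ^ 22 := by norm_num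
      rw [Finset.card_univ] at hE1
      rw [e]
      refine mul_le_mul_of_nonneg_left ?_ (by positivity)
      have h1 : ∀ A ⊆ (Finset.univ : Finset V), ind (¬ (E A ∧ GlobB G β A)) ≤
          ind (¬ E A) + ind (¬ GlobB G β A) := by
        intro A _
        refine (ind_mono fun hh => ?_).trans (ind_or_le _ _)
        exact not_and_or.1 hh
      refine (Ex_mono hq0 hq1 h1).trans ?_
      rw [Ex_add]
      linarith)
  apply hcol
  have hcls : ∀ i, Colb G ((Finset.univ.filter (fun v => c v = i)) \ R) (9600 * (2 * β)) := by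
    intro i
    rcases hE2 _ (hc i).1 (hc i).2 with h1 | h1
    · rwa [Finset.inter_univ] at h1
    · exact absurd h1 hcon
  choose d hd using hcls
  have h3 : Colb G (Finset.univ \ R) (2 ^ 22 * (9600 * (2 * β))) := by
    refine ⟨fun v => finProdFinEquiv (c v, d (c v) v), ?_⟩
    intro x hx y hy hxy heq
    have heq' := finProdFinEquiv.injective heq
    rw [Prod.mk.injEq] at heq'
    have h1 : c x = c y := heq'.1
    have h2 := hd (c x) x (by
      rw [Finset.mem_sdiff, Finset.mem_filter]
      exact ⟨⟨Finset.mem_univ _, rfl⟩, (Finset.mem_sdiff.1 hx).2⟩) y (by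
      rw [Finset.mem_sdiff, Finset.mem_filter]
      exact ⟨⟨Finset.mem_univ _, h1.symm⟩, (Finset.mem_sdiff.1 hy).2⟩) hxy
    apply h2
    rw [heq'.2, h1]
  exact colb_add h3 (by positivity) hRa

/-- (SMALL) for a set `H`: `small` for the graph on the subtype `{x // x ∈ H}`; `mc_subtype`, `colb_subtype`, `rt_of_subtype`,
`Fintype.card_coe`. -/
theorem small_set {G : SimpleGraph V} {β ℓ a : ℕ} {H : Finset V} (hn : H.card ≤ 2 ^ ℓ)
    (hβ : 4 * ℓ + 100 ≤ β) (ha : 6 * a ≤ β) (hG : Mc G (9600 * (2 * β)) H)
    (hcol : ¬ Colb G H (2 ^ 22 * (9600 * (2 * β)) + a)) : Rt G H a := by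
  refine rt_of_subtype ?_
  refine small (ℓ := ℓ) (β := β) ?_ hβ ha (mc_subtype hG) ?_
  · rw [Fintype.card_coe]
    exact hn
  · intro h
    have hb : 0 < β := by omega
    exact hcol (colb_subtype (by positivity) h)

end Pool.MP_a862e4_co.LS
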