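import Pool.Agent.W_a862e4_ls.InsB
import Pool.Agent.W_a862e4_ls.SepB
import Pool.Agent.W_a862e4_ls.SmX

/-!
Section 7: the induction and the final theorem.
-/

set_option autoImplicit false
set_option linter.unusedSectionVars false

namespace Pool.MP_a862e4_co.LS

open Pool.MP_4929df_co.H91 Pool.MP_a862e4_co.H18
open scoped Classical

variable {V : Type*} [Fintype V]

/-- at most two roots: `G[U]` is connected (`Mc.cn`), `B x = U \ {y}`, `B y = {y}`, `C = U` -/
theorem rs_two {G : SimpleGraph V} {m : ℕ} {U R : Finset V} (hm : 0 < m) (hU : Mc G m U)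
    (hR : R ⊆ U) (hRc : R.card ≤ 2) : RS G U R := by
  rcases R.eq_empty_or_nonempty with rfl | ⟨y, hy⟩
  · exact ⟨fun _ => ∅, fun x hx => absurd hx (Finset.notMem_empty x),
      fun x hx => absurd hx (Finset.notMem_empty x), fun x hx => absurd hx (Finset.notMem_empty x)⟩
  · have hcn := hU.cn hm
    have hor : ∀ a ∈ R, ∀ b ∈ R, a ≠ b → a = y ∨ b = y := by
      intro a ha b hb hab
      by_contra hcon
      push Not at hcon
      have h1 : ({a, b, y} : Finset V) ⊆ R := by
        intro w hw
        simp only [Finset.mem_insert, Finset.mem_singleton] at hw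
        rcases hw with rfl | rfl | rfl
        · exact ha
        · exact hb
        · exact hy
      have h2 : ({a, b, y} : Finset V).card = 3 := Finset.card_eq_three.2 ⟨a, b, y, hab, hcon.1, hcon.2, rfl⟩
      have h3 := Finset.card_le_card h1
      omega
    refine ⟨fun z => if z = y then {y} else (U : Set V) \ {y}, ?_, ?_, ?_⟩
    · intro x hx
      by_cases hxy : x = y
      · subst hxy
        simp only [if_true]
        refine ⟨Set.mem_singleton x, ?_⟩
        intro w hw
        rw [Set.mem_singleton_iff.1 hw]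
        exact Finset.mem_coe.2 (hR hx)
      · simp only [if_neg hxy]
        exact ⟨⟨Finset.mem_coe.2 (hR hx), fun h => hxy (Set.mem_singleton_iff.1 h)⟩, Set.sdiff_subset⟩
    · intro a ha b hb hab
      rcases hor a ha b hb hab with h | h
      · subst h
        simp only [if_true, if_neg (Ne.symm hab)]
        exact Set.disjoint_sdiff_right
      · subst h
        simp only [if_true, if_neg hab]
        exact Set.disjoint_sdiff_left
    · intro a ha b hb hab
      refine ⟨(U : Set V), hcn, ?_, Finset.mem_coe.2 (hR ha), Finset.mem_coe.2 (hR hb)⟩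
      rcases hor a ha b hb hab with h | h
      · subst h
        simp only [if_true, if_neg (Ne.symm hab)]
        intro w hw
        by_cases hwa : w = a
        · exact Or.inl (Set.mem_singleton_iff.2 hwa)
        · exact Or.inr ⟨hw, fun h => hwa (Set.mem_singleton_iff.1 h)⟩
      · subst h
        simp only [if_true, if_neg hab]
        intro w hw
        by_cases hwb : w = b
        · exact Or.inr (Set.mem_singleton_iff.2 hwb)
        · exact Or.inl ⟨hw, fun h => hwb (Set.mem_singleton_iff.1 h)⟩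

/-- Case 1: a set `E` of at most `4 a ^ 2` vertices that is not `(2 ^ 43 a)`-colourable.  `gn` in `E` with `m = 9600 * (2 * (100 a))`: `H`, `small_set` with
`β = 100 a`, `ℓ = 2 + 2 a` (`4 a ^ 2 ≤ 2 ^ (2 + 2 a)` as `a ≤ 2 ^ a`), `transfer`. -/
theorem case_small {G : SimpleGraph V} {a : ℕ} {U R E : Finset V} (ha : 3 ≤ a)
    (hU : Mc G (2000000 * a) U) (hR : R ⊆ U) (hRa : R.card ≤ a) (hE : E ⊆ U)
    (hEc : E.card ≤ 4 * a ^ 2) (hEcol : ¬ Colb G E (2 ^ 43 * a)) : RS G U R := by
  obtain ⟨H, hHE, hHm, hHc⟩ := gn (m := 9600 * (2 * (100 * a))) (by omega) (by omega) hEcol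
  have hcard : H.card ≤ 2 ^ (2 + 2 * a) := by
    refine (Finset.card_le_card hHE).trans (hEc.trans ?_)
    have h1 : a < 2 ^ a := Nat.lt_two_pow_self
    have h2 : a ^ 2 ≤ (2 ^ a) ^ 2 := Nat.pow_le_pow_left h1.le 2
    have h3 : 2 ^ (2 + 2 * a) = 4 * (2 ^ a) ^ 2 := by
      rw [pow_add, mul_comm 2 a, pow_mul]
      norm_num
    rw [h3]
    exact Nat.mul_le_mul_left 4 h2
  have hRt : Rt G H a := small_set (β := 100 * a) (ℓ := 2 + 2 * a) hcard (by omega) (by omega) hHm
    (fun hc => hHc (colb_mono hc (le_refl H) (by omega)))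
  have hbig := hHm.big
  exact transfer hU (hHE.trans hE) hRt hR hRa (by omega) (by omega)

/-- Case 2a: a set `U0 ⊆ U` which is not `k`-colourable and inseparable at level `k` with `s = 2 ^ 44 a + 4 M` (`M = 2000000 a`).  `gn` in `U0` with
`m = M`: `H`, not `(k - 4 M)`-colourable, `k - 4 M - 2 ^ 44 a = k - s`; `ins` for `H` with `k - 4 M` gives `Rt G H a`; `transfer`. -/
theorem case_insep {G : SimpleGraph V} {a k : ℕ} {U U0 R : Finset V} (ha : 3 ≤ a)
    (hU : Mc G (2000000 * a) U) (hR : R ⊆ U) (hRa : R.card ≤ a) (hU0 : U0 ⊆ U)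
    (hk : 2 ^ 48 * a + 8000000 * a ≤ k) (hcol : ¬ Colb G U0 k)
    (hsmall : ∀ E ⊆ U, E.card ≤ 4 * a ^ 2 → Colb G E (2 ^ 43 * a))
    (hins : ∀ U1 ⊆ U0, ∀ U2 ⊆ U0, Disjoint U1 U2 →
      ¬ Colb G U1 (k - (2 ^ 44 * a + 8000000 * a)) →
      Colb G U2 (k - (2 ^ 44 * a + 8000000 * a))) : RS G U R := by
  obtain ⟨H, hHU0, hHm, hHc⟩ := gn (m := 2000000 * a) (by omega) (by omega) hcol
  have hk4 : k - 4 * (2000000 * a) - 2 ^ 44 * a = k - (2 ^ 44 * a + 8000000 * a) := by omega
  have hRt : Rt G H a := by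
    intro R' hR' hRa'
    refine ins (M := 2000000 * a) (k := k - 4 * (2000000 * a)) (s := 2 ^ 44 * a) (c0 := 2 ^ 43) (by omega)
      hR' hRa' rfl rfl rfl (by omega) hHm hHc (fun E hE hEc => hsmall E (hE.trans (hHU0.trans hU0)) hEc) ?_
    intro U1 hU1 U2 hU2 hd h1
    rw [hk4] at h1 ⊢
    exact hins U1 (hU1.trans hHU0) U2 (hU2.trans hHU0) hd h1
  have hbig := hHm.big
  exact transfer hU (hHU0.trans hU0) hRt hR hRa (by omega) (by omega)

/-- Case 2b: three disjoint subsets that are not `k`-colourable: `gn` with `m = M = 2000000 a` in each of them, `sep`. -/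
theorem case_sep {G : SimpleGraph V} {a k : ℕ} {U R : Finset V} (ha : 3 ≤ a)
    (hU : Mc G (2000000 * a) U) (hR : R ⊆ U) (hRa : R.card ≤ a) (D : Fin 3 → Finset V)
    (hDU : ∀ q, D q ⊆ U) (hDd : ∀ q q', q ≠ q' → Disjoint (D q) (D q'))
    (hDcol : ∀ q, ¬ Colb G (D q) k)
    (hk : 2 ^ 49 * (a - a / 3) + 2 ^ 40 * a ≤ k)
    (hIH : ∀ Z ⊆ U, Mc G (2000000 * (a - a / 3)) Z → ¬ Colb G Z (2 ^ 49 * (a - a / 3)) →
      Rt G Z (a - a / 3)) : RS G U R := by
  have hg : ∀ q, ∃ X ⊆ D q, Mc G (2000000 * a) X ∧ ¬ Colb G X (k - 4 * (2000000 * a)) := fun q =>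
    gn (by omega) (by omega) (hDcol q)
  choose H hHD hHm hHc using hg
  refine sep ha hU rfl hR hRa H (fun q => (hHD q).trans (hDU q)) ?_ hHm hHc (by omega) (by omega) hIH
  intro q q' hqq
  exact Finset.disjoint_of_subset_left (hHD q) (Finset.disjoint_of_subset_right (hHD q') (hDd q q' hqq))

/-- **(P_a)**  strong induction on `a`; `a ≤ 2`: `rs_two` (`a = 0`: `R = ∅`); `a ≥ 3`: `case_small`, `case_insep` for `U`, and for the two sets `U1`, `U2` which
witness that `U` is separable at level `k = 2 ^ 49 a` (then at level `k - s`), `case_sep` for three of the four sets at level `k - 2 s`. -/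
theorem rooted (G : SimpleGraph V) (a : ℕ) : ∀ U : Finset V, Mc G (2000000 * a) U →
    ¬ Colb G U (2 ^ 49 * a) → Rt G U a := by
  induction a using Nat.strong_induction_on with
  | _ a IH =>
  intro U hU hcol R hR hRa
  rcases Nat.lt_or_ge a 3 with ha | ha
  · rcases Nat.eq_zero_or_pos a with h0 | h0
    · have hR0 : R = ∅ := by
        rw [← Finset.card_eq_zero]
        omega
      subst hR0
      exact ⟨fun _ => ∅, fun x hx => absurd hx (Finset.notMem_empty x),
        fun x hx => absurd hx (Finset.notMem_empty x), fun x hx => absurd hx (Finset.notMem_empty x)⟩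
    · exact rs_two (by omega) hU hR (by omega)
  · by_cases hE : ∃ E ⊆ U, E.card ≤ 4 * a ^ 2 ∧ ¬ Colb G E (2 ^ 43 * a)
    · obtain ⟨E, hEU, hEc, hEcol⟩ := hE
      exact case_small ha hU hR hRa hEU hEc hEcol
    · have hsmall : ∀ E ⊆ U, E.card ≤ 4 * a ^ 2 → Colb G E (2 ^ 43 * a) := by
        intro E hEU hEc
        by_contra hcon
        exact hE ⟨E, hEU, hEc, hcon⟩
      by_cases hins : ∀ U1 ⊆ U, ∀ U2 ⊆ U, Disjoint U1 U2 →
          ¬ Colb G U1 (2 ^ 49 * a - (2 ^ 44 * a + 8000000 * a)) →
          Colb G U2 (2 ^ 49 * a - (2 ^ 44 * a + 8000000 * a))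
      · exact case_insep ha hU hR hRa (le_refl U) (by omega) hcol hsmall hins
      · push Not at hins
        obtain ⟨U1, hU1, U2, hU2, hd, hc1, hc2⟩ := hins
        by_cases hins1 : ∀ X ⊆ U1, ∀ Y ⊆ U1, Disjoint X Y →
            ¬ Colb G X (2 ^ 49 * a - (2 ^ 44 * a + 8000000 * a) - (2 ^ 44 * a + 8000000 * a)) →
            Colb G Y (2 ^ 49 * a - (2 ^ 44 * a + 8000000 * a) - (2 ^ 44 * a + 8000000 * a))
        · exact case_insep ha hU hR hRa hU1 (by omega) hc1 hsmall hins1
        · push Not at hins1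
          obtain ⟨X, hX, Y, hY, hXY, hcX, hcY⟩ := hins1
          have hcU2 : ¬ Colb G U2 (2 ^ 49 * a - (2 ^ 44 * a + 8000000 * a) - (2 ^ 44 * a + 8000000 * a)) :=
            fun hc => hc2 (colb_mono hc (le_refl U2) (Nat.sub_le _ _))
          have hXU2 : Disjoint X U2 := Finset.disjoint_of_subset_left hX hd
          have hYU2 : Disjoint Y U2 := Finset.disjoint_of_subset_left hY hd
          refine case_sep ha hU hR hRa ![X, Y, U2] ?_ ?_ ?_
            (k := 2 ^ 49 * a - (2 ^ 44 * a + 8000000 * a) - (2 ^ 44 * a + 8000000 * a)) ?_ ?_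
          · intro q
            fin_cases q
            · exact hX.trans hU1
            · exact hY.trans hU1
            · exact hU2
          · intro q q' hqq
            fin_cases q <;> fin_cases q'
            · exact absurd rfl hqq
            · exact hXY
            · exact hXU2
            · exact hXY.symm
            · exact absurd rfl hqq
            · exact hYU2
            · exact hXU2.symm
            · exact hYU2.symm
            · exact absurd rfl hqq
          · intro q
            fin_cases q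
            · exact hcX
            · exact hcY
            · exact hcU2
          · omega
          · intro Z _ hZ hZc
            exact IH (a - a / 3) (by omega) Z hZ hZc

/-- **MAIN THEOREM.**  `gn` in `univ` with `m = 2000000 p`, `c = 2 ^ 50 p - 1`; `rooted`, any `p` vertices, `RS.scheme`. -/
theorem linear (G : SimpleGraph V) (p : ℕ) (hp : 0 < p) (h : ¬ Colb G Finset.univ (2 ^ 50 * p - 1)) :
    Scheme G p := by
  obtain ⟨U, -, hUm, hUc⟩ := gn (m := 2000000 * p) (by omega) (by omega) h
  have hRt : Rt G U p := rooted G p U hUm (fun hc => hUc (colb_mono hc (le_refl U) (by omega)))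
  have hbig := hUm.big
  obtain ⟨R, hRU, hRc⟩ := Finset.exists_subset_card_eq (s := U) (n := p) (by omega)
  exact (hRt R hRU hRc.le).scheme hRc

end Pool.MP_a862e4_co.LS
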