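import Pool.Agent.W_a862e4_ls.Fct

/-!
Sections 1.2, 1.3: connected sets are linked and knitted.
-/

set_option autoImplicit false
set_option linter.unusedSectionVars false

namespace Pool.MP_a862e4_co.LS

open Pool.MP_4929df_co.H91 Pool.MP_a862e4_co.H18
open scoped Classical

variable {V : Type*} [Fintype V]

/-- the separation `A = {v} ∪ N(v)`, `B = U \ {v}` -/
theorem Mc.deg {G : SimpleGraph V} {m : ℕ} {U : Finset V} (h : Mc G m U) {v : V} (hv : v ∈ U) :
    m ≤ (nb G U v).card := by
  by_contra hlt
  push Not at hlt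
  have hsep : Sep G U (insert v (nb G U v)) (U \ {v}) := by
    constructor
    · ext w
      simp only [Finset.mem_union, Finset.mem_insert, mem_nbf, Finset.mem_sdiff,
        Finset.mem_singleton]
      constructor
      · rintro ((h1 | h1) | h1)
        · rw [h1]; exact hv
        · exact h1.1
        · exact h1.1
      · intro h1
        by_cases h2 : w = v
        · exact Or.inl (Or.inl h2)
        · exact Or.inr ⟨h1, h2⟩
    · intro a ha haB b hb hbA hab
      have hav : a = v := by
        by_contra hne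
        apply haB
        rw [Finset.mem_sdiff, Finset.mem_singleton]
        rcases Finset.mem_insert.1 ha with h1 | h1
        · exact absurd h1 hne
        · exact ⟨(mem_nbf.1 h1).1, hne⟩
      apply hbA
      rw [Finset.mem_insert, mem_nbf]
      refine Or.inr ⟨(Finset.mem_sdiff.1 hb).1, ?_⟩
      rw [← hav]
      exact hab
  have hcard : (insert v (nb G U v) ∩ (U \ {v})).card < m := by
    refine lt_of_le_of_lt (Finset.card_le_card ?_) hlt
    intro w hw
    rw [Finset.mem_inter, Finset.mem_sdiff, Finset.mem_singleton] at hw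
    rcases Finset.mem_insert.1 hw.1 with h1 | h1
    · exact absurd h1 hw.2.2
    · exact h1
  rcases h.sep _ _ hsep hcard with h1 | h1
  · have h2 := h1 (Finset.mem_insert_self v _)
    rw [Finset.mem_sdiff, Finset.mem_singleton] at h2
    exact h2.2 rfl
  · have h2 : U ⊆ insert v (nb G U v) := by
      intro w hw
      by_cases hwv : w = v
      · rw [hwv]; exact Finset.mem_insert_self v _
      · exact h1 (by rw [Finset.mem_sdiff, Finset.mem_singleton]; exact ⟨hw, hwv⟩)
    have h3 := Finset.card_le_card h2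
    have h4 := Finset.card_insert_le v (nb G U v)
    have h5 := h.big
    omega

/-- `G[U]` is connected if `0 < m` (a closed proper nonempty subset gives a separation of order `0`) -/
theorem Mc.cn {G : SimpleGraph V} {m : ℕ} {U : Finset V} (h : Mc G m U) (hm : 0 < m) :
    Cn G (U : Set V) := by
  have hne : U.Nonempty := Finset.card_pos.1 (lt_trans hm h.big)
  refine ⟨by exact_mod_cast hne, fun A hA hAne hcl => ?_⟩
  have hmem : ∀ w, w ∈ U.filter (fun w => w ∈ A) ↔ w ∈ A := by
    intro w
    rw [Finset.mem_filter]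
    exact ⟨fun h1 => h1.2, fun h1 => ⟨hA h1, h1⟩⟩
  have hsep : Sep G U (U.filter (fun w => w ∈ A)) (U \ U.filter (fun w => w ∈ A)) := by
    constructor
    · exact Finset.union_sdiff_of_subset (Finset.filter_subset _ _)
    · intro a ha _ b hb hbA hab
      apply hbA
      rw [hmem]
      exact hcl a ((hmem a).1 ha) b (by exact_mod_cast (Finset.mem_sdiff.1 hb).1) hab
  have hcard : (U.filter (fun w => w ∈ A) ∩ (U \ U.filter (fun w => w ∈ A))).card < m := by
    rw [Finset.inter_sdiff_self, Finset.card_empty]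
    exact hm
  rcases h.sep _ _ hsep hcard with h1 | h1
  · obtain ⟨a, ha⟩ := hAne
    have h2 := h1 ((hmem a).2 ha)
    exact absurd ((hmem a).2 ha) (Finset.mem_sdiff.1 h2).2
  · refine Set.Subset.antisymm hA fun w hw => ?_
    by_contra hwA
    have h2 : w ∈ U \ U.filter (fun w => w ∈ A) := by
      rw [Finset.mem_sdiff, hmem]
      exact ⟨by exact_mod_cast hw, hwA⟩
    exact hwA ((hmem w).1 (h1 h2))

/-- (1.2) `menger_sep`, `linked_of_fin` -/
theorem Mc.linked {G : SimpleGraph V} {m : ℕ} {U Y D : Finset V} (h : Mc G m U) (hY : Y ⊆ U)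
    (hD : D ⊆ U) (hYm : Y.card ≤ m) (hYD : Y.card ≤ D.card) : Linked G U Y D := by
  obtain ⟨Q, hQ, hd⟩ := menger_sep G U Y D hY hD Y.card (by
    intro A B hs hYA hDB
    by_contra hlt
    push Not at hlt
    rcases h.sep A B hs (lt_of_lt_of_le hlt hYm) with h1 | h1
    · have h2 : Y ⊆ A ∩ B := fun w hw => Finset.mem_inter.2 ⟨hYA hw, h1 (hYA hw)⟩
      exact absurd (Finset.card_le_card h2) (not_le.2 hlt)
    · have h2 : D ⊆ A ∩ B := fun w hw => Finset.mem_inter.2 ⟨h1 (hDB hw), hDB hw⟩
      exact absurd (hYD.trans (Finset.card_le_card h2)) (not_le.2 hlt))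
  exact linked_of_fin G U Y D Q hQ hd

/-- (1.3) `knit` with `l = 40 * Y.card`, `x = Y.card`; `StB_sum` -/
theorem Mc.knit {G : SimpleGraph V} {m : ℕ} {U Y : Finset V} (h : Mc G m U) (hY : Y ⊆ U)
    (hm : 80 * Y.card < m) : Knitted G U Y := by
  refine Pool.MP_a862e4_co.H18.knit G (40 * Y.card) Y.card le_rfl U Y hY le_rfl ⟨?_, ?_⟩
  · have h1 : ∑ z ∈ U \ Y, (nb G U z).card ≤ ed G U Y :=
      StB_sum Finset.sdiff_subset (fun z hz => (Finset.mem_sdiff.1 hz).2)
    have h2 : (U \ Y).card * (80 * Y.card + 1) ≤ ∑ z ∈ U \ Y, (nb G U z).card := by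
      rw [← smul_eq_mul]
      refine Finset.card_nsmul_le_sum _ _ _ fun z hz => ?_
      exact le_trans hm (h.deg (Finset.mem_sdiff.1 hz).1)
    have h3 : 0 < (U \ Y).card := by
      have h4 := Finset.card_sdiff_add_card_inter U Y
      have h5 := Finset.card_le_card (Finset.inter_subset_right : U ∩ Y ⊆ Y)
      have h6 := h.big
      omega
    refine lt_of_lt_of_le ?_ (h2.trans h1)
    calc 2 * (40 * Y.card) * (U \ Y).card < (U \ Y).card * (80 * Y.card) + (U \ Y).card := by
          have h7 : 2 * (40 * Y.card) * (U \ Y).card = (U \ Y).card * (80 * Y.card) := by ring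
          omega
      _ = (U \ Y).card * (80 * Y.card + 1) := by ring
  · intro A B hs hYA hlt
    rcases h.sep A B hs (by omega) with h1 | h1
    · have h2 : Y ⊆ A ∩ B := fun w hw => Finset.mem_inter.2 ⟨hYA hw, h1 (hYA hw)⟩
      exact absurd (Finset.card_le_card h2) (not_le.2 hlt)
    · have h2 : A ∩ B = B := Finset.inter_eq_right.2 h1
      have h3 : ed G B (A ∩ B) = 0 := by
        rw [h2]
        unfold ed
        rw [Finset.card_eq_zero, Finset.filter_eq_empty_iff]
        intro p hp h4
        rw [Finset.mem_product] at hp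
        exact h4.2 hp
      rw [h3]
      exact Nat.zero_le _

end Pool.MP_a862e4_co.LS
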