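import Pool.Agent.W_a862e4_ls.Fct

/-!
Section 1.5: connected subsets which are almost bipartite.
-/

set_option autoImplicit false
set_option linter.unusedSectionVars false

namespace Pool.MP_a862e4_co.LS

open Pool.MP_4929df_co.H91 Pool.MP_a862e4_co.H18
open scoped Classical

variable {V : Type*} [Fintype V]

/-- a sequence from `t` in `W \ W'` to a neighbour of `W'` -/
private def Shr_P (G : SimpleGraph V) (W W' : Finset V) (t : V) (n : ℕ) (p : ℕ → V) : Prop :=
  p 0 = t ∧ (∀ i ≤ n, p i ∈ W ∧ p i ∉ W') ∧ (∀ i < n, G.Adj (p i) (p (i + 1))) ∧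
    ∃ w ∈ W', G.Adj (p n) w

private theorem Shr_exists {G : SimpleGraph V} {W W' : Finset V} (hW : Cn G (W : Set V))
    (hsub : W' ⊆ W) (hW' : W'.Nonempty) {t : V} (ht : t ∈ W) (ht' : t ∉ W') :
    ∃ n p, Shr_P G W W' t n p := by
  obtain ⟨A, hA⟩ : ∃ A : Set V, A = {x | ∃ (n : ℕ) (p : ℕ → V), p 0 = t ∧ p n = x ∧
    (∀ i ≤ n, p i ∈ W ∧ p i ∉ W') ∧ ∀ i < n, G.Adj (p i) (p (i + 1))} := ⟨_, rfl⟩
  have hAW : A ⊆ (W : Set V) := by
    intro x hx
    rw [hA] at hx
    obtain ⟨n, p, _, h2, h3, _⟩ := hx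
    have := (h3 n le_rfl).1
    rw [h2] at this
    exact this
  have hAW' : ∀ x ∈ A, x ∉ W' := by
    intro x hx
    rw [hA] at hx
    obtain ⟨n, p, _, h2, h3, _⟩ := hx
    have := (h3 n le_rfl).2
    rw [h2] at this
    exact this
  have htA : t ∈ A := by
    rw [hA]
    refine ⟨0, fun _ => t, rfl, rfl, fun i _ => ⟨ht, ht'⟩, fun i hi => absurd hi (Nat.not_lt_zero i)⟩
  have hne : A ≠ (W : Set V) := by
    intro h
    obtain ⟨w, hw⟩ := hW'
    have h1 : w ∈ A := by
      rw [h]
      exact hsub hw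
    exact hAW' w h1 hw
  obtain ⟨a, ha, b, hb, hbA, hab⟩ := hW.exists_adj hAW ⟨t, htA⟩ hne
  have hbW' : b ∈ W' := by
    by_contra hbW'
    apply hbA
    rw [hA] at ha ⊢
    obtain ⟨n, p, h1, h2, h3, h4⟩ := ha
    refine ⟨n + 1, fun k => if k ≤ n then p k else b, ?_, ?_, ?_, ?_⟩
    · show (if 0 ≤ n then p 0 else b) = t
      rw [if_pos (Nat.zero_le n), h1]
    · show (if n + 1 ≤ n then p (n + 1) else b) = b
      rw [if_neg (by omega)]
    · intro i hi
      show (if i ≤ n then p i else b) ∈ W ∧ (if i ≤ n then p i else b) ∉ W'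
      by_cases hin : i ≤ n
      · rw [if_pos hin]
        exact h3 i hin
      · rw [if_neg hin]
        exact ⟨hb, hbW'⟩
    · intro i hi
      show G.Adj (if i ≤ n then p i else b) (if i + 1 ≤ n then p (i + 1) else b)
      by_cases hin : i + 1 ≤ n
      · rw [if_pos (by omega), if_pos hin]
        exact h4 i (by omega)
      · have : i = n := by omega
        rw [if_pos (by omega), if_neg hin, this, h2]
        exact hab
  have ha2 := ha
  rw [hA] at ha2
  obtain ⟨n, p, h1, h2, h3, h4⟩ := ha2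
  exact ⟨n, p, h1, h3, h4, b, hbW', by rw [h2]; exact hab⟩

/-- a shortest sequence has no chords -/
private theorem Shr_chord {G : SimpleGraph V} {W W' : Finset V} {t : V} {n : ℕ} {p : ℕ → V}
    (hp : Shr_P G W W' t n p) (hmin : ∀ k < n, ∀ q, ¬ Shr_P G W W' t k q) {i j : ℕ} (hj : j ≤ n)
    (hij : i + 1 < j) (hadj : G.Adj (p i) (p j)) : False := by
  obtain ⟨h1, h3, h4, w, hw, h5⟩ := hp
  refine hmin (n - (j - i - 1)) (by omega) (fun k => if k ≤ i then p k else p (k + (j - i - 1))) ?_
  refine ⟨?_, ?_, ?_, w, hw, ?_⟩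
  · show (if 0 ≤ i then p 0 else p (0 + (j - i - 1))) = t
    rw [if_pos (Nat.zero_le i), h1]
  · intro k hk
    show (if k ≤ i then p k else p (k + (j - i - 1))) ∈ W ∧
      (if k ≤ i then p k else p (k + (j - i - 1))) ∉ W'
    by_cases hki : k ≤ i
    · rw [if_pos hki]
      exact h3 k (by omega)
    · rw [if_neg hki]
      exact h3 _ (by omega)
  · intro k hk
    show G.Adj (if k ≤ i then p k else p (k + (j - i - 1)))
      (if k + 1 ≤ i then p (k + 1) else p (k + 1 + (j - i - 1)))
    rcases lt_trichotomy k i with hki | hki | hki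
    · rw [if_pos hki.le, if_pos (by omega)]
      exact h4 k (by omega)
    · have e1 : i + 1 + (j - i - 1) = j := by omega
      rw [hki, if_pos le_rfl, if_neg (by omega), e1]
      exact hadj
    · have e1 : k + 1 + (j - i - 1) = k + (j - i - 1) + 1 := by omega
      rw [if_neg (by omega), if_neg (by omega), e1]
      exact h4 _ (by omega)
  · show G.Adj (if n - (j - i - 1) ≤ i then p (n - (j - i - 1))
      else p (n - (j - i - 1) + (j - i - 1))) w
    have e1 : n - (j - i - 1) + (j - i - 1) = n := by omega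
    rw [if_neg (by omega), e1]
    exact h5

/-- One new terminal.  `W' ⊂ W` connected, `t ∈ W \ W'`: a shortest sequence `p 0 = t, …, p n` of vertices of `W \ W'`, consecutive ones
adjacent, such that `p n` has a neighbour in `W'` (it exists: the component of `t` in `W \ W'` has an edge to `W'` because `W` is
connected; `Nat.find` for the minimal `n`).  By minimality `p` is injective on `[0, n]`, `p i ~ p j` only for `|i - j| = 1`, and `p i`
(`i < n`) has no neighbour in `W'`. -/
theorem shr_path {G : SimpleGraph V} {W W' : Finset V} (hW : Cn G (W : Set V)) (hsub : W' ⊆ W)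
    (hW' : W'.Nonempty) {t : V} (ht : t ∈ W) (ht' : t ∉ W') :
    ∃ (n : ℕ) (p : ℕ → V), p 0 = t ∧ (∀ i ≤ n, p i ∈ W ∧ p i ∉ W') ∧
      (∀ i < n, G.Adj (p i) (p (i + 1))) ∧ (∃ w ∈ W', G.Adj (p n) w) ∧
      (∀ i ≤ n, ∀ j ≤ n, p i = p j → i = j) ∧
      (∀ i ≤ n, ∀ j ≤ n, G.Adj (p i) (p j) → j = i + 1 ∨ i = j + 1) ∧
      ∀ i < n, ∀ w ∈ W', ¬ G.Adj (p i) w := by
  have hex : ∃ n, ∃ p, Shr_P G W W' t n p := Shr_exists hW hsub hW' ht ht'
  obtain ⟨n, hn⟩ : ∃ n, n = Nat.find hex := ⟨_, rfl⟩
  obtain ⟨p, hp⟩ : ∃ p, Shr_P G W W' t n p := by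
    rw [hn]
    exact Nat.find_spec hex
  have hmin : ∀ k < n, ∀ q, ¬ Shr_P G W W' t k q := by
    intro k hk q hq
    rw [hn] at hk
    exact Nat.find_min hex hk ⟨q, hq⟩
  have hp0 := hp
  obtain ⟨h1, h3, h4, w, hw, h5⟩ := hp
  have hno : ∀ i < n, ∀ w ∈ W', ¬ G.Adj (p i) w := by
    intro i hi w' hw' hadj
    exact hmin i hi p ⟨h1, fun k hk => h3 k (by omega), fun k hk => h4 k (by omega), w', hw', hadj⟩
  have hchord : ∀ i j, j ≤ n → i < j → G.Adj (p i) (p j) → j = i + 1 := by
    intro i j hj hij hadj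
    by_contra hne
    exact Shr_chord hp0 hmin hj (by omega) hadj
  have hinj : ∀ i j, j ≤ n → i < j → p i ≠ p j := by
    intro i j hj hij heq
    rcases Nat.lt_or_ge j n with hjn | hjn
    · have h6 := h4 j hjn
      rw [← heq] at h6
      have := hchord i (j + 1) hjn (by omega) h6
      omega
    · have hjn' : j = n := by omega
      rw [hjn'] at heq
      rw [← heq] at h5
      exact hno i (by omega) w hw h5
  refine ⟨n, p, h1, h3, h4, ⟨w, hw, h5⟩, ?_, ?_, hno⟩
  · intro i hi j hj heq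
    rcases lt_trichotomy i j with h | h | h
    · exact absurd heq (hinj i j hj h)
    · exact h
    · exact absurd heq.symm (hinj j i hi h)
  · intro i hi j hj hadj
    rcases lt_trichotomy i j with h | h | h
    · exact Or.inl (hchord i j hj h hadj)
    · rw [h] at hadj
      exact absurd hadj (G.irrefl)
    · exact Or.inr (hchord j i hi h hadj.symm)

private theorem Shr_cn {G : SimpleGraph V} (p : ℕ → V) (n : ℕ)
    (h : ∀ i < n, G.Adj (p i) (p (i + 1))) :
    Cn G (((Finset.range (n + 1)).image p : Finset V) : Set V) := by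
  induction n with
  | zero =>
    rw [zero_add, Finset.range_one, Finset.image_singleton, Finset.coe_singleton]
    exact cn_singleton G (p 0)
  | succ n ih =>
    rw [Finset.range_add_one, Finset.image_insert, Finset.coe_insert]
    refine (ih fun i hi => h i (by omega)).insert (a := p n) ?_ (h n (by omega))
    rw [Finset.mem_coe, Finset.mem_image]
    exact ⟨n, Finset.mem_range.2 (by omega), rfl⟩

private theorem Shr_step {G : SimpleGraph V} {W W' E T : Finset V} (hW : Cn G (W : Set V)) {t : V}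
    (ht : t ∈ W) (htW' : t ∉ W') (h1 : W' ⊆ W) (h2 : T ⊆ W') (h3 : Cn G (W' : Set V))
    (h4 : E.card ≤ T.card) (h5 : Colb G (W' \ E) 2) :
    ∃ W'' E' : Finset V, W'' ⊆ W ∧ insert t T ⊆ W'' ∧ Cn G (W'' : Set V) ∧
      E'.card ≤ T.card + 1 ∧ Colb G (W'' \ E') 2 := by
  have hne : W'.Nonempty := by
    obtain ⟨x, hx⟩ := h3.1
    exact ⟨x, hx⟩
  obtain ⟨n, p, p0, pW, pa, ⟨w, hw, pw⟩, pinj, pch, pno⟩ := shr_path hW h1 hne ht htW'
  obtain ⟨c, hc⟩ := h5
  have hf : ∃ f : V → ℕ, ∀ i ≤ n, f (p i) = i := by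
    refine ⟨fun x => if h : ∃ i ≤ n, p i = x then h.choose else 0, fun i hi => ?_⟩
    have h : ∃ j ≤ n, p j = p i := ⟨i, hi, rfl⟩
    show (if h : ∃ j ≤ n, p j = p i then h.choose else 0) = i
    rw [dif_pos h]
    exact pinj _ h.choose_spec.1 i hi h.choose_spec.2
  obtain ⟨f, hf⟩ := hf
  refine ⟨W' ∪ (Finset.range (n + 1)).image p, insert (p n) E, ?_, ?_, ?_, ?_, ?_⟩
  · refine Finset.union_subset h1 fun x hx => ?_
    obtain ⟨i, hi, rfl⟩ := Finset.mem_image.1 hx
    exact (pW i (by have := Finset.mem_range.1 hi; omega)).1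
  · refine Finset.insert_subset ?_ (h2.trans Finset.subset_union_left)
    refine Finset.mem_union_right _ (Finset.mem_image.2 ⟨0, Finset.mem_range.2 (by omega), p0⟩)
  · rw [Finset.coe_union]
    refine h3.union_adj (Shr_cn p n pa) (a := w) (b := p n) hw ?_ pw.symm
    rw [Finset.mem_coe, Finset.mem_image]
    exact ⟨n, Finset.mem_range.2 (by omega), rfl⟩
  · have := Finset.card_insert_le (p n) E
    omega
  · refine ⟨fun x => if x ∈ W' then c x else ⟨f x % 2, Nat.mod_lt _ two_pos⟩, ?_⟩
    have hmem : ∀ x, x ∈ (W' ∪ (Finset.range (n + 1)).image p) \ insert (p n) E → x ∉ W' →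
        ∃ i < n, p i = x := by
      intro x hx hxW
      rw [Finset.mem_sdiff, Finset.mem_union, Finset.mem_insert] at hx
      obtain ⟨hx1, hx2⟩ := hx
      rcases hx1 with hx1 | hx1
      · exact absurd hx1 hxW
      · obtain ⟨i, hi, rfl⟩ := Finset.mem_image.1 hx1
        refine ⟨i, ?_, rfl⟩
        have h6 := Finset.mem_range.1 hi
        rcases Nat.lt_or_ge i n with h | h
        · exact h
        · exfalso
          apply hx2
          left
          have : i = n := by omega
          rw [this]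
    have hmem' : ∀ x, x ∈ (W' ∪ (Finset.range (n + 1)).image p) \ insert (p n) E → x ∈ W' →
        x ∈ W' \ E := by
      intro x hx hxW
      rw [Finset.mem_sdiff, Finset.mem_insert] at hx
      rw [Finset.mem_sdiff]
      exact ⟨hxW, fun h => hx.2 (Or.inr h)⟩
    intro x hx y hy hxy
    show (if x ∈ W' then c x else ⟨f x % 2, Nat.mod_lt _ two_pos⟩) ≠
      (if y ∈ W' then c y else ⟨f y % 2, Nat.mod_lt _ two_pos⟩)
    by_cases hxW : x ∈ W' <;> by_cases hyW : y ∈ W'
    · rw [if_pos hxW, if_pos hyW]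
      exact hc x (hmem' x hx hxW) y (hmem' y hy hyW) hxy
    · obtain ⟨j, hj, rfl⟩ := hmem y hy hyW
      exact absurd hxy.symm (pno j hj x hxW)
    · obtain ⟨j, hj, rfl⟩ := hmem x hx hxW
      exact absurd hxy (pno j hj y hyW)
    · rw [if_neg hxW, if_neg hyW]
      obtain ⟨i, hi, rfl⟩ := hmem x hx hxW
      obtain ⟨j, hj, rfl⟩ := hmem y hy hyW
      intro heq
      have h6 := congrArg Fin.val heq
      simp only at h6
      rw [hf i hi.le, hf j hj.le] at h6
      rcases pch i hi.le j hj.le hxy with h | h <;> omega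

/-- (1.5) Induction on `T.card`: one terminal: `W' = {t}`, `E = {t}`; a further terminal `t`: if `t ∈ W'` nothing (`E` grows by `t`),
otherwise add the path of `shr_path` and put `p n` in `E`; colours: on `W' \ E` the old ones, on `p i` (`i < n`) the parity of `i`. -/
theorem shrink {G : SimpleGraph V} {W T : Finset V} (hW : Cn G (W : Set V)) (hT : T ⊆ W)
    (hne : T.Nonempty) : ∃ W' E : Finset V, W' ⊆ W ∧ T ⊆ W' ∧ Cn G (W' : Set V) ∧
      E.card ≤ T.card ∧ Colb G (W' \ E) 2 := by
  induction T using Finset.induction_on with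
  | empty => exact absurd hne Finset.not_nonempty_empty
  | insert t T htT ih =>
    have ht : t ∈ W := hT (Finset.mem_insert_self t T)
    have hTW : T ⊆ W := (Finset.subset_insert t T).trans hT
    rcases T.eq_empty_or_nonempty with h0 | h0
    · subst h0
      refine ⟨{t}, {t}, Finset.singleton_subset_iff.2 ht, ?_, ?_, ?_, ?_⟩
      · rw [insert_empty_eq]
      · rw [Finset.coe_singleton]
        exact cn_singleton G t
      · rw [insert_empty_eq]
      · refine ⟨fun _ => 0, fun x hx => ?_⟩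
        rw [sdiff_self] at hx
        exact absurd hx (Finset.notMem_empty x)
    · obtain ⟨W', E, h1, h2, h3, h4, h5⟩ := ih hTW h0
      by_cases htW' : t ∈ W'
      · refine ⟨W', E, h1, Finset.insert_subset htW' h2, h3, ?_, h5⟩
        exact h4.trans (Finset.card_le_card (Finset.subset_insert t T))
      · obtain ⟨W'', E', g1, g2, g3, g4, g5⟩ := Shr_step hW ht htW' h1 h2 h3 h4 h5
        refine ⟨W'', E', g1, g2, g3, ?_, g5⟩
        rw [Finset.card_insert_of_notMem htT]
        exact g4

end Pool.MP_a862e4_co.LS
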