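import Pool.Agent.W_a862e4_ls.FanB
import Pool.Agent.W_a862e4_ls.GnB
import Pool.Agent.W_a862e4_ls.Shr

/-!
Section 3.2: the routing lemma.
-/

set_option autoImplicit false
set_option linter.unusedSectionVars false

namespace Pool.MP_a862e4_co.LS

open Pool.MP_4929df_co.H91 Pool.MP_a862e4_co.H18
open scoped Classical

variable {V : Type*} [Fintype V]

/-- the cheap switch `H` with a cheap linkage from `Y` to it.  `V1 ⊆ U \ Y` from `exists_critical` with `8 * (500 y)` colours, `H` from `gn` with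
`m = 500 y` (so `H` is `(4000 y + 1)`-colourable); `Mc.linked` from `Y` to `H`; every `Q t` is replaced by the set of `shrink` for
`{t, m t}` (so it is `4`-colourable: `colb_union`, `colb_card`); the union of `H` and all `Q t` is `(4100 y)`-colourable
(`colb_biUnion`). -/
theorem route_switch {G : SimpleGraph V} {M y c : ℕ} {U Y : Finset V} (hy : 0 < y) (hU : Mc G M U)
    (hM : 500 * y ≤ M) (hY : Y ⊆ U) (hYy : Y.card ≤ y) (hc : 5000 * y ≤ c) (h : ¬ Colb G U c) :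
    ∃ H T : Finset V, H ⊆ U ∧ Disjoint H Y ∧ Mc G (500 * y) H ∧ T ⊆ U ∧ H ⊆ T ∧ Y ⊆ T ∧
      Colb G T (4100 * y) ∧ Linked G T Y H := by
  have h1 : ¬ Colb G (U \ Y) (8 * (500 * y)) := by
    intro h2
    exact h (colb_mono (colb_add h2 (by omega) hYy) (Finset.Subset.refl U) (by omega))
  obtain ⟨W, hWU, hW1, _, hW2, _⟩ := exists_critical (by omega : 0 < 8 * (500 * y)) h1
  obtain ⟨H, hHW, hHm, _⟩ := gn (by omega : 0 < 500 * y) (le_refl (8 * (500 * y))) hW1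
  have hHUY : H ⊆ U \ Y := hHW.trans hWU
  have hHU : H ⊆ U := hHUY.trans Finset.sdiff_subset
  have hbig := hHm.big
  obtain ⟨Q, m, hQ, hQd⟩ := hU.linked hY hHU (by omega) (by omega)
  have hsh : ∀ t, ∃ W' : Finset V, t ∈ Y → ((W' : Set V) ⊆ Q t ∧ Cn G (W' : Set V) ∧
      t ∈ W' ∧ m t ∈ W' ∧ Colb G W' 4) := by
    intro t
    by_cases ht : t ∈ Y
    · obtain ⟨q1, q2, q3, q4, q5, q6⟩ := hQ t ht
      have hcoe : ((Finset.univ.filter (fun x => x ∈ Q t) : Finset V) : Set V) = Q t := by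
        ext x
        simp
      have hcn : Cn G ((Finset.univ.filter (fun x => x ∈ Q t) : Finset V) : Set V) := by
        rw [hcoe]
        exact q2
      have hT : ({t, m t} : Finset V) ⊆ Finset.univ.filter (fun x => x ∈ Q t) := by
        intro x hx
        rw [Finset.mem_insert, Finset.mem_singleton] at hx
        rw [Finset.mem_filter]
        rcases hx with rfl | rfl
        · exact ⟨Finset.mem_univ _, q3⟩
        · exact ⟨Finset.mem_univ _, q5⟩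
      obtain ⟨W', E, w1, w2, w3, w4, w5⟩ := shrink hcn hT ⟨t, Finset.mem_insert_self _ _⟩
      refine ⟨W', fun _ => ⟨?_, w3, w2 (Finset.mem_insert_self _ _),
        w2 (Finset.mem_insert_of_mem (Finset.mem_singleton_self _)), ?_⟩⟩
      · rw [← hcoe]
        exact_mod_cast w1
      · exact colb_add w5 two_pos (w4.trans Finset.card_le_two)
    · exact ⟨∅, fun h => absurd h ht⟩
  choose F hF using hsh
  have hFU : ∀ t ∈ Y, F t ⊆ U := by
    intro t ht x hx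
    exact (hQ t ht).1 ((hF t ht).1 hx)
  refine ⟨H, H ∪ Y.biUnion F, hHU, ?_, hHm, ?_, Finset.subset_union_left, ?_, ?_, fun t => (F t : Set V), m, ?_, ?_⟩
  · exact Finset.disjoint_of_subset_left hHUY Finset.sdiff_disjoint
  · exact Finset.union_subset hHU (Finset.biUnion_subset.2 hFU)
  · intro t ht
    exact Finset.mem_union_right _ (Finset.mem_biUnion.2 ⟨t, ht, (hF t ht).2.2.1⟩)
  · have h3 := colb_union (colb_mono hW2 hHW (le_refl _))
      (colb_biUnion (s := Y) (f := F) four_pos (fun x hx => (hF x hx).2.2.2.2) hYy hy)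
    exact colb_mono h3 (Finset.Subset.refl _) (by omega)
  · intro t ht
    obtain ⟨f1, f2, f3, f4, _⟩ := hF t ht
    obtain ⟨q1, q2, q3, q4, q5, q6⟩ := hQ t ht
    refine ⟨?_, f2, f3, q4, f4, fun w hw hwH => q6 w (f1 hw) hwH⟩
    intro x hx
    exact Finset.mem_coe.2 (Finset.mem_union_right _ (Finset.mem_biUnion.2 ⟨t, ht, hx⟩))
  · intro t ht z hz htz
    exact Set.disjoint_of_subset (hF t ht).1 (hF z hz).1 (hQd t ht z hz htz)

/-- assembling: `fan` and the knitted set `H`.  Entry points `m t` (`t ∈ Y`) and `h i` (`i < a`) in `H`: at most `2 y` different vertices,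
`Mc.knit` with `80 * (2 y) < 500 y`, labels `g t` at `m t`, `i` at `h i`;
`K i` = the knitted set of label `i`, the `Q t` with `g t = i` and (for `i < a`) `D i` (`Cn.union_iUnion`). -/
theorem route_glue {G : SimpleGraph V} {M a y : ℕ} {U Y H Z : Finset V} (hy : 0 < y) (hay : a ≤ y)
    (hU : Mc G M U) (hM : 500 * y ≤ M) (hYy : Y.card ≤ y) (hH : H ⊆ U) (hHm : Mc G (500 * y) H)
    (hZ : Z ⊆ U) (hd : Disjoint H Z) (hYZ : Y ⊆ U \ Z) (hZc : 3 * y ≤ Z.card)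
    (hL : Linked G (U \ Z) Y H) (g : V → ℕ) :
    ∃ (K : ℕ → Set V) (e : ℕ → V), (∀ i, K i ⊆ (U : Set V)) ∧ (∀ i, K i = ∅ ∨ Cn G (K i)) ∧
      (∀ i j, i ≠ j → Disjoint (K i) (K j)) ∧ (∀ t ∈ Y, t ∈ K (g t)) ∧
      (∀ i < a, e i ∈ K i ∧ e i ∈ Z ∧ ∀ w ∈ K i, w ∈ Z → w = e i) ∧
      ∀ i, a ≤ i → ∀ w ∈ K i, w ∉ Z := by
  have hbig := hHm.big
  obtain ⟨Q, m, D, e, h, hQ, hD, hQQ, hDD, hQD⟩ :=
    fan (a := a) hU hH hZ hd hYZ (by omega) (by omega) (by omega) hL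
  have hEH : Y.image m ∪ (Finset.range a).image h ⊆ H := by
    intro x hx
    rcases Finset.mem_union.1 hx with hx | hx
    · obtain ⟨t, ht, rfl⟩ := Finset.mem_image.1 hx
      exact (hQ t ht).2.2.2.1
    · obtain ⟨i, hi, rfl⟩ := Finset.mem_image.1 hx
      exact (hD i (Finset.mem_range.1 hi)).2.2.2.2.2.1
  have hEc : (Y.image m ∪ (Finset.range a).image h).card ≤ y + a := by
    refine (Finset.card_union_le _ _).trans (Nat.add_le_add (Finset.card_image_le.trans hYy) ?_)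
    refine Finset.card_image_le.trans ?_
    rw [Finset.card_range]
  have hmm : ∀ t ∈ Y, ∀ t' ∈ Y, m t = m t' → t = t' := by
    intro t ht t' ht' heq
    by_contra hne
    exact Set.disjoint_left.1 (hQQ t ht t' ht' hne) (hQ t ht).2.2.2.2.1
      (by rw [heq]; exact (hQ t' ht').2.2.2.2.1)
  have hhh : ∀ i < a, ∀ j < a, h i = h j → i = j := by
    intro i hi j hj heq
    by_contra hne
    exact Set.disjoint_left.1 (hDD i hi j hj hne) (hD i hi).2.2.2.2.2.2.1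
      (by rw [heq]; exact (hD j hj).2.2.2.2.2.2.1)
  have hmh : ∀ t ∈ Y, ∀ i < a, m t ≠ h i := by
    intro t ht i hi heq
    exact Set.disjoint_left.1 (hQD t ht i hi) (hQ t ht).2.2.2.2.1
      (by rw [heq]; exact (hD i hi).2.2.2.2.2.2.1)
  obtain ⟨gl, hgl1, hgl2⟩ : ∃ gl : V → ℕ, (∀ t ∈ Y, gl (m t) = g t) ∧ ∀ i < a, gl (h i) = i := by
    refine ⟨fun v => if hv : ∃ t ∈ Y, m t = v then g hv.choose else
      if hw : ∃ i < a, h i = v then hw.choose else 0, ?_, ?_⟩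
    · intro t ht
      have hv : ∃ t' ∈ Y, m t' = m t := ⟨t, ht, rfl⟩
      show (if hv : ∃ t' ∈ Y, m t' = m t then g hv.choose else
        if hw : ∃ i < a, h i = m t then hw.choose else 0) = g t
      rw [dif_pos hv, hmm _ hv.choose_spec.1 t ht hv.choose_spec.2]
    · intro i hi
      have hv : ¬ ∃ t' ∈ Y, m t' = h i := by
        rintro ⟨t, ht, heq⟩
        exact hmh t ht i hi heq
      have hw : ∃ j < a, h j = h i := ⟨i, hi, rfl⟩
      show (if hv : ∃ t' ∈ Y, m t' = h i then g hv.choose else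
        if hw : ∃ j < a, h j = h i then hw.choose else 0) = i
      rw [dif_neg hv, dif_pos hw]
      exact hhh _ hw.choose_spec.1 i hi hw.choose_spec.2
  obtain ⟨K0, k1, k2, k3, k4⟩ := (hHm.knit hEH (by omega)) gl
  have kQ : ∀ t ∈ Y, m t ∈ K0 (g t) := by
    intro t ht
    have := k4 (m t) (Finset.mem_union_left _ (Finset.mem_image_of_mem m ht))
    rwa [hgl1 t ht] at this
  have kD : ∀ i < a, h i ∈ K0 i := by
    intro i hi
    have := k4 (h i) (Finset.mem_union_right _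
      (Finset.mem_image_of_mem h (Finset.mem_range.2 hi)))
    rwa [hgl2 i hi] at this
  obtain ⟨K, hK⟩ : ∃ K : ℕ → Set V, K = fun i =>
    K0 i ∪ ⋃₀ {S | (∃ t ∈ Y, g t = i ∧ S = Q t) ∨ (i < a ∧ S = D i)} := ⟨_, rfl⟩
  have hmem : ∀ i w, w ∈ K i ↔ w ∈ K0 i ∨ (∃ t ∈ Y, g t = i ∧ w ∈ Q t) ∨ (i < a ∧ w ∈ D i) := by
    intro i w
    rw [hK]
    constructor
    · rintro (hw | ⟨S, hS | hS, hw⟩)
      · exact Or.inl hw
      · obtain ⟨t, ht, ht2, rfl⟩ := hS
        exact Or.inr (Or.inl ⟨t, ht, ht2, hw⟩)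
      · obtain ⟨hi, rfl⟩ := hS
        exact Or.inr (Or.inr ⟨hi, hw⟩)
    · rintro (hw | ⟨t, ht, ht2, hw⟩ | ⟨hi, hw⟩)
      · exact Or.inl hw
      · exact Or.inr ⟨Q t, Or.inl ⟨t, ht, ht2, rfl⟩, hw⟩
      · exact Or.inr ⟨D i, Or.inr ⟨hi, rfl⟩, hw⟩
  have qH : ∀ t ∈ Y, ∀ i, ∀ w ∈ Q t, w ∈ K0 i → g t = i := by
    intro t ht i w hw hwi
    by_contra hne
    have h1 := (hQ t ht).2.2.2.2.2 w hw (k1 i hwi)
    rw [h1] at hwi
    exact Set.disjoint_left.1 (k3 _ _ hne) (kQ t ht) hwi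
  have dH : ∀ j < a, ∀ i, ∀ w ∈ D j, w ∈ K0 i → j = i := by
    intro j hj i w hw hwi
    by_contra hne
    have h1 := (hD j hj).2.2.2.2.2.2.2 w hw (k1 i hwi)
    rw [h1] at hwi
    exact Set.disjoint_left.1 (k3 _ _ hne) (kD j hj) hwi
  have hHZ : ∀ i, ∀ w ∈ K0 i, w ∉ Z := fun i w hw hwZ =>
    Finset.disjoint_left.1 hd (k1 i hw) hwZ
  have hQZ : ∀ t ∈ Y, ∀ w ∈ Q t, w ∉ Z := fun t ht w hw hwZ =>
    (Finset.mem_sdiff.1 ((hQ t ht).1 hw)).2 hwZ
  refine ⟨K, e, ?_, ?_, ?_, ?_, ?_, ?_⟩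
  · intro i w hw
    rcases (hmem i w).1 hw with hw | ⟨t, ht, _, hw⟩ | ⟨hi, hw⟩
    · exact hH (k1 i hw)
    · exact (Finset.mem_sdiff.1 ((hQ t ht).1 hw)).1
    · exact (hD i hi).1 hw
  · intro i
    rcases k2 i with h0 | h0
    · left
      refine Set.eq_empty_iff_forall_notMem.2 fun w hw => ?_
      rcases (hmem i w).1 hw with hw | ⟨t, ht, hti, hw⟩ | ⟨hi, hw⟩
      · rw [h0] at hw
        exact hw
      · have h1 := kQ t ht
        rw [hti, h0] at h1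
        exact h1
      · have h1 := kD i hi
        rw [h0] at h1
        exact h1
    · right
      rw [hK]
      refine h0.union_sUnion ?_
      rintro S (⟨t, ht, hti, rfl⟩ | ⟨hi, rfl⟩)
      · refine ⟨(hQ t ht).2.1, Or.inl ⟨m t, ?_, (hQ t ht).2.2.2.2.1⟩⟩
        rw [← hti]
        exact kQ t ht
      · exact ⟨(hD i hi).2.1, Or.inl ⟨h i, kD i hi, (hD i hi).2.2.2.2.2.2.1⟩⟩
  · intro i j hij
    refine Set.disjoint_left.2 fun w hwi hwj => ?_
    rcases (hmem i w).1 hwi with hwi | ⟨t, ht, hti, hwi⟩ | ⟨hi, hwi⟩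
    · rcases (hmem j w).1 hwj with hwj | ⟨t, ht, htj, hwj⟩ | ⟨hj, hwj⟩
      · exact Set.disjoint_left.1 (k3 i j hij) hwi hwj
      · exact hij ((qH t ht i w hwj hwi).symm.trans htj)
      · exact hij (dH j hj i w hwj hwi).symm
    · rcases (hmem j w).1 hwj with hwj | ⟨t', ht', htj, hwj⟩ | ⟨hj, hwj⟩
      · exact hij (hti.symm.trans (qH t ht j w hwi hwj))
      · have hne : t ≠ t' := by
          rintro rfl
          exact hij (hti.symm.trans htj)
        exact Set.disjoint_left.1 (hQQ t ht t' ht' hne) hwi hwj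
      · exact Set.disjoint_left.1 (hQD t ht j hj) hwi hwj
    · rcases (hmem j w).1 hwj with hwj | ⟨t', ht', htj, hwj⟩ | ⟨hj, hwj⟩
      · exact hij (dH i hi j w hwi hwj)
      · exact Set.disjoint_left.1 (hQD t' ht' i hi) hwj hwi
      · exact Set.disjoint_left.1 (hDD i hi j hj hij) hwi hwj
  · intro t ht
    exact (hmem (g t) t).2 (Or.inr (Or.inl ⟨t, ht, rfl, (hQ t ht).2.2.1⟩))
  · intro i hi
    obtain ⟨d1, d2, d3, d4, d5, d6, d7, d8⟩ := hD i hi
    refine ⟨(hmem i (e i)).2 (Or.inr (Or.inr ⟨hi, d4⟩)), d3, fun w hw hwZ => ?_⟩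
    rcases (hmem i w).1 hw with hw | ⟨t, ht, hti, hw⟩ | ⟨_, hw⟩
    · exact absurd hwZ (hHZ i w hw)
    · exact absurd hwZ (hQZ t ht w hw)
    · exact d5 w hw hwZ
  · intro i hi w hw
    rcases (hmem i w).1 hw with hw | ⟨t, ht, hti, hw⟩ | ⟨hi', hw⟩
    · exact hHZ i w hw
    · exact hQZ t ht w hw
    · omega

/-- **(3.2) ROUTE.**  `route_switch`, `not_colb_sdiff`, `gn` in `U \ T` with `m = M'` gives `Z`; `Z.card > 3 y` by `card_of_not_colb`; the
linkage in `T ⊆ U \ Z` (monotone in the first set); `route_glue`. -/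
theorem route {G : SimpleGraph V} {M M' a y c : ℕ} {U Y : Finset V} (hy : 0 < y) (hay : a ≤ y)
    (hM' : 0 < M') (hU : Mc G M U) (hM : 500 * y ≤ M) (hY : Y ⊆ U) (hYy : Y.card ≤ y)
    (hc : 5000 * y + 12 * M' ≤ c) (h : ¬ Colb G U c) (g : V → ℕ) :
    ∃ Z ⊆ U, Mc G M' Z ∧ ¬ Colb G Z (c - (4100 * y + 4 * M')) ∧
    ∃ (K : ℕ → Set V) (e : ℕ → V), (∀ i, K i ⊆ (U : Set V)) ∧ (∀ i, K i = ∅ ∨ Cn G (K i)) ∧
      (∀ i j, i ≠ j → Disjoint (K i) (K j)) ∧ (∀ t ∈ Y, t ∈ K (g t)) ∧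
      (∀ i < a, e i ∈ K i ∧ e i ∈ Z ∧ ∀ w ∈ K i, w ∈ Z → w = e i) ∧
      ∀ i, a ≤ i → ∀ w ∈ K i, w ∉ Z := by
  obtain ⟨H, T, hHU, hHY, hHm, hTU, hHT, hYT, hTc, Q, m, hQ, hQd⟩ :=
    route_switch hy hU hM hY hYy (by omega) h
  have h1 := not_colb_sdiff h hTc (by omega)
  obtain ⟨Z, hZ, hZm, hZc⟩ := gn hM' (by omega) h1
  rw [Nat.sub_sub] at hZc
  have hcard := card_of_not_colb (by omega) hZc
  have hZU : Z ⊆ U := hZ.trans Finset.sdiff_subset
  have hTZ : T ⊆ U \ Z := by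
    intro x hx
    refine Finset.mem_sdiff.2 ⟨hTU hx, fun hxZ => ?_⟩
    exact (Finset.mem_sdiff.1 (hZ hxZ)).2 hx
  have hL : Linked G (U \ Z) Y H := by
    refine ⟨Q, m, fun t ht => ?_, hQd⟩
    obtain ⟨q1, q2⟩ := hQ t ht
    refine ⟨fun x hx => ?_, q2⟩
    exact hTZ (q1 hx)
  have hd : Disjoint H Z := by
    refine Finset.disjoint_left.2 fun x hx hxZ => ?_
    exact (Finset.mem_sdiff.1 (hZ hxZ)).2 (hHT hx)
  exact ⟨Z, hZU, hZm, hZc, route_glue hy hay hU hM hYy hHU hHm hZU hd (hYT.trans hTZ)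
    (by omega) hL g⟩

end Pool.MP_a862e4_co.LS
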