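import Pool.Agent.W_a862e4_ls.Route

/-!
Section 5 (SEP): processing one piece.
-/

set_option autoImplicit false
set_option linter.unusedSectionVars false

namespace Pool.MP_a862e4_co.LS

open Pool.MP_4929df_co.H91 Pool.MP_a862e4_co.H18
open scoped Classical

variable {V : Type*} [Fintype V]

/-- Entries.  `K` connected, `K ∩ D` nonempty, `t ∈ K`: there are an entry `w ∈ K ∩ D` and a set `Z ⊆ K \ D` with: either `t = w` and `Z = ∅`, or
`Z` is connected, contains `t` and has a vertex adjacent to `w`.  (`t ∈ D`: `w = t`.  Otherwise `Z` the component of `t` in `K \ D` and an edge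
from `Z` to `K \ Z`, its end is in `D`.) -/
theorem entry {G : SimpleGraph V} {K : Set V} {D : Finset V} (hK : Cn G K)
    (hKD : (K ∩ (D : Set V)).Nonempty) {t : V} (ht : t ∈ K) :
    ∃ (w : V) (Z : Set V), w ∈ K ∧ w ∈ D ∧ Z ⊆ K ∧ (∀ z ∈ Z, z ∉ D) ∧
      ((t = w ∧ Z = ∅) ∨ (Cn G Z ∧ t ∈ Z ∧ ∃ z ∈ Z, G.Adj z w)) := by
  by_cases htD : t ∈ D
  · exact ⟨t, ∅, ht, htD, Set.empty_subset _, fun z hz => absurd hz (Set.notMem_empty z),
      Or.inl ⟨rfl, rfl⟩⟩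
  · obtain ⟨Z, hZ, htZ⟩ := exists_comp G (U := K \ (D : Set V)) (u := t) ⟨ht, htD⟩
    have hZK : Z ⊆ K := fun z hz => (hZ.1 hz).1
    have hne : Z ≠ K := by
      rintro rfl
      obtain ⟨z, hz1, hz2⟩ := hKD
      exact (hZ.1 hz1).2 hz2
    obtain ⟨z, hz, w, hw, hwZ, hzw⟩ := hK.exists_adj hZK ⟨t, htZ⟩ hne
    have hwD : w ∈ D := by
      by_contra hcon
      exact hwZ (hZ.2.2 z hz w ⟨hw, hcon⟩ hzw)
    exact ⟨w, Z, hw, hwD, hZK, fun x hx => (hZ.1 hx).2, Or.inr ⟨hZ.2.1, htZ, z, hz, hzw⟩⟩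

/-- an injective labelling of `R` which maps `R'` onto `{0, ..., |R'| - 1}` -/
private theorem SepA_lab {R R' : Finset V} (hR' : R' ⊆ R) :
    ∃ lab : V → ℕ, (∀ x ∈ R', lab x < R'.card) ∧ (∀ x ∈ R, x ∉ R' → R'.card ≤ lab x) ∧
      ∀ x ∈ R, ∀ y ∈ R, lab x = lab y → x = y := by
  refine ⟨fun x => if h : x ∈ R' then (R'.equivFin ⟨x, h⟩ : ℕ) else
    R'.card + (Fintype.equivFin V x : ℕ), ?_, ?_, ?_⟩
  · intro x hx
    show (if h : x ∈ R' then (R'.equivFin ⟨x, h⟩ : ℕ) else _) < _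
    rw [dif_pos hx]
    exact (R'.equivFin ⟨x, hx⟩).2
  · intro x _ hx
    show _ ≤ (if h : x ∈ R' then (R'.equivFin ⟨x, h⟩ : ℕ) else _)
    rw [dif_neg hx]
    exact Nat.le_add_right _ _
  · intro x _ y _ h
    by_cases hx : x ∈ R'
    · by_cases hy : y ∈ R'
      · simp only [dif_pos hx, dif_pos hy] at h
        have h1 := R'.equivFin.injective (Fin.ext h)
        exact congrArg Subtype.val h1
      · simp only [dif_pos hx, dif_neg hy] at h
        have := (R'.equivFin ⟨x, hx⟩).2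
        omega
    · by_cases hy : y ∈ R'
      · simp only [dif_neg hx, dif_pos hy] at h
        have := (R'.equivFin ⟨y, hy⟩).2
        omega
      · simp only [dif_neg hx, dif_neg hy] at h
        exact (Fintype.equivFin V).injective (Fin.ext (by omega))

/-- **(5.1) PROCESS.**  `entry` for all `x ∈ R` with `K x ∩ D` nonempty and `t ∈ T x` (at most `3 a` entries); `route` in `D` (`y := 3 a`, `a := R'.card`,
`M' := M'`) for the set of entries, labels: an injective labelling of `R` which maps `R'` onto `{0, …, |R'| - 1}`; `K' x` = the set of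
label `x` and the `Z`'s of `x` (`Cn.union_iUnion`), or `K x` if `K x ∩ D` is empty.  (Entries of different `x` are different because the `K x`
are disjoint; the entries of one `x` all have the label of `x`.) -/
theorem process {G : SimpleGraph V} {a M M' c : ℕ} {R R' D : Finset V} (ha : 0 < a)
    (hRa : R.card ≤ a) (hR' : R' ⊆ R) (hM' : 0 < M') (hD : Mc G M D) (hM : 1500 * a ≤ M)
    (hc : 15000 * a + 12 * M' ≤ c) (hcol : ¬ Colb G D c)
    (K : V → Set V) (T : V → Finset V) (hK : ∀ x ∈ R, Cn G (K x))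
    (hd : ∀ x ∈ R, ∀ y ∈ R, x ≠ y → Disjoint (K x) (K y))
    (hT : ∀ x ∈ R, (T x : Set V) ⊆ K x ∧ (T x).Nonempty ∧ (T x).card ≤ 3)
    (hKD : ∀ x ∈ R', (K x ∩ (D : Set V)).Nonempty) :
    ∃ (Z : Finset V) (K' : V → Set V) (e : V → V), Z ⊆ D ∧ Mc G M' Z ∧
      ¬ Colb G Z (c - (12300 * a + 4 * M')) ∧ (∀ x ∈ R, Cn G (K' x)) ∧
      (∀ x ∈ R, ∀ y ∈ R, x ≠ y → Disjoint (K' x) (K' y)) ∧
      (∀ x ∈ R, K' x ⊆ K x ∪ (D : Set V) ∧ (T x : Set V) ⊆ K' x) ∧
      (∀ x ∈ R', e x ∈ K' x ∧ e x ∈ Z ∧ ∀ w ∈ K' x, w ∈ Z → w = e x) ∧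
      ∀ x ∈ R, x ∉ R' → ∀ w ∈ K' x, w ∉ Z := by
  -- the entries
  have hent : ∀ x t, ∃ (w : V) (Z : Set V), x ∈ R → (K x ∩ (D : Set V)).Nonempty → t ∈ T x →
      w ∈ K x ∧ w ∈ D ∧ Z ⊆ K x ∧ (∀ z ∈ Z, z ∉ D) ∧
      ((t = w ∧ Z = ∅) ∨ (Cn G Z ∧ t ∈ Z ∧ ∃ z ∈ Z, G.Adj z w)) := by
    intro x t
    by_cases hx : x ∈ R ∧ (K x ∩ (D : Set V)).Nonempty ∧ t ∈ T x
    · obtain ⟨w, Z, h⟩ := entry (hK x hx.1) hx.2.1 ((hT x hx.1).1 hx.2.2)
      exact ⟨w, Z, fun _ _ _ => h⟩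
    · exact ⟨x, ∅, fun h1 h2 h3 => absurd ⟨h1, h2, h3⟩ hx⟩
  choose w Zs hw using hent
  obtain ⟨lab, hl1, hl2, hl3⟩ := SepA_lab hR'
  obtain ⟨Y, hY⟩ : ∃ Y : Finset V, Y = (R.filter fun x => (K x ∩ (D : Set V)).Nonempty).biUnion
      fun x => (T x).image (w x) := ⟨_, rfl⟩
  have hYD : Y ⊆ D := by
    intro v hv
    rw [hY, Finset.mem_biUnion] at hv
    obtain ⟨x, hx, hv⟩ := hv
    obtain ⟨t, ht, rfl⟩ := Finset.mem_image.1 hv
    rw [Finset.mem_filter] at hx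
    exact (hw x t hx.1 hx.2 ht).2.1
  have hYc : Y.card ≤ 3 * a := by
    rw [hY]
    refine Finset.card_biUnion_le.trans ?_
    refine (Finset.sum_le_sum (g := fun _ => 3) fun x hx => ?_).trans ?_
    · exact Finset.card_image_le.trans (hT x (Finset.mem_filter.1 hx).1).2.2
    · rw [Finset.sum_const, smul_eq_mul, mul_comm]
      exact Nat.mul_le_mul_left 3 ((Finset.card_filter_le _ _).trans hRa)
  obtain ⟨g, hg⟩ : ∃ g : V → ℕ, ∀ x ∈ R, ∀ v ∈ K x, g v = lab x := by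
    refine ⟨fun v => if h : ∃ x ∈ R, v ∈ K x then lab h.choose else 0, ?_⟩
    intro x hx v hv
    have h : ∃ x ∈ R, v ∈ K x := ⟨x, hx, hv⟩
    show (if h : ∃ x ∈ R, v ∈ K x then lab h.choose else 0) = lab x
    rw [dif_pos h]
    have h2 : h.choose = x := by
      by_contra hne
      exact Set.disjoint_left.1 (hd _ h.choose_spec.1 x hx hne) h.choose_spec.2 hv
    rw [h2]
  have hR'a : R'.card ≤ 3 * a := (Finset.card_le_card hR').trans (hRa.trans (by omega))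
  obtain ⟨Z, hZD, hZm, hZc, K0, e0, r1, r2, r3, r4, r5, r6⟩ :=
    route (by omega : 0 < 3 * a) hR'a hM' hD (by omega : 500 * (3 * a) ≤ M) hYD hYc
      (by omega : 5000 * (3 * a) + 12 * M' ≤ c) hcol g
  have hZc' : ¬ Colb G Z (c - (12300 * a + 4 * M')) := by
    have h1 : 4100 * (3 * a) + 4 * M' = 12300 * a + 4 * M' := by ring
    rwa [h1] at hZc
  -- the entries of `x` lie in the set of label `x`
  have hent2 : ∀ x ∈ R, (K x ∩ (D : Set V)).Nonempty → ∀ t ∈ T x, w x t ∈ K0 (lab x) := by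
    intro x hx hxD t ht
    have h1 : w x t ∈ Y := by
      rw [hY]
      exact Finset.mem_biUnion.2 ⟨x, Finset.mem_filter.2 ⟨hx, hxD⟩, Finset.mem_image_of_mem _ ht⟩
    have h2 := r4 _ h1
    rwa [hg x hx _ (hw x t hx hxD ht).1] at h2
  obtain ⟨K', hK'⟩ : ∃ K' : V → Set V, K' = fun x =>
      if (K x ∩ (D : Set V)).Nonempty then
        K0 (lab x) ∪ ⋃₀ {S | ∃ t ∈ T x, S = Zs x t ∧ S.Nonempty} else K x := ⟨_, rfl⟩
  have hpos : ∀ x, (K x ∩ (D : Set V)).Nonempty →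
      K' x = K0 (lab x) ∪ ⋃₀ {S | ∃ t ∈ T x, S = Zs x t ∧ S.Nonempty} := by
    intro x hx
    rw [hK']
    exact if_pos hx
  have hneg : ∀ x, ¬ (K x ∩ (D : Set V)).Nonempty → K' x = K x := by
    intro x hx
    rw [hK']
    exact if_neg hx
  have hmem : ∀ x ∈ R, ∀ v ∈ K' x, (v ∈ K0 (lab x) ∧ v ∈ D) ∨ (v ∈ K x ∧ v ∉ D) := by
    intro x hx v hv
    by_cases hxD : (K x ∩ (D : Set V)).Nonempty
    · rw [hpos x hxD] at hv
      rcases hv with hv | ⟨S, ⟨t, ht, rfl, _⟩, hv⟩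
      · exact Or.inl ⟨hv, r1 _ hv⟩
      · have h1 := hw x t hx hxD ht
        exact Or.inr ⟨h1.2.2.1 hv, h1.2.2.2.1 v hv⟩
    · rw [hneg x hxD] at hv
      exact Or.inr ⟨hv, fun hvD => hxD ⟨v, hv, hvD⟩⟩
  refine ⟨Z, K', fun x => e0 (lab x), hZD, hZm, hZc', ?_, ?_, ?_, ?_, ?_⟩
  · intro x hx
    by_cases hxD : (K x ∩ (D : Set V)).Nonempty
    · rw [hpos x hxD]
      obtain ⟨t0, ht0⟩ := (hT x hx).2.1
      have h0 : Cn G (K0 (lab x)) := by
        rcases r2 (lab x) with h | h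
        · have h1 := hent2 x hx hxD t0 ht0
          rw [h] at h1
          exact absurd h1 (Set.notMem_empty _)
        · exact h
      refine h0.union_sUnion ?_
      rintro S ⟨t, ht, rfl, hne⟩
      obtain ⟨_, _, _, _, h5⟩ := hw x t hx hxD ht
      rcases h5 with ⟨_, h6⟩ | ⟨h6, h7, z, hz, hzw⟩
      · rw [h6] at hne
        exact absurd hne Set.not_nonempty_empty
      · exact ⟨h6, Or.inr ⟨w x t, hent2 x hx hxD t ht, z, hz, hzw.symm⟩⟩
    · rw [hneg x hxD]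
      exact hK x hx
  · intro x hx y hy hxy
    refine Set.disjoint_left.2 fun v hvx hvy => ?_
    rcases hmem x hx v hvx with ⟨h1, h2⟩ | ⟨h1, h2⟩
    · rcases hmem y hy v hvy with ⟨h3, _⟩ | ⟨_, h4⟩
      · have h5 : lab x ≠ lab y := fun h => hxy (hl3 x hx y hy h)
        exact Set.disjoint_left.1 (r3 _ _ h5) h1 h3
      · exact h4 h2
    · rcases hmem y hy v hvy with ⟨_, h4⟩ | ⟨h3, _⟩
      · exact h2 h4
      · exact Set.disjoint_left.1 (hd x hx y hy hxy) h1 h3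
  · intro x hx
    refine ⟨?_, ?_⟩
    · intro v hv
      rcases hmem x hx v hv with ⟨_, h2⟩ | ⟨h1, _⟩
      · exact Or.inr h2
      · exact Or.inl h1
    · intro t ht
      by_cases hxD : (K x ∩ (D : Set V)).Nonempty
      · rw [hpos x hxD]
        obtain ⟨_, _, _, _, h5⟩ := hw x t hx hxD ht
        rcases h5 with ⟨h6, _⟩ | ⟨_, h7, _⟩
        · left
          have h1 := hent2 x hx hxD t ht
          rwa [← h6] at h1
        · exact Or.inr ⟨Zs x t, ⟨t, ht, rfl, ⟨t, h7⟩⟩, h7⟩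
      · rw [hneg x hxD]
        exact (hT x hx).1 ht
  · intro x hx
    have hxR := hR' hx
    obtain ⟨h1, h2, h3⟩ := r5 (lab x) (hl1 x hx)
    refine ⟨?_, h2, ?_⟩
    · rw [hpos x (hKD x hx)]
      exact Or.inl h1
    · intro v hv hvZ
      rcases hmem x hxR v hv with ⟨h4, _⟩ | ⟨_, h5⟩
      · exact h3 v h4 hvZ
      · exact absurd (hZD hvZ) h5
  · intro x hx hxR' v hv hvZ
    rcases hmem x hx v hv with ⟨h4, _⟩ | ⟨_, h5⟩
    · exact r6 (lab x) (hl2 x hx hxR') v h4 hvZ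
    · exact h5 (hZD hvZ)

end Pool.MP_a862e4_co.LS
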