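import Pool.Agent.W_a862e4_ls.McA

/-!
Section 6.1: the sharpened events.  Here `b = 2 β`.
-/

set_option autoImplicit false
set_option linter.unusedSectionVars false

namespace Pool.MP_a862e4_co.LS

open Pool.MP_4929df_co.H91 Pool.MP_a862e4_co.H18
open scoped Classical

variable {V : Type*} [Fintype V]

/-- good sets `A` (sharpened form of `GoodA`, `b = 2 β`) -/
structure GoodB (G : SimpleGraph V) (β ρ : ℕ) (W X S S1 : Finset V) (N : V → Finset V)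
    (A : Finset V) : Prop where
  e1 : ∀ z ∈ W, 9600 * (2 * β) ≤ (nb G W z).card →
    76800 * (nb G W z ∩ A).card ≤ (nb G W z).card
  e2 : ∀ x ∈ S1, (N x ∩ A).card ≤ 2 * β
  e2' : ∀ z, ((S1.filter (fun x => z ∈ N x)) ∩ A).card ≤ β
  e3 : Cut3 (gam G S) ρ X S A

/-- the global conditions -/
structure GlobB (G : SimpleGraph V) (β : ℕ) (A : Finset V) : Prop where
  g1 : ∀ z, 76800 * (nb G Finset.univ z ∩ A).card ≤ (nb G Finset.univ z).card
  g3 : Cut3 G (2 * β) Finset.univ ∅ A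

/-- the failure probability of one step -/
noncomputable def dlB (n β : ℕ) : ℝ :=
  n * (1 / 2) ^ β + (n * (1 / 2) ^ (40 * β) + n * (1 / 2) ^ (18 * β)) +
    (2 * n * (1 / 2) ^ (14 * β) + 16 * (n : ℝ) ^ 2 * (1 / 2) ^ (116 * β))

/-- As `e1_prob` (W_a862e4_h18/Evt.lean) with `k = |N| / 76800 + 1`: `(3 * 76800 / 2 ^ 22) ^ k ≤ (1 / 16) ^ k = (1 / 2) ^ (4 k)` and
`4 k ≥ β` (`76800 k ≥ |N| ≥ 19200 β`). -/
theorem e1B_prob (N : Finset V) (β : ℕ) (hN : 9600 * (2 * β) ≤ N.card) :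
    Ex Finset.univ (1 / 2 ^ 22 : ℝ) (fun A => ind (N.card < 76800 * (N ∩ A).card)) ≤
      (1 / 2 : ℝ) ^ β := by
  obtain ⟨k, hk⟩ : ∃ k, k = N.card / 76800 + 1 := ⟨_, rfl⟩
  have hk1 : N.card < 76800 * k := by omega
  have h1 : Ex Finset.univ (1 / 2 ^ 22 : ℝ) (fun A => ind (N.card < 76800 * (N ∩ A).card)) ≤
      Ex Finset.univ (1 / 2 ^ 22 : ℝ) (fun A => ind (k ≤ (N ∩ A).card)) :=
    Ex_mono (by norm_num) (by norm_num) fun A _ => ind_mono fun h => by omega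
  have h2 := Ex_tail (Finset.subset_univ N) (q := (1 / 2 ^ 22 : ℝ)) (by norm_num) (by norm_num) k
  have h3 : (N.card.choose k : ℝ) ≤ (230400 : ℝ) ^ k := by
    have a1 : (N.card.choose k : ℝ) ≤ (N.card : ℝ) ^ k / (k.factorial : ℝ) :=
      Nat.choose_le_pow_div k N.card
    have a2 : (N.card : ℝ) ^ k ≤ (76800 * (k : ℝ)) ^ k := by
      refine pow_le_pow_left₀ (by positivity) ?_ k
      exact_mod_cast hk1.le
    have a3 : (k : ℝ) ^ k / (k.factorial : ℝ) ≤ Real.exp k :=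
      Real.pow_div_factorial_le_exp (k : ℝ) (by positivity) k
    have a4 : Real.exp (k : ℝ) ≤ 3 ^ k := by
      have : Real.exp (k : ℝ) = Real.exp 1 ^ k := by
        rw [← Real.exp_nat_mul, mul_one]
      rw [this]
      exact pow_le_pow_left₀ (Real.exp_pos 1).le
        (by linarith [Real.exp_one_lt_d9]) k
    have a5 : (0 : ℝ) < (k.factorial : ℝ) := by exact_mod_cast Nat.factorial_pos k
    calc (N.card.choose k : ℝ) ≤ (N.card : ℝ) ^ k / (k.factorial : ℝ) := a1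
      _ ≤ (76800 * (k : ℝ)) ^ k / (k.factorial : ℝ) := div_le_div_of_nonneg_right a2 a5.le
      _ = 76800 ^ k * ((k : ℝ) ^ k / (k.factorial : ℝ)) := by rw [mul_pow, mul_div_assoc]
      _ ≤ 76800 ^ k * 3 ^ k := mul_le_mul_of_nonneg_left (a3.trans a4) (by positivity)
      _ = (230400 : ℝ) ^ k := by rw [← mul_pow]; norm_num
  have h4 : (N.card.choose k : ℝ) * (1 / 2 ^ 22 : ℝ) ^ k ≤ (1 / 16 : ℝ) ^ k := by
    calc (N.card.choose k : ℝ) * (1 / 2 ^ 22 : ℝ) ^ k ≤ (230400 : ℝ) ^ k * (1 / 2 ^ 22 : ℝ) ^ k :=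
          mul_le_mul_of_nonneg_right h3 (by positivity)
      _ = (230400 * (1 / 2 ^ 22 : ℝ)) ^ k := by rw [mul_pow]
      _ ≤ (1 / 16 : ℝ) ^ k := pow_le_pow_left₀ (by norm_num) (by norm_num) k
  have h5 : (1 / 16 : ℝ) ^ k ≤ (1 / 2 : ℝ) ^ β := by
    have : (1 / 16 : ℝ) ^ k = (1 / 2 : ℝ) ^ (4 * k) := by
      rw [pow_mul]; norm_num
    rw [this]
    exact pow_le_pow_of_le_one (by norm_num) (by norm_num) (by omega)
  exact (h1.trans h2).trans (h4.trans h5)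

/-- As `e2_prob`: `choose (4 β) (β + 1) ≤ 2 ^ (4 β)`, times `(1 / 2 ^ 22) ^ (β + 1)`. -/
theorem e2B_prob (N : Finset V) (β : ℕ) (hN : N.card ≤ 4 * β) :
    Ex Finset.univ (1 / 2 ^ 22 : ℝ) (fun A => ind (β < (N ∩ A).card)) ≤
      (1 / 2 : ℝ) ^ (18 * β) := by
  have h2 := Ex_tail (Finset.subset_univ N) (q := (1 / 2 ^ 22 : ℝ)) (by norm_num) (by norm_num)
    (β + 1)
  refine h2.trans ?_
  have h3 : (N.card.choose (β + 1) : ℝ) ≤ 2 ^ (4 * β) := by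
    have a1 : N.card.choose (β + 1) ≤ 2 ^ N.card := Nat.choose_le_two_pow _ _
    have a2 : 2 ^ N.card ≤ 2 ^ (4 * β) := Nat.pow_le_pow_right (by norm_num) hN
    exact_mod_cast a1.trans a2
  have h4 : (1 / 2 ^ 22 : ℝ) ^ (β + 1) = (1 / 2 : ℝ) ^ (22 * β + 22) := by
    rw [← one_div_pow, ← pow_mul]
    congr 1
  have h5 : (1 / 2 : ℝ) ^ (22 * β + 22) ≤ (1 / 2 : ℝ) ^ (22 * β) :=
    pow_le_pow_of_le_one (by norm_num) (by norm_num) (by omega)
  calc (N.card.choose (β + 1) : ℝ) * (1 / 2 ^ 22 : ℝ) ^ (β + 1)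
      ≤ 2 ^ (4 * β) * (1 / 2 : ℝ) ^ (22 * β) := by
        rw [h4]
        exact mul_le_mul h3 h5 (by positivity) (by positivity)
    _ = (1 / 2 : ℝ) ^ (18 * β) := by
        rw [show 22 * β = 4 * β + 18 * β by ring, pow_add, ← mul_assoc, ← mul_pow]
        norm_num

end Pool.MP_a862e4_co.LS
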