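import Pool.Agent.W_a862e4_ls.Fct

/-!
Section 6.2: Kempe changes with hubs, rooted form.
-/

set_option autoImplicit false
set_option linter.unusedSectionVars false

namespace Pool.MP_a862e4_co.LS

open Pool.MP_4929df_co.H91 Pool.MP_a862e4_co.H18
open scoped Classical

variable {V : Type*} [Fintype V]

/-- an injection of `R` into a set of colours -/
private theorem SmK_inj {k : ℕ} (R : Finset V) (Q : Finset (Fin k)) (h : R.card ≤ Q.card)
    (hR : R.Nonempty) :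
    ∃ σ : V → Fin k, Set.InjOn σ (R : Set V) ∧ ∀ x ∈ R, σ x ∈ Q := by
  obtain ⟨x0, hx0⟩ := hR
  have hpos : 0 < R.card := Finset.card_pos.2 ⟨x0, hx0⟩
  let d : Fin k := Finset.orderEmbOfCardLe Q h ⟨0, hpos⟩
  refine ⟨fun x => if hx : x ∈ R then Finset.orderEmbOfCardLe Q h (R.equivFin ⟨x, hx⟩) else d,
    ?_, ?_⟩
  · intro x hx y hy hxy
    have hx' : x ∈ R := hx
    have hy' : y ∈ R := hy
    simp only [dif_pos hx', dif_pos hy'] at hxy
    have h1 := (Finset.orderEmbOfCardLe Q h).injective hxy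
    have h2 := R.equivFin.injective h1
    exact congrArg Subtype.val h2
  · intro x hx
    simp only [dif_pos hx]
    exact Finset.orderEmbOfCardLe_mem Q h _

/-- The rooted scheme built from the chains and the hubs. -/
private theorem SmK_scheme (G : SimpleGraph V) (k : ℕ) (Y R : Finset V) (v : V) (c : V → Fin k)
    (K : Fin k → Set V) (σ : V → Fin k) (hσ : Set.InjOn σ (R : Set V))
    (hK1 : ∀ i, K i = ∅ ∨ Cn G (K i))
    (hK2 : ∀ i j, i ≠ j → Disjoint (K i) (K j)) (hK3 : ∀ i, Disjoint (K i) (Y : Set V))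
    (hK5 : ∀ x ∈ R, x ∈ K (σ x))
    (hub : ∀ x ∈ R, ∀ t ∈ Y, G.Adj v t → c t = σ x → ∃ a ∈ K (σ x), G.Adj t a)
    (hD : ∀ x ∈ R, ∀ y ∈ R, x ≠ y → ∃ D : Set V, Cn G D ∧
      (∀ z ∈ D, z ∈ Y ∧ (c z = σ x ∨ c z = σ y)) ∧ (∃ s ∈ D, G.Adj v s ∧ c s = σ x) ∧
      (∃ t ∈ D, G.Adj v t ∧ c t = σ y)) : RS G Finset.univ R := by
  let A : V → Set V := fun x => K (σ x) ∪ ⋃ t : {t : V // t ∈ Y ∧ G.Adj v t ∧ c t = σ x}, {t.1}
  have hAmem : ∀ x z, z ∈ A x ↔ z ∈ K (σ x) ∨ (z ∈ Y ∧ G.Adj v z ∧ c z = σ x) := by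
    intro x z
    simp only [A, Set.mem_union, Set.mem_iUnion, Set.mem_singleton_iff]
    constructor
    · rintro (h | ⟨t, ht⟩)
      · exact Or.inl h
      · right
        rw [ht]
        exact t.2
    · rintro (h | h)
      · exact Or.inl h
      · exact Or.inr ⟨⟨z, h⟩, rfl⟩
  have hAcn : ∀ x ∈ R, Cn G (A x) := by
    intro x hx
    have hKcn : Cn G (K (σ x)) := by
      rcases hK1 (σ x) with h | h
      · have := hK5 x hx
        rw [h] at this
        exact absurd this (Set.notMem_empty x)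
      · exact h
    refine hKcn.union_iUnion fun t => ?_
    refine ⟨cn_singleton G t.1, Or.inr ?_⟩
    obtain ⟨a, ha, hta⟩ := hub x hx t.1 t.2.1 t.2.2.1 t.2.2.2
    exact ⟨a, ha, t.1, rfl, hta.symm⟩
  refine ⟨fun x => K (σ x) ∪ {z | z ∈ Y ∧ c z = σ x}, ?_, ?_, ?_⟩
  · intro x hx
    refine ⟨Or.inl (hK5 x hx), ?_⟩
    intro z _
    exact Finset.mem_coe.2 (Finset.mem_univ z)
  · intro x hx y hy hxy
    have hne : σ x ≠ σ y := fun h => hxy (hσ hx hy h)
    rw [Set.disjoint_left]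
    intro z hz hz2
    rcases hz with hz | hz <;> rcases hz2 with hz2 | hz2
    · exact Set.disjoint_left.1 (hK2 _ _ hne) hz hz2
    · exact Set.disjoint_left.1 (hK3 _) hz hz2.1
    · exact Set.disjoint_left.1 (hK3 _) hz2 hz.1
    · exact hne (hz.2.symm.trans hz2.2)
  · intro x hx y hy hxy
    obtain ⟨D, hD1, hD2, ⟨s, hs, hvs, hcs⟩, ⟨t, ht, hvt, hct⟩⟩ := hD x hx y hy hxy
    refine ⟨(A x ∪ D) ∪ A y, ?_, ?_, Or.inl (Or.inl ((hAmem x x).2 (Or.inl (hK5 x hx)))),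
      Or.inr ((hAmem y y).2 (Or.inl (hK5 y hy)))⟩
    · have h1 : Cn G (A x ∪ D) :=
        (hAcn x hx).union hD1 ⟨s, (hAmem x s).2 (Or.inr ⟨(hD2 s hs).1, hvs, hcs⟩), hs⟩
      exact h1.union (hAcn y hy) ⟨t, Or.inr ht, (hAmem y t).2 (Or.inr ⟨(hD2 t ht).1, hvt, hct⟩)⟩
    · intro z hz
      rcases hz with (hz | hz) | hz
      · left
        rcases (hAmem x z).1 hz with h | h
        · exact Or.inl h
        · exact Or.inr ⟨h.1, h.2.2⟩
      · obtain ⟨h1, h2⟩ := hD2 z hz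
        rcases h2 with h2 | h2
        · exact Or.inl (Or.inr ⟨h1, h2⟩)
        · exact Or.inr (Or.inr ⟨h1, h2⟩)
      · right
        rcases (hAmem y z).1 hz with h | h
        · exact Or.inl h
        · exact Or.inr ⟨h.1, h.2.2⟩

/-- **KH ROOTED.**  Follow `kh` and `KH2_scheme` (W_a862e4_h18/KH2.lean).  `c` a proper colouring of `Y`; `Q` = the colours that do not occur on
`Bad`, `R.card ≤ Q.card`; if some colour of `Q` does not occur on the neighbours of `v` in `Y`: colour `v` with it; if `kempe_swap` applies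
for two colours of `Q`: done.  Otherwise take an injection `σ` of `R` into `Q` (any values outside `R`), `K` from `hub c σ`,
`B x = K (σ x) ∪ {y ∈ Y | c y = σ x}`, `C = K (σ x) ∪ T_x ∪ D ∪ T_y ∪ K (σ y)` with `T_x` the neighbours of `v` in `Y` of colour `σ x` (not in `Bad`, so
each has a neighbour in `K (σ x)`) and `D` the Kempe chain in the colours `σ x`, `σ y` which meets `T_x` and `T_y`. -/
theorem khr (G : SimpleGraph V) (k : ℕ) (Y R : Finset V) (v : V) (hv : v ∉ Y)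
    (hRY : Disjoint R Y) (Bad : Finset V) (hcard : Bad.card + R.card ≤ k) (hcol : Colb G Y k)
    (hub : ∀ f σ : V → Fin k, Set.InjOn σ (R : Set V) →
      ∃ K : Fin k → Set V, (∀ i, K i = ∅ ∨ Cn G (K i)) ∧
      (∀ i j, i ≠ j → Disjoint (K i) (K j)) ∧ (∀ i, Disjoint (K i) (Y : Set V)) ∧
      (∀ t ∈ nb G Y v, t ∉ Bad → ∃ a ∈ K (f t), G.Adj t a) ∧ ∀ x ∈ R, x ∈ K (σ x)) :
    Colb G (insert v Y) k ∨ RS G Finset.univ R := by
  rcases R.eq_empty_or_nonempty with hRe | hRne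
  · right
    refine ⟨fun _ => ∅, ?_, ?_, ?_⟩
    · intro x hx
      rw [hRe] at hx
      exact absurd hx (Finset.notMem_empty x)
    · intro x hx
      rw [hRe] at hx
      exact absurd hx (Finset.notMem_empty x)
    · intro x hx
      rw [hRe] at hx
      exact absurd hx (Finset.notMem_empty x)
  obtain ⟨c, hc⟩ := hcol
  by_contra hcon
  push Not at hcon
  obtain ⟨hno, hns⟩ := hcon
  -- the good colours
  let Q : Finset (Fin k) := Finset.univ \ Bad.image c
  have hQcard : R.card ≤ Q.card := by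
    have h1 : Q.card = (Finset.univ : Finset (Fin k)).card - (Bad.image c).card := by
      rw [Finset.card_sdiff_of_subset (Finset.subset_univ _)]
    have h2 : (Bad.image c).card ≤ Bad.card := Finset.card_image_le
    rw [Finset.card_univ, Fintype.card_fin] at h1
    omega
  have hQ : ∀ i ∈ Q, ∀ x ∈ Bad, c x ≠ i := by
    intro i hi x hx hxi
    have := (Finset.mem_sdiff.1 hi).2
    exact this (Finset.mem_image.2 ⟨x, hx, hxi⟩)
  -- chains
  have hD : ∀ i ∈ Q, ∀ j ∈ Q, i ≠ j → ∃ D : Set V, Cn G D ∧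
      (∀ y ∈ D, y ∈ Y ∧ (c y = i ∨ c y = j)) ∧ (∃ s ∈ D, G.Adj v s ∧ c s = i) ∧
      (∃ t ∈ D, G.Adj v t ∧ c t = j) := by
    intro i _ j _ hij
    by_contra hne
    refine hno (kempe_swap G k Y v hv c hc i j hij ?_)
    intro D h1 h2 s hs t ht hvs hvt hcs hct
    exact hne ⟨D, h1, h2, ⟨s, hs, hvs, hcs⟩, ⟨t, ht, hvt, hct⟩⟩
  obtain ⟨σ, hσ, hσQ⟩ := SmK_inj R Q hQcard hRne
  obtain ⟨K, hK1, hK2, hK3, hK4, hK5⟩ := hub c σ hσ
  refine hns (SmK_scheme G k Y R v c K σ hσ hK1 hK2 hK3 hK5 ?_ ?_)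
  · intro x hx t ht hvt hct
    have hnb : t ∈ nb G Y v := mem_nbf.2 ⟨ht, hvt⟩
    have hbad : t ∉ Bad := fun h => hQ (σ x) (hσQ x hx) t h hct
    obtain ⟨a, ha, hta⟩ := hK4 t hnb hbad
    rw [hct] at ha
    exact ⟨a, ha, hta⟩
  · intro x hx y hy hxy
    exact hD (σ x) (hσQ x hx) (σ y) (hσQ y hy) (fun h => hxy (hσ hx hy h))

end Pool.MP_a862e4_co.LS
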