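import Pool.Agent.W_a862e4_ls.SmE

/-!
Section 6.3: the massed pair, partners.
-/

set_option autoImplicit false
set_option linter.unusedSectionVars false

namespace Pool.MP_a862e4_co.LS

open Pool.MP_4929df_co.H91 Pool.MP_a862e4_co.H18
open scoped Classical

variable {V : Type*} [Fintype V]

private theorem SmM_cS {G : SimpleGraph V} {ρ : ℕ} {W X S : Finset V}
    (hE : End G (9600 * ρ) W X S) : S.card ≤ 768 * ρ := by
  have := hE.cS
  omega

private theorem SmM_deg0 {G : SimpleGraph V} {β ρ : ℕ} {W X S S1 A : Finset V} {N : V → Finset V}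
    (hE : End G (9600 * ρ) W X S) (hρ : 2 * β ≤ ρ) (hA : GoodB G β ρ W X S S1 N A) {z : V}
    (hz : z ∈ X \ S) : 9599 * ρ ≤ (nb G W z \ A).card := by
  have h3 := Finset.card_sdiff_add_card_inter (nb G W z) A
  have h4 := hE.deg z hz
  have h5 := hA.e1 z (hE.XW (Finset.mem_sdiff.1 hz).1) (by omega)
  omega

/-- Degrees in the graph without the set `D ⊆ S`. -/
private theorem SmM_deg {G : SimpleGraph V} {β ρ : ℕ} {W X S S1 A D : Finset V} {N : V → Finset V}
    (hE : End G (9600 * ρ) W X S) (hρ : 2 * β ≤ ρ) (hA : GoodB G β ρ W X S S1 N A) (hD : D ⊆ S) {z : V}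
    (hz : z ∈ X \ S) : 8831 * ρ ≤ (nb (gam G S) ((X \ A) \ D) z).card := by
  have h1 : (nb G W z \ A) \ S ⊆ nb (gam G S) ((X \ A) \ D) z := by
    intro w hw
    rw [Finset.mem_sdiff, Finset.mem_sdiff, mem_nbf] at hw
    rw [mem_nbf, gam_adj, Finset.mem_sdiff, Finset.mem_sdiff]
    exact ⟨⟨⟨hE.nbX z hz (mem_nbf.2 hw.1.1), hw.1.2⟩, fun h => hw.2 (hD h)⟩, hw.1.1.2, fun h => hw.2 h.2⟩
  have h2 := Finset.card_le_card h1
  have h3 := SmM_deg0 hE hρ hA hz
  have h4 := Finset.le_card_sdiff S (nb G W z \ A)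
  have h5 := SmM_cS hE
  omega

/-- The core is large. -/
private theorem SmM_core {G : SimpleGraph V} {β ρ : ℕ} {W X S S1 A R : Finset V} {N : V → Finset V}
    (hE : End G (9600 * ρ) W X S) (hρ : 2 * β ≤ ρ)
    (hA : GoodB G β ρ W X S S1 N A) (hR : R.card ≤ ρ) : 8830 * ρ ≤ (((X \ S) \ A) \ R).card := by
  obtain ⟨z, hz⟩ := hE.ne
  have h1 : nb G W z \ A ⊆ ((((X \ S) \ A) \ R) ∪ S) ∪ R := by
    intro w hw
    rw [Finset.mem_sdiff] at hw
    have h2 := hE.nbX z hz hw.1
    have h3 := hw.2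
    simp only [Finset.mem_sdiff, Finset.mem_union]
    tauto
  have h2 := (Finset.card_le_card h1).trans ((Finset.card_union_le _ _).trans
      (Nat.add_le_add_right (Finset.card_union_le _ _) _))
  have h3 := SmM_deg0 hE hρ hA hz
  have h5 := SmM_cS hE
  omega

/-- **MASSED.**  As `massed_X` (W_a862e4_h18/StB.lean) in `U' = (X \ A) \ (Sf ∪ Sn)` for the terminals `F ∪ E`.
`m1`: a core vertex (`∈ (X \ S) \ A`) has at least `9599 ρ` neighbours in `X \ A` for `gam G S` (`StB_deg`-like, `e1` is even stronger), so at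
least `9599 ρ - 768 ρ` in `U'` (`|S| ≤ 768 ρ`).
`m2`: `(P, Q)` a separation of `gam G S` on `U'`, `F ∪ E ⊆ P`, order `< |F ∪ E|`.  `P+ = P ∪ ((Sf ∪ Sn) ∩ (X \ A))`,
`Q+ = Q ∪ E ∪ (Sf ∩ (X \ A))` is a separation of `gam G S` on `X \ A`: for `s ∈ Sn` and `w ∈ Q+ \ P+`, so `w ∈ Q \ P`: adjacent in `gam G S` implies
`w ∉ S`, `w` in the core, so `w ∈ E ⊆ P` by `hSn`.  Order: `≤ |P ∩ Q| + |E| + |Sf| < |F| + 3 a ≤ ρ`.  `e3`: if `P+ \ Q+ ⊆ S`: `F ⊆ Q`; an `m ∈ E` not
in `Q` would have all its `≥ 8000 ρ` neighbours in `U'` in `P ⊆ S ∪ E ∪ (P ∩ Q)`; so `F ∪ E ⊆ P ∩ Q`, contradiction.  If `Q+ \ P+ ⊆ S`: `Q \ P ⊆ S`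
and every counted pair has one entry in `Q \ P` and the other one in `P ∩ Q`. -/
theorem massedB {G : SimpleGraph V} {β ρ a : ℕ} {W X S S1 A E F Sf Sn : Finset V}
    {N : V → Finset V} (hβ : 0 < β) (hE : End G (9600 * ρ) W X S) (hρ : 2 * β ≤ ρ)
    (hA : GoodB G β ρ W X S S1 N A) (ha : 6 * a ≤ β) (hEc : E.card ≤ a)
    (hE' : E ⊆ (X \ S) \ A) (hF : F ⊆ (X \ S) \ A) (hFc : 2 * F.card ≤ ρ)
    (hSf : Sf ⊆ S) (hSfc : Sf.card ≤ a) (hSn : Sn ⊆ S)
    (hSn' : ∀ s ∈ Sn, ∀ w ∈ (X \ S) \ A, G.Adj s w → w ∈ E) :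
    Massed (gam G S) (1920 * ρ) ((X \ A) \ (Sf ∪ Sn)) (F ∪ E) := by
  have hρ0 : 0 < ρ := by omega
  have hS := SmM_cS hE
  have hD : Sf ∪ Sn ⊆ S := Finset.union_subset hSf hSn
  have hRco : F ∪ E ⊆ (X \ S) \ A := Finset.union_subset hF hE'
  have hRc0 : (F ∪ E).card ≤ F.card + E.card := Finset.card_union_le _ _
  have hRc : (F ∪ E).card ≤ ρ := by omega
  set D : Finset V := Sf ∪ Sn with hDdef
  set R : Finset V := F ∪ E with hRdef
  have hU' : ((X \ A) \ D) \ R ⊆ (((X \ S) \ A) \ R) ∪ S := by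
    intro w hw
    simp only [Finset.mem_sdiff, Finset.mem_union] at hw ⊢
    tauto
  have hUR' : (((X \ A) \ D) \ R).card ≤ (((X \ S) \ A) \ R).card + S.card :=
    (Finset.card_le_card hU').trans (Finset.card_union_le _ _)
  refine ⟨?_, ?_⟩
  · have h5 := SmM_core hE hρ hA hRc
    have h7 : ∑ z ∈ ((X \ S) \ A) \ R, 8831 * ρ ≤
        ∑ z ∈ ((X \ S) \ A) \ R, (nb (gam G S) ((X \ A) \ D) z).card := by
      refine Finset.sum_le_sum fun z hz => ?_
      refine SmM_deg hE hρ hA hD ?_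
      simp only [Finset.mem_sdiff] at hz ⊢
      exact hz.1.1
    rw [Finset.sum_const, smul_eq_mul] at h7
    have h8 := h7.trans (StB_sum (H := gam G S) (U := (X \ A) \ D) (R := R)
      (by
        intro w hw
        simp only [Finset.mem_sdiff] at hw ⊢
        exact ⟨⟨hw.1.1.1, hw.1.2⟩, fun h => hw.1.1.2 (hD h)⟩)
      (by
        intro w hw
        simp only [Finset.mem_sdiff] at hw
        exact hw.2))
    refine lt_of_lt_of_le ?_ h8
    have h9 : 3840 * (((X \ A) \ D) \ R).card < (((X \ S) \ A) \ R).card * 8831 := by omega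
    calc 2 * (1920 * ρ) * (((X \ A) \ D) \ R).card = ρ * (3840 * (((X \ A) \ D) \ R).card) := by ring
      _ < ρ * ((((X \ S) \ A) \ R).card * 8831) := Nat.mul_lt_mul_of_pos_left h9 hρ0
      _ = _ := by ring
  · intro P Q hPQ hRP hlt
    have hPU := hPQ.left_subset
    have hQU := hPQ.right_subset
    have hEP : E ⊆ P := Finset.subset_union_right.trans hRP
    have hQD : ∀ w ∈ Q, w ∉ D := fun w hw => (Finset.mem_sdiff.1 (hQU hw)).2
    have hPD : ∀ w ∈ P, w ∉ D := fun w hw => (Finset.mem_sdiff.1 (hPU hw)).2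
    have hSfD : Sf ⊆ D := Finset.subset_union_left
    -- the big separation
    have hsep : Sep (gam G S) (X \ A) (P ∪ (D \ A)) ((Q ∪ E) ∪ (Sf \ A)) := by
      constructor
      · ext w
        have e1 : w ∈ P ∪ Q ↔ w ∈ (X \ A) \ D := by rw [hPQ.1]
        have e2 : w ∈ D → w ∈ X := fun h => hE.SX (hD h)
        have e3 := @hEP w
        have e4 := @hSfD w
        simp only [Finset.mem_union, Finset.mem_sdiff] at e1 ⊢
        tauto
      · intro x hx hxQ y hy hyP hxy
        have hyQ : y ∈ Q ∧ y ∉ P := by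
          have e3 := @hEP y
          have e4 := @hSfD y
          simp only [Finset.mem_union, Finset.mem_sdiff] at hy hyP
          tauto
        rcases Finset.mem_union.1 hx with hxP | hxD
        · refine hPQ.2 x hxP (fun h => hxQ ?_) y hyQ.1 hyQ.2 hxy
          exact Finset.mem_union_left _ (Finset.mem_union_left _ h)
        · rw [Finset.mem_sdiff] at hxD
          have hxSn : x ∈ Sn := by
            rcases Finset.mem_union.1 hxD.1 with h | h
            · exact absurd (Finset.mem_union_right _ (Finset.mem_sdiff.2 ⟨h, hxD.2⟩)) hxQ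
            · exact h
          have hxS : x ∈ S := hSn hxSn
          have hyS : y ∉ S := fun h => hxy.2 ⟨hxS, h⟩
          have hyU := Finset.mem_sdiff.1 (Finset.mem_sdiff.1 (hQU hyQ.1)).1
          have hyco : y ∈ (X \ S) \ A :=
            Finset.mem_sdiff.2 ⟨Finset.mem_sdiff.2 ⟨hyU.1, hyS⟩, hyU.2⟩
          exact hyQ.2 (hEP (hSn' x hxSn y hyco hxy.1))
    have hord : ((P ∪ (D \ A)) ∩ ((Q ∪ E) ∪ (Sf \ A))).card ≤ ρ := by
      have h1 : (P ∪ (D \ A)) ∩ ((Q ∪ E) ∪ (Sf \ A)) ⊆ ((P ∩ Q) ∪ E) ∪ Sf := by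
        intro w hw
        have e1 := hQD w
        simp only [Finset.mem_union, Finset.mem_inter, Finset.mem_sdiff] at hw ⊢
        tauto
      have h2 := (Finset.card_le_card h1).trans ((Finset.card_union_le _ _).trans
        (Nat.add_le_add_right (Finset.card_union_le _ _) _))
      omega
    rcases hA.e3 _ _ hsep hord with hc | hc
    · exfalso
      have h4 : R ⊆ P ∩ Q := by
        intro f hf
        have hfP := hRP hf
        have hfco := hRco hf
        rw [Finset.mem_inter]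
        refine ⟨hfP, ?_⟩
        by_contra hfQ
        have hfS : f ∉ S := (Finset.mem_sdiff.1 (Finset.mem_sdiff.1 hfco).1).2
        by_cases hfE : f ∈ E
        · have h5 := SmM_deg hE hρ hA hD (Finset.mem_sdiff.1 hfco).1
          have h6 : nb (gam G S) ((X \ A) \ D) f ⊆ ((P ∩ Q) ∪ E) ∪ S := by
            intro w hw
            rw [mem_nbf] at hw
            have hwPQ : w ∈ P ∪ Q := by rw [hPQ.1]; exact hw.1
            have hwP : w ∈ P := by
              by_contra hwP
              have hwQ : w ∈ Q := by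
                rcases Finset.mem_union.1 hwPQ with h | h
                · exact absurd h hwP
                · exact h
              exact hPQ.2 f hfP hfQ w hwQ hwP hw.2
            by_cases hwQ : w ∈ Q
            · exact Finset.mem_union_left _ (Finset.mem_union_left _ (Finset.mem_inter.2 ⟨hwP, hwQ⟩))
            · by_cases hwE : w ∈ E
              · exact Finset.mem_union_left _ (Finset.mem_union_right _ hwE)
              · refine Finset.mem_union_right _ (hc (Finset.mem_sdiff.2 ⟨Finset.mem_union_left _ hwP, ?_⟩))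
                intro h
                rcases Finset.mem_union.1 h with h | h
                · rcases Finset.mem_union.1 h with h | h
                  · exact hwQ h
                  · exact hwE h
                · exact hPD w hwP (hSfD (Finset.mem_sdiff.1 h).1)
          have h7 := (Finset.card_le_card h6).trans ((Finset.card_union_le _ _).trans
            (Nat.add_le_add_right (Finset.card_union_le _ _) _))
          omega
        · refine hfS (hc (Finset.mem_sdiff.2 ⟨Finset.mem_union_left _ hfP, ?_⟩))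
          intro h
          rcases Finset.mem_union.1 h with h | h
          · rcases Finset.mem_union.1 h with h | h
            · exact hfQ h
            · exact hfE h
          · exact hfS (hSf (Finset.mem_sdiff.1 h).1)
      have h5 := Finset.card_le_card h4
      omega
    · have hQPS : ∀ w ∈ Q, w ∉ P → w ∈ S := by
        intro w hw hwP
        refine hc (Finset.mem_sdiff.2 ⟨Finset.mem_union_left _ (Finset.mem_union_left _ hw), ?_⟩)
        intro h
        rcases Finset.mem_union.1 h with h | h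
        · exact hwP h
        · exact hQD w hw (Finset.mem_sdiff.1 h).1
      have h4 : ed (gam G S) Q (P ∩ Q) ≤
          (((Q \ P) ×ˢ (P ∩ Q)) ∪ ((P ∩ Q) ×ˢ (Q \ P))).card := by
        refine Finset.card_le_card fun p hp => ?_
        rw [mem_ed, gam_adj] at hp
        obtain ⟨⟨hpa, hpb⟩, ⟨-, hS'⟩, hn⟩ := hp
        have hca := hQPS p.1 hpa
        have hcb := hQPS p.2 hpb
        simp only [Finset.mem_union, Finset.mem_product, Finset.mem_sdiff, Finset.mem_inter] at *
        tauto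
      have h5 := Finset.card_union_le ((Q \ P) ×ˢ (P ∩ Q)) ((P ∩ Q) ×ˢ (Q \ P))
      rw [Finset.card_product, Finset.card_product] at h5
      have h6 : (P ∩ Q).card ≤ ρ := by omega
      calc ed (gam G S) Q (P ∩ Q) ≤ (Q \ P).card * (P ∩ Q).card + (P ∩ Q).card * (Q \ P).card :=
            h4.trans h5
        _ = 2 * ((P ∩ Q).card * (Q \ P).card) := by ring
        _ ≤ 2 * (ρ * (Q \ P).card) := by gcongr
        _ ≤ 2 * (1920 * ρ) * (Q \ P).card := by
            have : ρ * (Q \ P).card ≤ 1920 * (ρ * (Q \ P).card) := by omega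
            calc 2 * (ρ * (Q \ P).card) ≤ 2 * (1920 * (ρ * (Q \ P).card)) := by omega
              _ = _ := by ring

/-- **PARTNERS.**  As `partners` (W_a862e4_h18/StA.lean): `T1 = nb G Y v ∩ S1`, `T2 = nb G Y v \ S` with `Y = (A \ R) ∩ W.erase v ⊆ A`;
`al t = (N t \ A) \ E` for `t ∈ S1`, `((nb G W t \ A) \ S) \ E` otherwise; `exists_match` with `b := β`: `|al t| ≥ 4 β - 2 β - a ≥ β` (`N2`: `|N t| = 2 (2 β)`),
multiplicity at most `β` by `e2'`; `76800 |nb G W v ∩ A| ≤ 4 * (9600 ρ)` gives `2 |T| ≤ ρ`; for `t ∈ T2`: `9599 ρ - 768 ρ - a ≥ |T|`. -/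
theorem partnersB {G : SimpleGraph V} {β c ρ a : ℕ} (hb : 0 < β) {W X S S1 A R E : Finset V}
    {N : V → Finset V} {v : V} (h : SD G (2 * β) c ρ W X S S1 N v)
    (hA : GoodB G β ρ W X S S1 N A) (ha : 6 * a ≤ β) (hEc : E.card ≤ a) :
    ∃ (T : Finset V) (π : V → V), T = (nb G ((A \ R) ∩ W.erase v) v) \ (S \ S1) ∧
      2 * T.card ≤ ρ ∧ (∀ t ∈ T, π t ∈ (X \ S) \ A ∧ π t ∉ E ∧ G.Adj t (π t)) ∧
      Set.InjOn π (T : Set V) := by
  set B := nb G ((A \ R) ∩ W.erase v) v with hB
  set T1 := B ∩ S1 with hT1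
  set T2 := B \ S with hT2
  set al : V → Finset V := fun t => if t ∈ S1 then (N t \ A) \ E else ((nb G W t \ A) \ S) \ E with hal
  have hbρ := h.bρ
  have hvX : v ∈ X := (Finset.mem_sdiff.1 h.vZ).1
  have hvW : v ∈ W := h.e.XW hvX
  have hT : T1 ∪ T2 = B \ (S \ S1) := by
    ext t
    have := @h.S1S t
    simp only [hT1, hT2, Finset.mem_union, Finset.mem_inter, Finset.mem_sdiff]
    tauto
  have hBsub : B ⊆ nb G W v ∩ A := by
    intro t ht
    rw [hB, mem_nbf, Finset.mem_inter, Finset.mem_erase, Finset.mem_sdiff] at ht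
    rw [Finset.mem_inter, mem_nbf]
    exact ⟨⟨ht.1.2.2, ht.2⟩, ht.1.1.1⟩
  have hcv : 2 * (nb G W v ∩ A).card ≤ ρ := by
    have h1 := hA.e1 v hvW (by
      have h2 := h.e.deg v h.vZ
      omega)
    have h2 := h.dv
    omega
  have hTcard : 2 * (T1 ∪ T2).card ≤ ρ := by
    rw [hT]
    have := Finset.card_le_card (Finset.sdiff_subset.trans hBsub : B \ (S \ S1) ⊆ nb G W v ∩ A)
    omega
  have hT2X : ∀ t ∈ T2, t ∈ X \ S := by
    intro t ht
    rw [hT2, Finset.mem_sdiff] at ht
    have h1 := Finset.mem_inter.1 (hBsub ht.1)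
    exact Finset.mem_sdiff.2 ⟨h.e.nbX v h.vZ h1.1, ht.2⟩
  have hS := SmM_cS h.e
  obtain ⟨π, hπ1, hπ2⟩ := exists_match T1 T2 al β hb
    (by
      intro t ht
      have htS : t ∈ S1 := (Finset.mem_inter.1 ht).2
      have h1 := h.N2 t htS
      have h2 := hA.e2 t htS
      have h3 := Finset.card_sdiff_add_card_inter (N t) A
      have h4 := Finset.le_card_sdiff E (N t \ A)
      simp only [hal, if_pos htS]
      omega)
    (by
      intro z
      refine le_trans (Finset.card_le_card fun t ht => ?_) (hA.e2' z)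
      rw [Finset.mem_filter] at ht
      have htS : t ∈ S1 := (Finset.mem_inter.1 ht.1).2
      have htA : t ∈ A := (Finset.mem_inter.1 (hBsub (Finset.mem_inter.1 ht.1).1)).2
      have h1 := ht.2
      simp only [hal, if_pos htS, Finset.mem_sdiff] at h1
      exact Finset.mem_inter.2 ⟨Finset.mem_filter.2 ⟨htS, h1.1.1⟩, htA⟩)
    (by
      intro t ht
      have htX := hT2X t ht
      have htS : t ∉ S1 := fun h' => (Finset.mem_sdiff.1 htX).2 (h.S1S h')
      have h1 := SmM_deg0 h.e hbρ hA htX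
      have h4 := Finset.le_card_sdiff S (nb G W t \ A)
      have h5 := Finset.le_card_sdiff E ((nb G W t \ A) \ S)
      simp only [hal, if_neg htS]
      omega)
  refine ⟨B \ (S \ S1), π, rfl, by rw [← hT]; exact hTcard, ?_, by rw [← hT]; exact hπ2⟩
  intro t ht
  rw [← hT] at ht
  have h1 := hπ1 t ht
  by_cases htS : t ∈ S1
  · simp only [hal, if_pos htS, Finset.mem_sdiff] at h1
    have h2 := mem_nbf.1 (h.N1 t htS h1.1.1)
    exact ⟨Finset.mem_sdiff.2 ⟨h2.1, h1.1.2⟩, h1.2, h2.2⟩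
  · have ht2 : t ∈ T2 := by
      rcases Finset.mem_union.1 ht with h2 | h2
      · exact absurd (Finset.mem_inter.1 h2).2 htS
      · exact h2
    simp only [hal, if_neg htS, Finset.mem_sdiff] at h1
    have h2 := h.e.nbX t (hT2X t ht2) h1.1.1.1
    exact ⟨Finset.mem_sdiff.2 ⟨Finset.mem_sdiff.2 ⟨h2, h1.1.2⟩, h1.1.1.2⟩, h1.2, (mem_nbf.1 h1.1.1.1).2⟩

/-- the core has at least `β` vertices: the neighbours outside `A` and `S` of a vertex of `X \ S` -/
theorem core_card {G : SimpleGraph V} {β ρ : ℕ} {W X S S1 A : Finset V} {N : V → Finset V}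
    (hβ : 0 < β) (hE : End G (9600 * ρ) W X S) (hρ : 2 * β ≤ ρ)
    (hA : GoodB G β ρ W X S S1 N A) : β ≤ ((X \ S) \ A).card := by
  have h1 := SmM_core (R := ∅) hE hρ hA (by simp)
  rw [Finset.sdiff_empty] at h1
  omega

end Pool.MP_a862e4_co.LS
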