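import Pool.Agent.W_a862e4_ls.McA
import Pool.Agent.W_a862e4_ls.SmE
import Pool.Agent.W_4929df_h91.Paths

/-!
Section 6.3: systems of paths of minimal total length.
-/

set_option autoImplicit false
set_option linter.unusedSectionVars false

namespace Pool.MP_a862e4_co.LS

open Pool.MP_4929df_co.H91 Pool.MP_a862e4_co.H18
open scoped Classical

variable {V : Type*} [Fintype V]

/-- a system of disjoint paths `p x 0 = x, …, p x (n x) ∈ M` (`x ∈ R`) in `U`, meeting `M` only in the last vertices -/
structure PS (G : SimpleGraph V) (U R M : Finset V) (n : V → ℕ) (p : V → ℕ → V) : Prop where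
  start : ∀ x ∈ R, p x 0 = x
  inU : ∀ x ∈ R, ∀ i ≤ n x, p x i ∈ U
  adj : ∀ x ∈ R, ∀ i < n x, G.Adj (p x i) (p x (i + 1))
  last : ∀ x ∈ R, p x (n x) ∈ M
  before : ∀ x ∈ R, ∀ i < n x, p x i ∉ M
  inj : ∀ x ∈ R, ∀ y ∈ R, ∀ i ≤ n x, ∀ j ≤ n y, p x i = p y j → x = y ∧ i = j

/-- in a connected set there is an injective sequence from `x` to `y`: the set of the vertices reached from `x` by sequences in `Q` is closed in
`Q`, so it is `Q`; a shortest sequence is injective. -/
theorem cn_path {G : SimpleGraph V} {Q : Set V} (hQ : Cn G Q) {x y : V} (hx : x ∈ Q) (hy : y ∈ Q) :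
    ∃ (n : ℕ) (p : ℕ → V), p 0 = x ∧ p n = y ∧ (∀ i ≤ n, p i ∈ Q) ∧
      (∀ i < n, G.Adj (p i) (p (i + 1))) ∧ ∀ i ≤ n, ∀ j ≤ n, p i = p j → i = j := by
  obtain ⟨l, hne, hnd, hch, hmem, hh, hl⟩ := hQ.exists_path hx hy
  have hpos : 0 < l.length := List.length_pos_iff.2 hne
  have hget : ∀ i, ∀ h : i < l.length, l.getD i x = l[i] := fun i h => List.getD_eq_getElem _ _ h
  refine ⟨l.length - 1, fun i => l.getD i x, ?_, ?_, ?_, ?_, ?_⟩
  · show l.getD 0 x = x
    rw [hget 0 hpos]
    rw [List.head?_eq_getElem?, List.getElem?_eq_getElem hpos] at hh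
    exact Option.some.inj hh
  · show l.getD (l.length - 1) x = y
    rw [hget _ (by omega)]
    rw [List.getLast?_eq_getElem?, List.getElem?_eq_getElem (by omega)] at hl
    exact Option.some.inj hl
  · intro i hi
    show l.getD i x ∈ Q
    rw [hget i (by omega)]
    exact hmem _ (List.getElem_mem _)
  · intro i hi
    show G.Adj (l.getD i x) (l.getD (i + 1) x)
    rw [hget i (by omega), hget (i + 1) (by omega)]
    rw [List.isChain_iff_getElem] at hch
    exact hch i (by omega)
  · intro i hi j hj hij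
    have hij' : l.getD i x = l.getD j x := hij
    rw [hget i (by omega), hget j (by omega)] at hij'
    exact (hnd.getElem_inj_iff).1 hij'

/-- from a linkage: `cn_path` in every `Q x` from `x` to `m x` (the only vertex of `Q x` in `M`) -/
theorem ps_of_linked {G : SimpleGraph V} {U R M : Finset V} (h : Linked G U R M) :
    ∃ n p, PS G U R M n p := by
  obtain ⟨Q, m, h1, h2⟩ := h
  have h3 : ∀ x, ∃ (k : ℕ) (q : ℕ → V), x ∈ R → q 0 = x ∧ q k = m x ∧ (∀ i ≤ k, q i ∈ Q x) ∧
      (∀ i < k, G.Adj (q i) (q (i + 1))) ∧ ∀ i ≤ k, ∀ j ≤ k, q i = q j → i = j := by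
    intro x
    by_cases hx : x ∈ R
    · obtain ⟨g1, g2, g3, g4, g5, g6⟩ := h1 x hx
      obtain ⟨k, q, hq⟩ := cn_path g2 g3 g5
      exact ⟨k, q, fun _ => hq⟩
    · exact ⟨0, fun _ => x, fun h => absurd h hx⟩
  choose n p hp using h3
  refine ⟨n, p, ?_, ?_, ?_, ?_, ?_, ?_⟩
  · exact fun x hx => (hp x hx).1
  · exact fun x hx i hi => by exact_mod_cast (h1 x hx).1 ((hp x hx).2.2.1 i hi)
  · exact fun x hx i hi => (hp x hx).2.2.2.1 i hi
  · intro x hx
    rw [(hp x hx).2.1]
    exact (h1 x hx).2.2.2.1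
  · intro x hx i hi hM
    have g1 := (h1 x hx).2.2.2.2.2 _ ((hp x hx).2.2.1 i hi.le) hM
    rw [← (hp x hx).2.1] at g1
    have g2 := (hp x hx).2.2.2.2 i hi.le (n x) le_rfl g1
    omega
  · intro x hx y hy i hi j hj hij
    have hxy : x = y := by
      by_contra hne
      have g1 := (hp x hx).2.2.1 i hi
      have g2 := (hp y hy).2.2.1 j hj
      rw [← hij] at g2
      exact (Set.disjoint_left.1 (h2 x hx y hy hne)) g1 g2
    subst hxy
    exact ⟨rfl, (hp x hx).2.2.2.2 i hi j hj hij⟩

/-- A system of minimal total length.  If a vertex `p x i` with `i + 1 < n x` were adjacent to a vertex `w ∈ M` which is not a last vertex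
`p y (n y)`, the path of `x` could be replaced by `p x 0, …, p x i, w`. -/
theorem ps_min {G : SimpleGraph V} {U R M : Finset V} (h : Linked G U R M) (hMU : M ⊆ U) :
    ∃ n p, PS G U R M n p ∧ ∀ x ∈ R, ∀ i, i + 1 < n x → ∀ w ∈ M, G.Adj (p x i) w →
      ∃ y ∈ R, w = p y (n y) := by
  have hex : ∃ s : ℕ, ∃ n p, PS G U R M n p ∧ ∑ x ∈ R, n x = s := by
    obtain ⟨n, p, hp⟩ := ps_of_linked h
    exact ⟨_, n, p, hp, rfl⟩
  obtain ⟨n, p, hp, hs⟩ := Nat.find_spec hex
  refine ⟨n, p, hp, fun x hx i hi w hw haw => ?_⟩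
  by_contra hcon
  push Not at hcon
  have hwn : ∀ y ∈ R, ∀ j ≤ n y, p y j ≠ w := by
    intro y hy j hj hjw
    rcases hj.lt_or_eq with h1 | h1
    · exact hp.before y hy j h1 (by rw [hjw]; exact hw)
    · rw [h1] at hjw
      exact hcon y hy hjw.symm
  obtain ⟨n', hn'⟩ : ∃ n' : V → ℕ, n' = fun y => if y = x then i + 1 else n y := ⟨_, rfl⟩
  obtain ⟨p', hp'⟩ : ∃ p' : V → ℕ → V, p' = fun y j => if y = x ∧ i < j then w else p y j := ⟨_, rfl⟩
  have nx : n' x = i + 1 := by rw [hn']; exact if_pos rfl
  have ny : ∀ y, y ≠ x → n' y = n y := fun y hy => by rw [hn']; exact if_neg hy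
  have nle : ∀ y, n' y ≤ n y := fun y => by
    by_cases hy : y = x
    · rw [hy, nx]; omega
    · rw [ny y hy]
  have pw : ∀ j, i < j → p' x j = w := fun j hj => by rw [hp']; exact if_pos ⟨rfl, hj⟩
  have po : ∀ y j, ¬ (y = x ∧ i < j) → p' y j = p y j := fun y j hj => by rw [hp']; exact if_neg hj
  have hPS : PS G U R M n' p' := by
    refine ⟨?_, ?_, ?_, ?_, ?_, ?_⟩
    · intro y hy
      rw [po y 0 (by omega)]
      exact hp.start y hy
    · intro y hy j hj
      by_cases hc : y = x ∧ i < j
      · obtain ⟨rfl, hc2⟩ := hc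
        rw [pw j hc2]
        exact hMU hw
      · rw [po y j hc]
        exact hp.inU y hy j (hj.trans (nle y))
    · intro y hy j hj
      by_cases hyx : y = x
      · subst hyx
        rw [nx] at hj
        rw [po y j (by omega)]
        by_cases hji : j = i
        · subst hji
          rw [pw (j + 1) (by omega)]
          exact haw
        · rw [po y (j + 1) (by omega)]
          exact hp.adj y hy j (by omega)
      · rw [po y j (fun h => hyx h.1), po y (j + 1) (fun h => hyx h.1)]
        rw [ny y hyx] at hj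
        exact hp.adj y hy j hj
    · intro y hy
      by_cases hyx : y = x
      · subst hyx
        rw [nx, pw (i + 1) (by omega)]
        exact hw
      · rw [ny y hyx, po y _ (fun h => hyx h.1)]
        exact hp.last y hy
    · intro y hy j hj
      by_cases hyx : y = x
      · subst hyx
        rw [nx] at hj
        rw [po y j (by omega)]
        exact hp.before y hy j (by omega)
      · rw [po y j (fun h => hyx h.1)]
        rw [ny y hyx] at hj
        exact hp.before y hy j hj
    · intro y hy z hz j hj k hk hjk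
      by_cases hc : y = x ∧ i < j
      · obtain ⟨rfl, hc2⟩ := hc
        rw [pw j hc2] at hjk
        by_cases hd : z = y ∧ i < k
        · obtain ⟨rfl, hd2⟩ := hd
          rw [nx] at hj hk
          exact ⟨rfl, by omega⟩
        · rw [po z k hd] at hjk
          exact absurd hjk.symm (hwn z hz k (hk.trans (nle z)))
      · rw [po y j hc] at hjk
        by_cases hd : z = x ∧ i < k
        · obtain ⟨rfl, hd2⟩ := hd
          rw [pw k hd2] at hjk
          exact absurd hjk (hwn y hy j (hj.trans (nle y)))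
        · rw [po z k hd] at hjk
          exact hp.inj y hy z hz j (hj.trans (nle y)) k (hk.trans (nle z)) hjk
  have hlt : ∑ y ∈ R, n' y < ∑ y ∈ R, n y :=
    Finset.sum_lt_sum (fun y _ => nle y) ⟨x, hx, by rw [nx]; exact hi⟩
  exact Nat.find_min hex (by rw [← hs]; exact hlt) ⟨n', p', hPS, rfl⟩

/-- The linkage from `R` to the core.  `menger_sep`, `linked_of_fin` in `U = univ \ (A \ R)`: let `(P, Q)` be a separation of `G[U]` with
`R ⊆ P`, `M ⊆ Q` of order `< |R|`; `(P \ A, Q \ A)` is a separation of `G[univ \ A]` of order `≤ 2 β`, so by `hA.g3` one of `(P \ A) \ (Q \ A)`,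
`(Q \ A) \ (P \ A)` is empty.  First case: some `x ∈ R` is not in `Q`; its neighbours in `univ \ A` (at least `β`: `hA.g1`, `Mc.deg`) lie in `P`,
so in `Q`: `|P ∩ Q| ≥ β`.  Second case: `M ⊆ P ∩ Q`. -/
theorem core_linked {G : SimpleGraph V} {β : ℕ} {A R M : Finset V}
    (hG : Mc G (9600 * (2 * β)) Finset.univ) (hA : GlobB G β A) (hR : R.card ≤ β)
    (hM : Disjoint M A) (hMc : β ≤ M.card) : Linked G (Finset.univ \ (A \ R)) R M := by
  have hmU : ∀ w, w ∈ (Finset.univ \ (A \ R) : Finset V) ↔ (w ∈ A → w ∈ R) := by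
    intro w
    simp only [Finset.mem_sdiff, Finset.mem_univ, true_and, not_and, not_not]
  have hRU : R ⊆ Finset.univ \ (A \ R) := fun w hw => (hmU w).2 fun _ => hw
  have hMU : M ⊆ Finset.univ \ (A \ R) := fun w hw =>
    (hmU w).2 fun h => absurd h (Finset.disjoint_left.1 hM hw)
  obtain ⟨Q, hQ, hd⟩ := menger_sep G (Finset.univ \ (A \ R)) R M hRU hMU R.card (by
    intro P Q hs hRP hMQ
    by_contra hlt
    push Not at hlt
    have hs' : Sep G (Finset.univ \ A) (P \ A) (Q \ A) := by
      constructor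
      · ext w
        have h1 : w ∈ P ∪ Q ↔ w ∈ (Finset.univ \ (A \ R) : Finset V) := by rw [hs.1]
        rw [hmU, Finset.mem_union] at h1
        simp only [Finset.mem_union, Finset.mem_sdiff, Finset.mem_univ, true_and]
        constructor
        · rintro (h2 | h2)
          · exact h2.2
          · exact h2.2
        · intro h2
          rcases h1.2 (fun h3 => absurd h3 h2) with h3 | h3
          · exact Or.inl ⟨h3, h2⟩
          · exact Or.inr ⟨h3, h2⟩
      · intro a ha haQ b hb hbP
        rw [Finset.mem_sdiff] at ha hb haQ hbP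
        exact hs.2 a ha.1 (fun h => haQ ⟨h, ha.2⟩) b hb.1 (fun h => hbP ⟨h, hb.2⟩)
    have hc : ((P \ A) ∩ (Q \ A)).card ≤ 2 * β := by
      have h1 : ((P \ A) ∩ (Q \ A)).card ≤ (P ∩ Q).card := by
        refine Finset.card_le_card fun w hw => ?_
        simp only [Finset.mem_inter, Finset.mem_sdiff] at hw ⊢
        exact ⟨hw.1.1, hw.2.1⟩
      omega
    rcases hA.g3 _ _ hs' hc with h1 | h1
    · have hx : ∃ x ∈ R, x ∉ Q := by
        by_contra hcon
        push Not at hcon
        exact absurd (Finset.card_le_card fun w hw => Finset.mem_inter.2 ⟨hRP hw, hcon w hw⟩)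
          (not_le.2 hlt)
      obtain ⟨x, hxR, hxQ⟩ := hx
      have h2 : nb G Finset.univ x \ A ⊆ P ∩ Q := by
        intro w hw
        rw [Finset.mem_sdiff, mem_nbf] at hw
        have h3 : w ∈ P ∪ Q := by
          rw [hs.1, hmU]
          exact fun h => absurd h hw.2
        have h4 : w ∈ P := by
          by_contra h5
          have h6 := (Finset.mem_union.1 h3).resolve_left h5
          exact hs.2 x (hRP hxR) hxQ w h6 h5 hw.1.2
        have h5 : w ∈ Q := by
          by_contra h6
          have h7 : w ∈ (P \ A) \ (Q \ A) := by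
            simp only [Finset.mem_sdiff]
            exact ⟨⟨h4, hw.2⟩, fun h => h6 h.1⟩
          exact absurd (h1 h7) (Finset.notMem_empty w)
        exact Finset.mem_inter.2 ⟨h4, h5⟩
      have h3 := Finset.card_le_card h2
      have h4 := hA.g1 x
      have h5 := hG.deg (Finset.mem_univ x)
      have h6 := Finset.card_sdiff_add_card_inter (nb G Finset.univ x) A
      omega
    · have h2 : M ⊆ P ∩ Q := by
        intro w hw
        have h3 := hMQ hw
        have h4 := Finset.disjoint_left.1 hM hw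
        refine Finset.mem_inter.2 ⟨?_, h3⟩
        by_contra h5
        have h7 : w ∈ (Q \ A) \ (P \ A) := by
          simp only [Finset.mem_sdiff]
          exact ⟨⟨h3, h4⟩, fun h => h5 h.1⟩
        exact absurd (h1 h7) (Finset.notMem_empty w)
      have h3 := Finset.card_le_card h2
      omega)
  exact linked_of_fin G _ R M Q hQ hd

end Pool.MP_a862e4_co.LS
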