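import Pool.Agent.W_a862e4_ls.SmM
import Pool.Agent.W_a862e4_ls.SmP
import Pool.Agent.W_a862e4_ls.SmK

/-!
Section 6.3: the colouring step.
-/

set_option autoImplicit false
set_option linter.unusedSectionVars false

namespace Pool.MP_a862e4_co.LS

open Pool.MP_4929df_co.H91 Pool.MP_a862e4_co.H18
open scoped Classical

variable {V : Type*} [Fintype V]

/-- the vertices of a path form a connected set -/
private theorem SmS_path_cn {G : SimpleGraph V} (q : ℕ → V) (n : ℕ)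
    (h : ∀ i < n, G.Adj (q i) (q (i + 1))) : Cn G {w | ∃ i ≤ n, q i = w} := by
  refine cn_of_base (x := q 0) ⟨0, Nat.zero_le _, rfl⟩ fun A hA h0 hcl => ?_
  refine Set.Subset.antisymm hA ?_
  rintro w ⟨i, hi, rfl⟩
  induction i with
  | zero => exact h0
  | succ i ih => exact hcl _ (ih (by omega)) _ ⟨i + 1, hi, rfl⟩ (h i (by omega))

/-- two injective parametrisations with disjoint images have a common left inverse -/
private theorem SmS_labels {k : ℕ} {T R : Finset V} {π ε : V → V} (f σ : V → Fin k)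
    (hπ : Set.InjOn π (T : Set V)) (hε : ∀ x ∈ R, ∀ y ∈ R, ε x = ε y → x = y)
    (hd : ∀ t ∈ T, ∀ x ∈ R, π t ≠ ε x) :
    ∃ g : V → ℕ, (∀ t ∈ T, g (π t) = (f t : ℕ)) ∧ ∀ x ∈ R, g (ε x) = (σ x : ℕ) := by
  refine ⟨fun w => if hw : ∃ t ∈ T, π t = w then (f hw.choose : ℕ) else
    if hx : ∃ x ∈ R, ε x = w then (σ hx.choose : ℕ) else 0, ?_, ?_⟩
  · intro t ht
    have hw : ∃ t' ∈ T, π t' = π t := ⟨t, ht, rfl⟩
    have h1 : hw.choose = t :=
      hπ (by exact_mod_cast hw.choose_spec.1) (by exact_mod_cast ht) hw.choose_spec.2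
    show (if hw : ∃ t' ∈ T, π t' = π t then (f hw.choose : ℕ) else _) = _
    rw [dif_pos hw, h1]
  · intro x hx
    have hno : ¬ ∃ t ∈ T, π t = ε x := by
      rintro ⟨t, ht, h1⟩
      exact hd t ht x hx h1
    have hw : ∃ x' ∈ R, ε x' = ε x := ⟨x, hx, rfl⟩
    have h1 : hw.choose = x := hε _ hw.choose_spec.1 _ hx hw.choose_spec.2
    show (if hw : ∃ t' ∈ T, π t' = ε x then (f hw.choose : ℕ) else
      if hx : ∃ x' ∈ R, ε x' = ε x then (σ hx.choose : ℕ) else 0) = _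
    rw [dif_neg hno, dif_pos hw, h1]

/-- the hubs, given the paths and the knitted sets -/
private theorem SmS_hubs {G : SimpleGraph V} {k : ℕ} {X S A R M Sf Sn Y : Finset V}
    {n : V → ℕ} {p : V → ℕ → V} (hps : PS G (Finset.univ \ (A \ R)) R M n p)
    (hM : M = (X \ S) \ A) (hYA : Y ⊆ A \ R)
    (hSf : ∀ x ∈ R, 0 < n x → p x (n x - 1) ∈ S → p x (n x - 1) ∈ Sf)
    (hSn : ∀ x ∈ R, ∀ i, i + 1 < n x → p x i ∈ S → p x i ∈ Sn)
    (σ : V → Fin k) (hσ : Set.InjOn σ (R : Set V)) {K : ℕ → Set V}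
    (hK1 : ∀ i, K i ⊆ (((X \ A) \ (Sf ∪ Sn) : Finset V) : Set V))
    (hK2 : ∀ i, K i = ∅ ∨ Cn (gam G S) (K i))
    (hK3 : ∀ i j, i ≠ j → Disjoint (K i) (K j))
    (hK4 : ∀ x ∈ R, p x (n x) ∈ K (σ x : ℕ)) :
    ∃ K' : Fin k → Set V, (∀ i, K' i = ∅ ∨ Cn G (K' i)) ∧
      (∀ i j, i ≠ j → Disjoint (K' i) (K' j)) ∧
      (∀ i, Disjoint (K' i) (Y : Set V)) ∧ (∀ i : Fin k, K (i : ℕ) ⊆ K' i) ∧
      ∀ x ∈ R, x ∈ K' (σ x) := by
  have hKG : ∀ i, K i = ∅ ∨ Cn G (K i) := by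
    intro i
    rcases hK2 i with h1 | h1
    · exact Or.inl h1
    · exact Or.inr (Cn.mono (G := gam G S) (G' := G) (fun a b hab => (gam_adj.1 hab).1) h1)
  -- the knitted sets and the paths
  have hKp : ∀ (i : ℕ), ∀ x ∈ R, (σ x : ℕ) ≠ i → ∀ j ≤ n x, p x j ∉ K i := by
    intro i x hx hne j hj hmem
    rcases Nat.lt_or_ge j (n x) with hlt | hge
    · have h1 := hK1 i hmem
      rw [Finset.mem_coe, Finset.mem_sdiff, Finset.mem_sdiff, Finset.mem_union] at h1
      have h2 := hps.before x hx j hlt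
      rw [hM, Finset.mem_sdiff, Finset.mem_sdiff] at h2
      have h3 : p x j ∈ S := by
        by_contra h4
        exact h2 ⟨⟨h1.1.1, h4⟩, h1.1.2⟩
      rcases Nat.lt_or_ge (j + 1) (n x) with h5 | h5
      · exact h1.2 (Or.inr (hSn x hx j h5 h3))
      · have h6 : n x - 1 = j := by omega
        refine h1.2 (Or.inl ?_)
        have h7 := hSf x hx (by omega)
        rw [h6] at h7
        exact h7 h3
    · have h1 : j = n x := le_antisymm hj hge
      subst h1
      exact (Set.disjoint_left.1 (hK3 _ _ hne) (hK4 x hx)) hmem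
  refine ⟨fun i => K (i : ℕ) ∪ {w | ∃ x ∈ R, σ x = i ∧ ∃ j ≤ n x, p x j = w}, ?_, ?_, ?_, ?_, ?_⟩
  · intro i
    beta_reduce
    by_cases hi : ∃ x ∈ R, σ x = i
    · obtain ⟨x, hx, hxi⟩ := hi
      right
      have e1 : {w | ∃ x ∈ R, σ x = i ∧ ∃ j ≤ n x, p x j = w} = {w | ∃ j ≤ n x, p x j = w} := by
        ext w
        simp only [Set.mem_ofPred_eq]
        constructor
        · rintro ⟨y, hy, hyi, j, hj, hw⟩
          have h1 : y = x := hσ (by exact_mod_cast hy) (by exact_mod_cast hx) (hyi.trans hxi.symm)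
          subst h1
          exact ⟨j, hj, hw⟩
        · rintro ⟨j, hj, hw⟩
          exact ⟨x, hx, hxi, j, hj, hw⟩
      rw [e1]
      have h2 : p x (n x) ∈ K (i : ℕ) := by
        have h3 := hK4 x hx
        rwa [hxi] at h3
      have h4 : Cn G (K (i : ℕ)) := by
        rcases hKG (i : ℕ) with h5 | h5
        · rw [h5] at h2
          exact absurd h2 (Set.notMem_empty _)
        · exact h5
      exact h4.union (SmS_path_cn (p x) (n x) (hps.adj x hx)) ⟨p x (n x), h2, n x, le_rfl, rfl⟩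
    · have e1 : {w | ∃ x ∈ R, σ x = i ∧ ∃ j ≤ n x, p x j = w} = ∅ := by
        ext w
        simp only [Set.mem_ofPred_eq, Set.mem_empty_iff_false, iff_false]
        rintro ⟨x, hx, hxi, _⟩
        exact hi ⟨x, hx, hxi⟩
      rw [e1, Set.union_empty]
      exact hKG i
  · intro i j hij
    rw [Set.disjoint_left]
    rintro w (h1 | ⟨x, hx, hxi, a, ha, rfl⟩) (h2 | ⟨y, hy, hyj, b, hb, h3⟩)
    · exact Set.disjoint_left.1 (hK3 _ _ (fun h => hij (Fin.ext h))) h1 h2
    · rw [← h3] at h1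
      refine hKp (i : ℕ) y hy ?_ b hb h1
      rw [hyj]
      exact fun h => hij (Fin.ext h.symm)
    · refine hKp (j : ℕ) x hx ?_ a ha h2
      rw [hxi]
      exact fun h => hij (Fin.ext h)
    · have h4 := (hps.inj x hx y hy a ha b hb h3.symm).1
      subst h4
      exact hij (hxi.symm.trans hyj)
  · intro i
    rw [Set.disjoint_left]
    rintro w (h1 | ⟨x, hx, hxi, a, ha, rfl⟩) h2
    · have h3 := hK1 _ h1
      rw [Finset.mem_coe, Finset.mem_sdiff, Finset.mem_sdiff] at h3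
      exact h3.1.2 (Finset.mem_sdiff.1 (hYA (by exact_mod_cast h2))).1
    · have h3 := hps.inU x hx a ha
      rw [Finset.mem_sdiff] at h3
      exact h3.2 (hYA (by exact_mod_cast h2))
  · intro i
    exact Set.subset_union_left
  · intro x hx
    exact Or.inr ⟨x, hx, rfl, 0, Nat.zero_le _, hps.start x hx⟩

/-- The hubs for the step.  `M = (X \ S) \ A`, `core_linked`, `ps_min` in `U = univ \ (A \ R)`: paths `p`, lengths `n`; `E` = the last vertices
`p x (n x)`, `Sf` = the `p x (n x - 1)` with `0 < n x` that lie in `S`, `Sn` = the `p x i`, `i + 1 < n x`, that lie in `S` (so every vertex of `S` on the paths is in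
`Sf ∪ Sn`, and the paths meet `(X \ A) \ (Sf ∪ Sn)` exactly in `E`); `partnersB`, `massedB` with `F = T.image π`, `knit` with `x = ρ`
(`|F ∪ E| ≤ ρ`), labels `f t` at `π t`, `σ x` at `p x (n x)`; `K i` = the knitted set of label `i` together with all paths of the `x ∈ R` with
`σ x = i` (a path is connected: the set `{p x j | j ≤ n x}`; `Cn.union_iUnion`). -/
theorem hubsB {G : SimpleGraph V} {β c ρ k : ℕ} (hb : 0 < β) {W X S S1 A R : Finset V}
    {N : V → Finset V} {v : V} (h : SD G (2 * β) c ρ W X S S1 N v)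
    (hA : GoodB G β ρ W X S S1 N A) (hG : Mc G (9600 * (2 * β)) Finset.univ)
    (hGl : GlobB G β A) (hR : 6 * R.card ≤ β) (f σ : V → Fin k) (hσ : Set.InjOn σ (R : Set V)) :
    ∃ K : Fin k → Set V, (∀ i, K i = ∅ ∨ Cn G (K i)) ∧
      (∀ i j, i ≠ j → Disjoint (K i) (K j)) ∧
      (∀ i, Disjoint (K i) (((A \ R) ∩ W.erase v : Finset V) : Set V)) ∧
      (∀ t ∈ nb G ((A \ R) ∩ W.erase v) v, t ∉ S \ S1 → ∃ a ∈ K (f t), G.Adj t a) ∧
      ∀ x ∈ R, x ∈ K (σ x) := by
  have hbρ : 2 * β ≤ ρ := h.bρ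
  have hMc : β ≤ ((X \ S) \ A).card := core_card hb h.e hbρ hA
  have hMA : Disjoint ((X \ S) \ A) A := Finset.sdiff_disjoint
  have hL := core_linked hG hGl (R := R) (M := (X \ S) \ A) (by omega) hMA hMc
  have hMU : (X \ S) \ A ⊆ Finset.univ \ (A \ R) := by
    intro w hw
    rw [Finset.mem_sdiff] at hw ⊢
    exact ⟨Finset.mem_univ _, fun h1 => hw.2 (Finset.mem_sdiff.1 h1).1⟩
  obtain ⟨n, p, hps, hmin⟩ := ps_min hL hMU
  -- the last vertices
  let E : Finset V := R.image (fun x => p x (n x))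
  let Sf : Finset V := ((R.filter (fun x => 0 < n x)).image (fun x => p x (n x - 1))) ∩ S
  let Sn : Finset V := S.filter (fun s => ∃ x ∈ R, ∃ i, i + 1 < n x ∧ s = p x i)
  have hEc : E.card ≤ R.card := Finset.card_image_le
  have hEM : E ⊆ (X \ S) \ A := by
    intro w hw
    obtain ⟨x, hx, rfl⟩ := Finset.mem_image.1 hw
    exact hps.last x hx
  have hSfS : Sf ⊆ S := Finset.inter_subset_right
  have hSfc : Sf.card ≤ R.card := by
    refine (Finset.card_le_card Finset.inter_subset_left).trans ?_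
    exact Finset.card_image_le.trans (Finset.card_le_card (Finset.filter_subset _ _))
  have hSnS : Sn ⊆ S := Finset.filter_subset _ _
  have hSn' : ∀ s ∈ Sn, ∀ w ∈ (X \ S) \ A, G.Adj s w → w ∈ E := by
    intro s hs w hw hsw
    obtain ⟨_, x, hx, i, hi, rfl⟩ := Finset.mem_filter.1 hs
    obtain ⟨y, hy, rfl⟩ := hmin x hx i hi w hw hsw
    exact Finset.mem_image.2 ⟨y, hy, rfl⟩
  obtain ⟨T, π, hT, hTc, hπ, hinj⟩ := partnersB hb h hA hR hEc
  have hF : T.image π ⊆ (X \ S) \ A := by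
    intro w hw
    obtain ⟨t, ht, rfl⟩ := Finset.mem_image.1 hw
    exact (hπ t ht).1
  have hFc : 2 * (T.image π).card ≤ ρ := by
    have h1 : (T.image π).card ≤ T.card := Finset.card_image_le
    omega
  have hm : Massed (gam G S) (1920 * ρ) ((X \ A) \ (Sf ∪ Sn)) (T.image π ∪ E) :=
    massedB hb h.e hbρ hA hR hEc hEM hF hFc hSfS hSfc hSnS hSn'
  have hFE : T.image π ∪ E ⊆ (X \ A) \ (Sf ∪ Sn) := by
    intro w hw
    have h1 : w ∈ (X \ S) \ A := by
      rcases Finset.mem_union.1 hw with h2 | h2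
      · exact hF h2
      · exact hEM h2
    simp only [Finset.mem_sdiff] at h1 ⊢
    refine ⟨⟨h1.1.1, h1.2⟩, fun h2 => h1.1.2 ?_⟩
    rcases Finset.mem_union.1 h2 with h3 | h3
    · exact hSfS h3
    · exact hSnS h3
  have hFEc : (T.image π ∪ E).card ≤ ρ := by
    have h1 := Finset.card_union_le (T.image π) E
    omega
  have hk : Knitted (gam G S) ((X \ A) \ (Sf ∪ Sn)) (T.image π ∪ E) :=
    knit (gam G S) (1920 * ρ) ρ (by omega) _ _ hFE hFEc hm
  obtain ⟨g, hg1, hg2⟩ := SmS_labels (T := T) (R := R) (π := π) (ε := fun x => p x (n x)) f σ hinj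
    (fun x hx y hy hxy => (hps.inj x hx y hy _ le_rfl _ le_rfl hxy).1)
    (fun t ht x hx htx => (hπ t ht).2.1 (Finset.mem_image.2 ⟨x, hx, htx.symm⟩))
  obtain ⟨K, hK1, hK2, hK3, hK4⟩ := hk g
  obtain ⟨K', h1, h2, h3, h4, h5⟩ := SmS_hubs (G := G) (k := k) (Y := (A \ R) ∩ W.erase v)
    (Sf := Sf) (Sn := Sn) hps rfl
    Finset.inter_subset_left
    (fun x hx hn hS => Finset.mem_inter.2 ⟨Finset.mem_image.2 ⟨x, Finset.mem_filter.2 ⟨hx, hn⟩, rfl⟩,
      hS⟩)
    (fun x hx i hi hS => Finset.mem_filter.2 ⟨hS, x, hx, i, hi, rfl⟩) σ hσ hK1 hK2 hK3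
    (fun x hx => by
      have h6 := hK4 (p x (n x)) (Finset.mem_union_right _ (Finset.mem_image.2 ⟨x, hx, rfl⟩))
      rwa [hg2 x hx] at h6)
  refine ⟨K', h1, h2, h3, ?_, h5⟩
  intro t ht htB
  have htT : t ∈ T := by
    rw [hT, Finset.mem_sdiff]
    exact ⟨ht, htB⟩
  refine ⟨π t, h4 (f t) ?_, (hπ t htT).2.2⟩
  have h6 := hK4 (π t) (Finset.mem_union_left _ (Finset.mem_image_of_mem π htT))
  rwa [hg1 t htT] at h6

/-- **The step** (as `step` in W_a862e4_h18/StC.lean): `v ∉ A \ R`: nothing to do; otherwise `khr` with `Y = (A \ R) ∩ W.erase v`,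
`Bad = nb G Y v ∩ (S \ S1)` (at most `c` elements by `h.bad`) and `hubsB`. -/
theorem stepB {G : SimpleGraph V} {β c ρ : ℕ} (hb : 0 < β) {W X S S1 A R : Finset V}
    {N : V → Finset V} {v : V} (hc : c + R.card ≤ 9600 * (2 * β))
    (h : SD G (2 * β) c ρ W X S S1 N v)
    (hA : GoodB G β ρ W X S S1 N A) (hG : Mc G (9600 * (2 * β)) Finset.univ)
    (hGl : GlobB G β A) (hR : 6 * R.card ≤ β)
    (hcol : Colb G ((A \ R) ∩ W.erase v) (9600 * (2 * β))) :
    Colb G ((A \ R) ∩ W) (9600 * (2 * β)) ∨ RS G Finset.univ R := by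
  by_cases hvA : v ∈ A \ R
  swap
  · left
    have e1 : (A \ R) ∩ W = (A \ R) ∩ W.erase v := by
      ext z
      simp only [Finset.mem_inter, Finset.mem_erase]
      constructor
      · rintro ⟨h1, h2⟩
        exact ⟨h1, fun h3 => hvA (h3 ▸ h1), h2⟩
      · rintro ⟨h1, _, h2⟩
        exact ⟨h1, h2⟩
    rw [e1]
    exact hcol
  have hvX : v ∈ X := (Finset.mem_sdiff.1 h.vZ).1
  have hvW : v ∈ W := h.e.XW hvX
  have e1 : (A \ R) ∩ W = insert v ((A \ R) ∩ W.erase v) := by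
    ext z
    rw [Finset.mem_insert, Finset.mem_inter, Finset.mem_inter, Finset.mem_erase]
    constructor
    · rintro ⟨h1, h2⟩
      by_cases hz : z = v
      · exact Or.inl hz
      · exact Or.inr ⟨h1, hz, h2⟩
    · rintro (rfl | ⟨h1, _, h2⟩)
      · exact ⟨hvA, hvW⟩
      · exact ⟨h1, h2⟩
  rw [e1]
  refine khr G (9600 * (2 * β)) ((A \ R) ∩ W.erase v) R v (by simp) ?_
    (nb G ((A \ R) ∩ W.erase v) v ∩ (S \ S1)) ?_ hcol ?_
  · rw [Finset.disjoint_left]
    intro x hx hx'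
    exact (Finset.mem_sdiff.1 (Finset.mem_inter.1 hx').1).2 hx
  · have h1 : (nb G ((A \ R) ∩ W.erase v) v ∩ (S \ S1)).card ≤ (nb G (S \ S1) v).card := by
      refine Finset.card_le_card fun t ht => ?_
      rw [Finset.mem_inter, mem_nbf] at ht
      rw [mem_nbf]
      exact ⟨ht.2, ht.1.2⟩
    have h2 := h.bad
    omega
  · intro f σ hσ
    obtain ⟨K, h1, h2, h3, h4, h5⟩ := hubsB (k := 9600 * (2 * β)) hb h hA hG hGl hR f σ hσ
    exact ⟨K, h1, h2, h3, fun t ht htB => h4 t ht (fun h6 => htB (Finset.mem_inter.2 ⟨ht, h6⟩)), h5⟩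

end Pool.MP_a862e4_co.LS
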